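import Mathlib

/-!
Project IW (helper49): calculus for the barriers.
-/

set_option autoImplicit false

open MeasureTheory Set Metric Filter Topology
open scoped ContDiff

namespace Pool.Agent.D0H49.AX

/-- The profile `(1 - e ^ (-y)) ^ q`. -/
noncomputable def fp (q y : ℝ) : ℝ := (1 - Real.exp (-y)) ^ q

noncomputable def fp1 (q y : ℝ) : ℝ := q * (1 - Real.exp (-y)) ^ (q - 1) * Real.exp (-y)

noncomputable def fp2 (q y : ℝ) : ℝ :=
  q * (q - 1) * (1 - Real.exp (-y)) ^ (q - 2) * Real.exp (-y) ^ 2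
    - q * (1 - Real.exp (-y)) ^ (q - 1) * Real.exp (-y)

/-- The profile `(1 + y) ^ β - 1`. -/
noncomputable def gb (β y : ℝ) : ℝ := (1 + y) ^ β - 1

noncomputable def gb1 (β y : ℝ) : ℝ := β * (1 + y) ^ (β - 1)

noncomputable def gb2 (β y : ℝ) : ℝ := β * (β - 1) * (1 + y) ^ (β - 2)

theorem one_sub_exp_pos {y : ℝ} (hy : 0 < y) : 0 < 1 - Real.exp (-y) := by
  have : Real.exp (-y) < 1 := by rw [Real.exp_lt_one_iff]; linarith
  linarith

theorem one_sub_exp_nn {y : ℝ} (hy : 0 ≤ y) : 0 ≤ 1 - Real.exp (-y) := by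
  have : Real.exp (-y) ≤ 1 := by rw [Real.exp_le_one_iff]; linarith
  linarith

theorem one_sub_exp_lt (y : ℝ) : 1 - Real.exp (-y) < 1 := by
  have := Real.exp_pos (-y)
  linarith

theorem ose_d (y : ℝ) : HasDerivAt (fun z : ℝ => 1 - Real.exp (-z)) (Real.exp (-y)) y := by
  have h1 : HasDerivAt (fun z : ℝ => -z) (-1) y := (hasDerivAt_id y).neg
  have h2 := (h1.exp).const_sub 1
  refine h2.congr_deriv ?_
  ring

theorem fp_d (q : ℝ) {y : ℝ} (hy : 0 < y) : HasDerivAt (fp q) (fp1 q y) y := by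
  have h := (ose_d y).rpow_const (p := q) (Or.inl (one_sub_exp_pos hy).ne')
  refine h.congr_deriv ?_
  unfold fp1
  ring

theorem fp1_d (q : ℝ) {y : ℝ} (hy : 0 < y) : HasDerivAt (fp1 q) (fp2 q y) y := by
  have h := (ose_d y).rpow_const (p := q - 1) (Or.inl (one_sub_exp_pos hy).ne')
  have h1 : HasDerivAt (fun z : ℝ => -z) (-1) y := (hasDerivAt_id y).neg
  have h2 := (h.const_mul q).mul h1.exp
  refine h2.congr_deriv ?_
  unfold fp2
  have e : q - 1 - 1 = q - 2 := by ring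
  rw [e]
  ring

theorem gb_d (β : ℝ) {y : ℝ} (hy : 0 < y) : HasDerivAt (gb β) (gb1 β y) y := by
  have h1 : HasDerivAt (fun z : ℝ => 1 + z) 1 y := (hasDerivAt_id y).const_add 1
  have h := (h1.rpow_const (p := β) (Or.inl (by positivity))).sub_const 1
  refine h.congr_deriv ?_
  unfold gb1
  ring

theorem gb1_d (β : ℝ) {y : ℝ} (hy : 0 < y) : HasDerivAt (gb1 β) (gb2 β y) y := by
  have h1 : HasDerivAt (fun z : ℝ => 1 + z) 1 y := (hasDerivAt_id y).const_add 1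
  have h := (h1.rpow_const (p := β - 1) (Or.inl (by positivity))).const_mul β
  refine h.congr_deriv ?_
  unfold gb2
  have e : β - 1 - 1 = β - 2 := by ring
  rw [e]
  ring

theorem fp_smooth (q : ℝ) : ContDiffOn ℝ 2 (fp q) (Ioi 0) := by
  unfold fp
  apply ContDiffOn.rpow_const_of_ne
  · apply ContDiff.contDiffOn
    fun_prop
  · intro y hy
    exact (one_sub_exp_pos hy).ne'

theorem gb_smooth (β : ℝ) : ContDiffOn ℝ 2 (gb β) (Ioi 0) := by
  unfold gb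
  apply ContDiffOn.sub _ contDiffOn_const
  apply ContDiffOn.rpow_const_of_ne
  · apply ContDiff.contDiffOn
    fun_prop
  · intro y hy
    have : (0 : ℝ) < y := hy
    positivity

theorem fp_cont (q : ℝ) (hq : 0 ≤ q) : Continuous (fp q) := by
  unfold fp
  apply Continuous.rpow_const
  · fun_prop
  · intro y
    exact Or.inr hq

theorem gb_cont (β : ℝ) (hβ : 0 ≤ β) : Continuous (gb β) := by
  unfold gb
  apply Continuous.sub _ continuous_const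
  apply Continuous.rpow_const
  · fun_prop
  · intro y
    exact Or.inr hβ

theorem fp1_pos {q y : ℝ} (hq : 0 < q) (hy : 0 < y) : 0 < fp1 q y := by
  unfold fp1
  have h := Real.rpow_pos_of_pos (one_sub_exp_pos hy) (q - 1)
  have h2 := Real.exp_pos (-y)
  positivity

theorem gb1_pos {β y : ℝ} (hβ : 0 < β) (hy : 0 < y) : 0 < gb1 β y := by
  unfold gb1
  positivity

theorem gb2_np {β y : ℝ} (hβ : 0 < β) (hβ1 : β ≤ 1) (hy : 0 < y) : gb2 β y ≤ 0 := by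
  unfold gb2
  have h : 0 < (1 + y) ^ (β - 2) := by positivity
  have h2 : β * (β - 1) ≤ 0 := by nlinarith
  nlinarith

/-- The differential inequality of the profile. -/
theorem fp_ode {q y : ℝ} (hq : 0 < q) (hq1 : q ≤ 1) (hy : 0 < y) :
    y * fp2 q y ≤ -((1 - q) + q * y) * fp1 q y := by
  have h0 := one_sub_exp_pos hy
  have he := Real.exp_pos (-y)
  have hX : 0 < (1 - Real.exp (-y)) ^ (q - 2) := Real.rpow_pos_of_pos h0 _
  have e1 : (1 - Real.exp (-y)) ^ (q - 1) = (1 - Real.exp (-y)) ^ (q - 2) * (1 - Real.exp (-y)) := by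
    rw [← Real.rpow_add_one h0.ne']
    congr 1
    ring
  unfold fp1 fp2
  rw [e1]
  -- x e^{-x} ≥ (1 - x) (1 - e^{-x})
  have key : (1 - y) * (1 - Real.exp (-y)) ≤ y * Real.exp (-y) := by
    have h1 := Real.add_one_le_exp (-y)
    nlinarith
  have h2 : 0 ≤ q * (1 - Real.exp (-y)) ^ (q - 2) * Real.exp (-y) * (1 - q) := by
    have : 0 ≤ 1 - q := by linarith
    positivity
  have h3 := mul_le_mul_of_nonneg_left key h2
  nlinarith [h3]

theorem fp2_np {q y : ℝ} (hq : 0 < q) (hq1 : q ≤ 1) (hy : 0 < y) : fp2 q y ≤ 0 := by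
  have h := fp_ode hq hq1 hy
  have h1 := fp1_pos hq hy
  have h2 : 0 ≤ ((1 - q) + q * y) * fp1 q y := by
    have : 0 ≤ 1 - q := by linarith
    positivity
  by_contra hc
  push Not at hc
  have := mul_pos hy hc
  linarith

theorem fp_nn {q y : ℝ} (hy : 0 ≤ y) : 0 ≤ fp q y := Real.rpow_nonneg (one_sub_exp_nn hy) q

theorem fp_pos {q y : ℝ} (hy : 0 < y) : 0 < fp q y := Real.rpow_pos_of_pos (one_sub_exp_pos hy) q

theorem fp_lt_one {q y : ℝ} (hq : 0 < q) (hy : 0 ≤ y) : fp q y < 1 :=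
  Real.rpow_lt_one (one_sub_exp_nn hy) (one_sub_exp_lt y) hq

theorem fp_mono {q y z : ℝ} (hq : 0 ≤ q) (hy : 0 ≤ y) (hyz : y ≤ z) : fp q y ≤ fp q z := by
  apply Real.rpow_le_rpow (one_sub_exp_nn hy) _ hq
  have : Real.exp (-z) ≤ Real.exp (-y) := Real.exp_le_exp.2 (by linarith)
  linarith

theorem fp_le {q y : ℝ} (hq : 0 ≤ q) (hy : 0 ≤ y) : fp q y ≤ y ^ q := by
  apply Real.rpow_le_rpow (one_sub_exp_nn hy) _ hq
  have := Real.add_one_le_exp (-y)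
  linarith

theorem fp_low_aux {y Y : ℝ} (hy : 0 ≤ y) (hY : 0 < Y) (hyY : y ≤ Y) :
    y / Y * (1 - Real.exp (-Y)) ≤ 1 - Real.exp (-y) := by
  have h0 : 0 ≤ y / Y := by positivity
  have h1 : 0 ≤ 1 - y / Y := by
    rw [sub_nonneg, div_le_one hY]
    exact hyY
  have h := convexOn_exp.2 (mem_univ (0 : ℝ)) (mem_univ (-Y)) h1 h0 (by ring)
  simp only [smul_eq_mul, mul_zero, zero_add, Real.exp_zero, mul_one] at h
  have e : y / Y * -Y = -y := by field_simp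
  rw [e] at h
  nlinarith

theorem fp_low' {q y Y : ℝ} (hq : 0 ≤ q) (hy : 0 ≤ y) (hY : 0 < Y) (hyY : y ≤ Y) :
    (y / Y) ^ q * fp q Y ≤ fp q y := by
  unfold fp
  rw [← Real.mul_rpow (by positivity) (one_sub_exp_nn hY.le)]
  exact Real.rpow_le_rpow (mul_nonneg (by positivity) (one_sub_exp_nn hY.le))
    (fp_low_aux hy hY hyY) hq

theorem fp_low {q y Y : ℝ} (hq : 0 < q) (hq1 : q ≤ 1) (hy : 0 ≤ y) (hY : 0 < Y) (hyY : y ≤ Y) :
    y / Y * fp q Y ≤ fp q y := by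
  refine le_trans ?_ (fp_low' hq.le hy hY hyY)
  apply mul_le_mul_of_nonneg_right _ (fp_nn hY.le)
  have h0 : 0 ≤ y / Y := by positivity
  have h1 : y / Y ≤ 1 := by
    rw [div_le_one hY]
    exact hyY
  exact Real.self_le_rpow_of_le_one h0 h1 hq1

theorem gb_nn {β y : ℝ} (hβ : 0 ≤ β) (hy : 0 ≤ y) : 0 ≤ gb β y := by
  unfold gb
  have := Real.one_le_rpow (show (1 : ℝ) ≤ 1 + y by linarith) hβ
  linarith

theorem gb_mono {β y z : ℝ} (hβ : 0 ≤ β) (hy : 0 ≤ y) (hyz : y ≤ z) : gb β y ≤ gb β z := by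
  unfold gb
  have := Real.rpow_le_rpow (show (0 : ℝ) ≤ 1 + y by linarith) (show 1 + y ≤ 1 + z by linarith) hβ
  linarith

/-- The profile tends to one. -/
theorem fp_large {q ε : ℝ} (hε : ε < 1) : ∃ Y : ℝ, 0 < Y ∧ ε < fp q Y := by
  have h1 : Tendsto (fun y : ℝ => fp q y) atTop (𝓝 1) := by
    have h2 : Tendsto (fun y : ℝ => 1 - Real.exp (-y)) atTop (𝓝 (1 - 0)) :=
      Tendsto.const_sub 1 (Real.tendsto_exp_neg_atTop_nhds_zero)
    rw [sub_zero] at h2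
    have h3 := h2.rpow_const (p := q) (Or.inl one_ne_zero)
    rw [Real.one_rpow] at h3
    exact h3
  have h4 := (h1.eventually (lt_mem_nhds hε)).and (eventually_gt_atTop (0 : ℝ))
  obtain ⟨Y, hY⟩ := h4.exists
  exact ⟨Y, hY.2, hY.1⟩

/-- The constants of the contraction. -/
theorem consts (K₁ q d : ℝ) (hK₁ : 0 ≤ K₁) (hq : 0 < q) (hd : 0 < d) :
    ∃ β δ Θ : ℝ, 0 < β ∧ β ≤ 1 ∧ 0 < δ ∧ 0 < Θ ∧ Θ < 1 ∧ (2 : ℝ) ^ (-β) ≤ Θ ∧
      ∀ y : ℝ, 0 ≤ y → (1 + δ) * fp q ((y + K₁) / (2 * q * d)) + gb β (y + K₁)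
        ≤ Θ * (1 + 2 * y) ^ β := by
  obtain ⟨f₁, hf₁⟩ : ∃ f₁ : ℝ, f₁ = fp q ((K₁ + 1 + K₁) / (2 * q * d)) := ⟨_, rfl⟩
  have hf1 : f₁ < 1 := by rw [hf₁]; exact fp_lt_one hq (by positivity)
  have hf0 : 0 ≤ f₁ := by rw [hf₁]; exact fp_nn (by positivity)
  have h1 : Tendsto (fun β : ℝ => (2 + 2 * K₁) ^ β) (𝓝 0) (𝓝 1) := by
    have h2 : ContinuousAt (fun β : ℝ => (2 + 2 * K₁) ^ β) 0 :=
      (Real.continuous_const_rpow (by positivity)).continuousAt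
    have h3 := h2.tendsto
    simpa using h3
  have h2 : ∀ᶠ β in 𝓝[>] (0 : ℝ), (2 + 2 * K₁) ^ β < 1 + (1 - f₁) / 4 :=
    (h1.mono_left nhdsWithin_le_nhds).eventually (gt_mem_nhds (by linarith))
  have h3 : ∀ᶠ β in 𝓝[>] (0 : ℝ), β < 1 :=
    (tendsto_id.mono_left nhdsWithin_le_nhds).eventually (gt_mem_nhds one_pos)
  obtain ⟨β, hβ⟩ := (h2.and (h3.and self_mem_nhdsWithin)).exists
  obtain ⟨hβ2, hβ1, hβ0⟩ := hβ
  have hβ0 : 0 < β := hβ0
  obtain ⟨ρ, hρ⟩ : ∃ ρ : ℝ, ρ = (2 + 2 * K₁) / (3 + 2 * K₁) := ⟨_, rfl⟩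
  have hρ0 : 0 < ρ := by rw [hρ]; positivity
  have hρ1 : ρ < 1 := by rw [hρ, div_lt_one (by positivity)]; linarith
  have hρβ : ρ ^ β < 1 := Real.rpow_lt_one hρ0.le hρ1 hβ0
  have hρβ0 : 0 < ρ ^ β := Real.rpow_pos_of_pos hρ0 _
  have h2β : (2 : ℝ) ^ (-β) < 1 := Real.rpow_lt_one_of_one_lt_of_neg one_lt_two (by linarith)
  obtain ⟨δ, hδ⟩ : ∃ δ : ℝ, δ = min ((1 - f₁) / 4) ((1 - ρ ^ β) / 2) := ⟨_, rfl⟩
  have hδ0 : 0 < δ := by rw [hδ]; exact lt_min (by linarith) (by linarith)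
  have hδ1 : δ ≤ (1 - f₁) / 4 := by rw [hδ]; exact min_le_left _ _
  have hδ2 : δ ≤ (1 - ρ ^ β) / 2 := by rw [hδ]; exact min_le_right _ _
  obtain ⟨Θ, hΘ⟩ : ∃ Θ : ℝ, Θ = max (max ((1 + f₁) / 2) ((1 + ρ ^ β) / 2)) ((2 : ℝ) ^ (-β)) :=
    ⟨_, rfl⟩
  have hΘ1 : (1 + f₁) / 2 ≤ Θ := by rw [hΘ]; exact (le_max_left _ _).trans (le_max_left _ _)
  have hΘ2 : (1 + ρ ^ β) / 2 ≤ Θ := by rw [hΘ]; exact (le_max_right _ _).trans (le_max_left _ _)
  have hΘ3 : (2 : ℝ) ^ (-β) ≤ Θ := by rw [hΘ]; exact le_max_right _ _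
  have hΘ4 : Θ < 1 := by rw [hΘ]; exact max_lt (max_lt (by linarith) (by linarith)) h2β
  have hΘ0 : 0 < Θ := by linarith
  refine ⟨β, δ, Θ, hβ0, hβ1.le, hδ0, hΘ0, hΘ4, hΘ3, fun y hy => ?_⟩
  have h5 : 1 ≤ (1 + 2 * y) ^ β := Real.one_le_rpow (by linarith) hβ0.le
  rcases le_total y (K₁ + 1) with hy1 | hy1
  · have h6 : fp q ((y + K₁) / (2 * q * d)) ≤ f₁ := by
      rw [hf₁]
      apply fp_mono hq.le (by positivity)
      apply div_le_div_of_nonneg_right _ (by positivity)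
      linarith
    have h7 : gb β (y + K₁) ≤ (1 - f₁) / 4 := by
      have : gb β (y + K₁) ≤ gb β (1 + 2 * K₁) := gb_mono hβ0.le (by positivity) (by linarith)
      unfold gb at this ⊢
      have e : (1 : ℝ) + (1 + 2 * K₁) = 2 + 2 * K₁ := by ring
      rw [e] at this
      linarith
    have h8 : (1 + δ) * fp q ((y + K₁) / (2 * q * d)) ≤ f₁ + δ := by nlinarith
    nlinarith
  · have h6 : fp q ((y + K₁) / (2 * q * d)) ≤ 1 := (fp_lt_one hq (by positivity)).le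
    have h7 : 1 + (y + K₁) ≤ ρ * (1 + 2 * y) := by
      rw [hρ, div_mul_eq_mul_div, le_div_iff₀ (by positivity)]
      nlinarith
    have h8 : (1 + (y + K₁)) ^ β ≤ ρ ^ β * (1 + 2 * y) ^ β := by
      rw [← Real.mul_rpow hρ0.le (by positivity)]
      exact Real.rpow_le_rpow (by positivity) h7 hβ0.le
    unfold gb
    have h9 : (1 + δ) * fp q ((y + K₁) / (2 * q * d)) ≤ 1 + δ := by nlinarith
    have h10 : δ ≤ δ * (1 + 2 * y) ^ β := by nlinarith
    have h11 : (δ + ρ ^ β) * (1 + 2 * y) ^ β ≤ Θ * (1 + 2 * y) ^ β := by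
      apply mul_le_mul_of_nonneg_right _ (by linarith)
      linarith
    linarith

end Pool.Agent.D0H49.AX
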