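import Pool.Agent.Q67.AXI.Defs3
import Pool.Agent.Q65.AXI.LogC
import Pool.Agent.D0H49.AX.BarA

/-!
Project IW (helper49): the general barrier.
-/

set_option autoImplicit false

open MeasureTheory Set Metric Filter Topology
open scoped ContDiff
open H459R3.NS Pool.Agent.W268.NS Pool.Agent.Q67.VD

namespace Pool.Agent.D0H49.AX

open Pool.Agent.Q85.CC Pool.Agent.Q85.CL Pool.Agent.TH305.AX Pool.Agent.Q67.AXI
open Pool.Agent.Q65.AXI (sliceU)

/-- One term of the barrier: derivative in time. -/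
theorem term_dt (F F1 : ℝ → ℝ) (En En' a a' w w' : ℝ → ℝ) (t s : ℝ)
    (hF : ∀ y : ℝ, 0 < y → HasDerivAt F (F1 y) y) (hE : HasDerivAt En (En' t) t)
    (ha : HasDerivAt a (a' t) t) (hw : HasDerivAt w (w' t) t) (hw0 : 0 < w t)
    (hpos : 0 < En t * s + a t) :
    HasDerivAt (fun τ => F ((En τ * s + a τ) / w τ))
      (F1 ((En t * s + a t) / w t) *
        (((En' t * s + a' t) * w t - (En t * s + a t) * w' t) / w t ^ 2)) t := by
  have h1 := ((hE.mul_const s).add ha).div hw hw0.ne'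
  have h2 := hF ((En t * s + a t) / w t) (div_pos hpos hw0)
  exact HasDerivAt.comp t h2 h1

theorem term_ds (F F1 : ℝ → ℝ) (En a w : ℝ → ℝ) (t s : ℝ)
    (hF : ∀ y : ℝ, 0 < y → HasDerivAt F (F1 y) y) (hw0 : 0 < w t)
    (hpos : 0 < En t * s + a t) :
    HasDerivAt (fun σ => F ((En t * σ + a t) / w t))
      (F1 ((En t * s + a t) / w t) * (En t / w t)) s := by
  have h0 : HasDerivAt (fun σ : ℝ => En t * σ) (En t) s := by
    simpa using (hasDerivAt_id s).const_mul (En t)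
  have h1 := (h0.add_const (a t)).div_const (w t)
  have h2 := hF ((En t * s + a t) / w t) (div_pos hpos hw0)
  exact HasDerivAt.comp s h2 h1

/-- The barrier. -/
noncomputable def kq (m₁ m₂ q β τ : ℝ) (En a w cc : ℝ → ℝ) (t s : ℝ) : ℝ :=
  m₁ * fp q ((En t * s + a t) / w t) + m₂ * gb β ((En t * s + cc t) / τ)

noncomputable def kqT (m₁ m₂ q β τ : ℝ) (En En' a a' w w' cc cc' : ℝ → ℝ) (t s : ℝ) : ℝ :=
  m₁ * (fp1 q ((En t * s + a t) / w t) *
        (((En' t * s + a' t) * w t - (En t * s + a t) * w' t) / w t ^ 2)) +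
  m₂ * (gb1 β ((En t * s + cc t) / τ) *
        (((En' t * s + cc' t) * τ - (En t * s + cc t) * 0) / τ ^ 2))

noncomputable def kqS (m₁ m₂ q β τ : ℝ) (En a w cc : ℝ → ℝ) (t s : ℝ) : ℝ :=
  m₁ * (fp1 q ((En t * s + a t) / w t) * (En t / w t)) +
  m₂ * (gb1 β ((En t * s + cc t) / τ) * (En t / τ))

noncomputable def kqSS (m₁ m₂ q β τ : ℝ) (En a w cc : ℝ → ℝ) (t s : ℝ) : ℝ :=
  m₁ * (fp2 q ((En t * s + a t) / w t) * (En t / w t) * (En t / w t)) +
  m₂ * (gb2 β ((En t * s + cc t) / τ) * (En t / τ) * (En t / τ))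

/-- The inequality for the term with increasing shift. -/
theorem ineqA (F1 F2 k b rd E s a a' w : ℝ) (hF1 : 0 < F1) (hF2 : F2 ≤ 0) (hw : 0 < w)
    (hE : 0 < E) (hs : 0 < s) (ha' : 2 * k * E ≤ a') (hrd : -(k + b * s) ≤ rd) :
    0 ≤ F1 * (((2 * b * E * s + a') * w - (E * s + a) * 0) / w ^ 2) + 2 * rd * (F1 * (E / w))
      - 4 * s * (F2 * (E / w) * (E / w)) := by
  have e : F1 * (((2 * b * E * s + a') * w - (E * s + a) * 0) / w ^ 2) + 2 * rd * (F1 * (E / w))
      - 4 * s * (F2 * (E / w) * (E / w)) =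
      F1 / w * (2 * b * E * s + a' + 2 * rd * E) + 4 * s * (-F2) * (E / w) ^ 2 := by
    field_simp
    ring
  rw [e]
  have h1 : 0 ≤ 2 * b * E * s + a' + 2 * rd * E := by
    have := mul_le_mul_of_nonneg_right hrd hE.le
    nlinarith
  have h2 : 0 ≤ -F2 := by linarith
  positivity

theorem ineqA' (F1 F2 k b rd E s a a' w : ℝ) (hF1 : 0 < F1) (hF2 : F2 ≤ 0) (hw : 0 < w)
    (hE : 0 < E) (hs : 0 < s) (ha' : 2 * k * E < a') (hrd : -(k + b * s) ≤ rd) :
    0 < F1 * (((2 * b * E * s + a') * w - (E * s + a) * 0) / w ^ 2) + 2 * rd * (F1 * (E / w))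
      - 4 * s * (F2 * (E / w) * (E / w)) := by
  have e : F1 * (((2 * b * E * s + a') * w - (E * s + a) * 0) / w ^ 2) + 2 * rd * (F1 * (E / w))
      - 4 * s * (F2 * (E / w) * (E / w)) =
      F1 / w * (2 * b * E * s + a' + 2 * rd * E) + 4 * s * (-F2) * (E / w) ^ 2 := by
    field_simp
    ring
  rw [e]
  have h1 : 0 < 2 * b * E * s + a' + 2 * rd * E := by
    have := mul_le_mul_of_nonneg_right hrd hE.le
    nlinarith
  have h2 : 0 ≤ -F2 := by linarith
  positivity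

/-- The inequality for the term with increasing width. -/
theorem ineqB (q b rd E s w w' : ℝ) (hq : 0 < q) (hq1 : q ≤ 1) (hw : 0 < w)
    (hE : 1 ≤ E) (hs : 0 < s) (hw' : w' ≤ 2 * q)
    (hrd : -((2 - 2 * q) + (q / w + b) * s) ≤ rd) :
    0 ≤ fp1 q ((E * s + 0) / w) * (((2 * b * E * s + 0) * w - (E * s + 0) * w') / w ^ 2)
      + 2 * rd * (fp1 q ((E * s + 0) / w) * (E / w))
      - 4 * s * (fp2 q ((E * s + 0) / w) * (E / w) * (E / w)) := by
  rw [add_zero, add_zero]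
  have hE0 : 0 < E := by linarith
  obtain ⟨y, hy⟩ : ∃ y : ℝ, y = E * s / w := ⟨_, rfl⟩
  have hy0 : 0 < y := by rw [hy]; positivity
  have hys : s / w ≤ y := by
    rw [hy]
    apply div_le_div_of_nonneg_right _ hw.le
    nlinarith
  rw [← hy]
  have h1 := fp_ode hq hq1 hy0
  have h2 := fp1_pos hq hy0
  have e : fp1 q y * ((2 * b * E * s * w - E * s * w') / w ^ 2)
      + 2 * rd * (fp1 q y * (E / w)) - 4 * s * (fp2 q y * (E / w) * (E / w)) =
      1 / w * (fp1 q y * (2 * b * E * s - y * w' + 2 * rd * E) - 4 * E * (y * fp2 q y)) := by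
    rw [hy]
    field_simp
  rw [e]
  have h3 : -(2 * E * ((2 - 2 * q) + q * y)) ≤ 2 * b * E * s + 2 * rd * E := by
    have h31 := mul_le_mul_of_nonneg_right hrd hE0.le
    have h32 : q / w * s ≤ q * y := by
      have : q / w * s = q * (s / w) := by ring
      rw [this]
      exact mul_le_mul_of_nonneg_left hys hq.le
    have h33 := mul_le_mul_of_nonneg_left h32 hE0.le
    nlinarith
  have h4 : fp1 q y * (-(2 * q * y) - 2 * E * ((2 - 2 * q) + q * y))
      ≤ fp1 q y * (2 * b * E * s - y * w' + 2 * rd * E) := by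
    apply mul_le_mul_of_nonneg_left _ h2.le
    nlinarith
  have h5 : 4 * E * (y * fp2 q y) ≤ 4 * E * (-((1 - q) + q * y) * fp1 q y) :=
    mul_le_mul_of_nonneg_left h1 (by positivity)
  have h6 : 0 ≤ fp1 q y * (-(2 * q * y) - 2 * E * ((2 - 2 * q) + q * y)
      + 4 * E * ((1 - q) + q * y)) := by
    apply mul_nonneg h2.le
    have h7 : 0 ≤ q * y * (E - 1) := mul_nonneg (by positivity) (by linarith)
    nlinarith
  apply mul_nonneg (by positivity)
  nlinarith

/-- The comparison with the barrier. -/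
theorem stage (hAlg : StmAlg) (hBar : StmBar) (T E₀ c R H r h T₁ T₂ : ℝ) (u : ℝ → V → V)
    (p : ℝ → V → ℝ) (hA : AxL T E₀ c R H u p) (hr : 0 < r) (hrR : r < R) (hh : 0 < h)
    (hhH : h < H) (hT₁ : 0 < T₁) (hT₁₂ : T₁ < T₂) (hT₂ : T₂ ≤ T)
    (m₁ m₂ q β τ W M : ℝ) (k b En a a' w w' cc cc' : ℝ → ℝ)
    (hq : 0 < q) (hq1 : q < 1) (hβ : 0 < β) (hβ1 : β ≤ 1) (hm₁ : 0 < m₁) (hm₂ : 0 < m₂)
    (hτ : 0 < τ) (hE : ∀ t ∈ Ico T₁ T₂, 1 ≤ En t) (ha : ∀ t ∈ Ico T₁ T₂, 0 ≤ a t)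
    (hc : ∀ t ∈ Ico T₁ T₂, 0 ≤ cc t) (hw : ∀ t ∈ Ico T₁ T₂, 0 < w t)
    (hwW : ∀ t ∈ Ico T₁ T₂, w t ≤ W)
    (hEc : ContinuousOn En (Ico T₁ T₂)) (hac : ContinuousOn a (Ico T₁ T₂))
    (hwc : ContinuousOn w (Ico T₁ T₂)) (hcc : ContinuousOn cc (Ico T₁ T₂))
    (hEd : ∀ t ∈ Ioo T₁ T₂, HasDerivAt En (2 * b t * En t) t)
    (had : ∀ t ∈ Ioo T₁ T₂, HasDerivAt a (a' t) t)
    (hwd : ∀ t ∈ Ioo T₁ T₂, HasDerivAt w (w' t) t)
    (hcd : ∀ t ∈ Ioo T₁ T₂, HasDerivAt cc (cc' t) t)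
    (hcc' : ∀ t ∈ Ioo T₁ T₂, 2 * k t * En t < cc' t)
    (hreg : ∀ t ∈ Ioo T₁ T₂, (w' t = 0 ∧ 2 * k t * En t ≤ a' t) ∨
      (a t = 0 ∧ a' t = 0 ∧ w' t ≤ 2 * q ∧ ∀ x ∈ Co c r h, 0 < sg x →
        M * sg x < |circ (u t) x| → rad (vort (u t)) x = 0 →
        0 < circ (u t) x * vort (u t) x 2 →
        -((2 - 2 * q) + (q / w t + b t) * sg x) ≤ rad (u t) x))
    (hlow : ∀ t ∈ Ioo T₁ T₂, ∀ s ∈ Ioo 0 (r ^ 2), M * s ≤ kq m₁ m₂ q β τ En a w cc t s)
    (hrad : ∀ t ∈ Ioo T₁ T₂, ∀ x ∈ Co c r h, 0 < sg x → M * sg x < |circ (u t) x| →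
      rad (vort (u t)) x = 0 →
      0 < circ (u t) x * vort (u t) x 2 → -(k t + b t * sg x) ≤ rad (u t) x)
    (hlat : ∀ t ∈ Ico T₁ T₂, ∀ x ∈ Cy c r h, 0 < sg x → (sg x = r ^ 2 ∨ |x 2 - c| = h) →
      |circ (u t) x| ≤ kq m₁ m₂ q β τ En a w cc t (sg x))
    (hini : ∀ x ∈ Cy c r h, 0 < sg x →
      |circ (u T₁) x| ≤ kq m₁ m₂ q β τ En a w cc T₁ (sg x)) :
    ∀ t ∈ Ico T₁ T₂, ∀ x ∈ Cy c r h, 0 < sg x →
      |circ (u t) x| ≤ kq m₁ m₂ q β τ En a w cc t (sg x) := by
  have hp1 : ∀ t ∈ Ico T₁ T₂, ∀ s : ℝ, 0 < s → 0 < En t * s + a t := by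
    intro t ht s hs
    have h1 := hE t ht
    have h2 := ha t ht
    have : 0 < En t * s := mul_pos (by linarith) hs
    linarith
  have hp2 : ∀ t ∈ Ico T₁ T₂, ∀ s : ℝ, 0 < s → 0 < En t * s + cc t := by
    intro t ht s hs
    have h1 := hE t ht
    have h2 := hc t ht
    have : 0 < En t * s := mul_pos (by linarith) hs
    linarith
  have hW0 : 0 < W := (hw T₁ ⟨le_rfl, hT₁₂⟩).trans_le (hwW T₁ ⟨le_rfl, hT₁₂⟩)
  refine hBar T E₀ c R H r h T₁ T₂ u p (kq m₁ m₂ q β τ En a w cc)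
    (kqT m₁ m₂ q β τ En (fun t => 2 * b t * En t) a a' w w' cc cc')
    (kqS m₁ m₂ q β τ En a w cc) (kqSS m₁ m₂ q β τ En a w cc) hA hr hrR hh hhH hT₁ hT₁₂ hT₂
    ?_ ?_ ?_ ?_ ?_ hlat hini ?_
  · -- continuity
    have c1 : ∀ f : ℝ → ℝ, ContinuousOn f (Ico T₁ T₂) →
        ContinuousOn (fun z : ℝ × ℝ => f z.1) (Ico T₁ T₂ ×ˢ Ioc 0 (r ^ 2)) :=
      fun f hf => hf.comp continuousOn_fst (fun z hz => hz.1)
    unfold kq
    apply ContinuousOn.add
    · apply continuousOn_const.mul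
      apply (fp_cont q hq.le).comp_continuousOn
      exact (((c1 _ hEc).mul continuousOn_snd).add (c1 _ hac)).div (c1 _ hwc)
        (fun z hz => (hw z.1 hz.1).ne')
    · apply continuousOn_const.mul
      apply (gb_cont β hβ.le).comp_continuousOn
      exact (((c1 _ hEc).mul continuousOn_snd).add (c1 _ hcc)).div_const _
  · -- derivatives
    intro t ht s hs
    have ht' : t ∈ Ico T₁ T₂ := ⟨ht.1.le, ht.2⟩
    have q1 := hp1 t ht' s hs.1
    have q2 := hp2 t ht' s hs.1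
    refine ⟨?_, ?_, ?_⟩
    · have d1 := (term_dt (fp q) (fp1 q) En (fun t => 2 * b t * En t) a a' w w' t s
        (fun y hy => fp_d q hy) (hEd t ht) (had t ht) (hwd t ht) (hw t ht') q1).const_mul m₁
      have d2 := (term_dt (gb β) (gb1 β) En (fun t => 2 * b t * En t) cc cc' (fun _ => τ)
        (fun _ => 0) t s (fun y hy => gb_d β hy) (hEd t ht) (hcd t ht) (hasDerivAt_const t τ) hτ
        q2).const_mul m₂
      exact d1.add d2
    · have d1 := (term_ds (fp q) (fp1 q) En a w t s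
        (fun y hy => fp_d q hy) (hw t ht') q1).const_mul m₁
      have d2 := (term_ds (gb β) (gb1 β) En cc (fun _ => τ) t s (fun y hy => gb_d β hy) hτ
        q2).const_mul m₂
      exact d1.add d2
    · have d1 := ((term_ds (fp1 q) (fp2 q) En a w t s
        (fun y hy => fp1_d q hy) (hw t ht') q1).mul_const (En t / w t)).const_mul m₁
      have d2 := ((term_ds (gb1 β) (gb2 β) En cc (fun _ => τ) t s (fun y hy => gb1_d β hy) hτ
        q2).mul_const (En t / τ)).const_mul m₂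
      exact d1.add d2
  · -- smoothness
    intro t ht
    have ht' : t ∈ Ico T₁ T₂ := ⟨ht.1.le, ht.2⟩
    unfold kq
    apply ContDiffOn.add
    · apply contDiffOn_const.mul
      apply (fp_smooth q).comp
      · apply ContDiff.contDiffOn
        apply ContDiff.div_const
        fun_prop
      · intro s hs
        exact div_pos (hp1 t ht' s hs.1) (hw t ht')
    · apply contDiffOn_const.mul
      apply (gb_smooth β).comp
      · apply ContDiff.contDiffOn
        apply ContDiff.div_const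
        fun_prop
      · intro s hs
        exact div_pos (hp2 t ht' s hs.1) hτ
  · -- nonnegative
    intro t ht s hs
    unfold kq
    have f1 := fp_nn (q := q) (div_pos (hp1 t ht s hs.1) (hw t ht)).le
    have f2 := gb_nn hβ.le (div_pos (hp2 t ht s hs.1) hτ).le
    positivity
  · -- near the axis
    intro T' hT' A
    have hφ : 0 < fp q 1 := fp_pos one_pos
    -- (s / W) ^ q * fp q 1 * m₁ ≥ A s for small s
    have hlim : Tendsto (fun s : ℝ => |A| * W * (s / W) ^ (1 - q)) (𝓝 0) (𝓝 0) := by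
      have h1 : ContinuousAt (fun s : ℝ => |A| * W * (s / W) ^ (1 - q)) 0 := by
        apply ContinuousAt.mul continuousAt_const
        apply ContinuousAt.rpow_const
        · fun_prop
        · right; linarith
      have h2 := h1.tendsto
      simpa [Real.zero_rpow (show (1 : ℝ) - q ≠ 0 by linarith)] using h2
    have hev := hlim.eventually (gt_mem_nhds (mul_pos hm₁ hφ))
    obtain ⟨ε, hε, hball⟩ := Metric.eventually_nhds_iff.1 hev
    refine ⟨min ε W, lt_min hε hW0, ?_⟩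
    intro t ht s hs hsδ
    have ht' : t ∈ Ico T₁ T₂ := ⟨ht.1, lt_of_le_of_lt ht.2 hT'.2⟩
    have hs0 := hs.1
    have hsε : s < ε := hsδ.trans_le (min_le_left _ _)
    have hsW : s < W := hsδ.trans_le (min_le_right _ _)
    have hb := hball (y := s) (by rw [Real.dist_eq, sub_zero, abs_of_pos hs0]; exact hsε)
    have hsW0 : 0 < s / W := div_pos hs0 hW0
    have h1 : s / W ≤ (En t * s + a t) / w t := by
      apply div_le_div₀ (hp1 t ht' s hs0).le _ (hw t ht') (hwW t ht')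
      have h2 := hE t ht'
      have h3 := ha t ht'
      nlinarith
    have h2 : (s / W / 1) ^ q * fp q 1 ≤ fp q (s / W) :=
      fp_low' hq.le hsW0.le one_pos (by rw [div_le_one hW0]; exact hsW.le)
    rw [div_one] at h2
    have h3 : fp q (s / W) ≤ fp q ((En t * s + a t) / w t) := fp_mono hq.le hsW0.le h1
    have h4 : 0 ≤ gb β ((En t * s + cc t) / τ) := gb_nn hβ.le (div_pos (hp2 t ht' s hs0) hτ).le
    have h5 : |A| * s ≤ m₁ * ((s / W) ^ q * fp q 1) := by
      have e : |A| * s = |A| * W * (s / W) ^ (1 - q) * (s / W) ^ q := by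
        rw [mul_assoc, ← Real.rpow_add hsW0]
        have : (1 - q + q) = 1 := by ring
        rw [this, Real.rpow_one]
        field_simp
      rw [e]
      have h6 : 0 < (s / W) ^ q := Real.rpow_pos_of_pos hsW0 _
      nlinarith
    unfold kq
    have h6 : A * s ≤ |A| * s := mul_le_mul_of_nonneg_right (le_abs_self A) hs0.le
    have h7 : m₁ * ((s / W) ^ q * fp q 1) ≤ m₁ * fp q ((En t * s + a t) / w t) :=
      mul_le_mul_of_nonneg_left (h2.trans h3) hm₁.le
    have h8 : 0 ≤ m₂ * gb β ((En t * s + cc t) / τ) := mul_nonneg hm₂.le h4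
    linarith
  · -- touching points
    intro t ht x hx hs σ hσ hk h2 h0 h1
    have ht' : t ∈ Ico T₁ T₂ := ⟨ht.1.le, ht.2⟩
    have htI : t ∈ Ioo 0 T := ⟨hT₁.trans ht.1, ht.2.trans_le hT₂⟩
    have q1 := hp1 t ht' _ hs
    have q2 := hp2 t ht' _ hs
    have hE1 := hE t ht'
    have hE0 : 0 < En t := by linarith
    have hw0 := hw t ht'
    obtain ⟨d0, d1, d2, d3⟩ := ((hAlg (u t) (sliceU hA.smooth_u htI) (hA.axi t htI)).2.2.2 x).2.2.2.2.2.2.2.2.2.2.1
    have y1 := div_pos q1 hw0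
    have y2 := div_pos q2 hτ
    have hkS : 0 < kqS m₁ m₂ q β τ En a w cc t (sg x) := by
      unfold kqS
      have g1 := fp1_pos hq y1
      have g2 := gb1_pos hβ y2
      positivity
    have hk0 : 0 ≤ kq m₁ m₂ q β τ En a w cc t (sg x) := by
      unfold kq
      have f1 := fp_nn (q := q) y1.le
      have f2 := gb_nn hβ.le y2.le
      positivity
    have hvort : vort (u t) x 2 = σ * (2 * kqS m₁ m₂ q β τ En a w cc t (sg x)) := by
      rw [d0] at h0
      rw [d1] at h1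
      have hor : x 0 ≠ 0 ∨ x 1 ≠ 0 := by
        by_contra hc
        push Not at hc
        have : sg x = 0 := by unfold sg; rw [hc.1, hc.2]; ring
        linarith
      rcases hor with hx0 | hx1
      · apply mul_left_cancel₀ hx0
        rw [h0]; ring
      · apply mul_left_cancel₀ hx1
        rw [h1]; ring
    have habs : σ * circ (u t) x ≤ |circ (u t) x| := by
      rcases hσ with rfl | rfl
      · rw [one_mul]; exact le_abs_self _
      · rw [neg_one_mul]; exact neg_le_abs _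
    have hc1 : M * sg x < |circ (u t) x| :=
      lt_of_le_of_lt (hlow t ht (sg x) ⟨hs, hx.1⟩) (lt_of_lt_of_le hk habs)
    have hc2 : rad (vort (u t)) x = 0 := by rw [d3]; rw [d2] at h2; linarith
    have hc3 : 0 < circ (u t) x * vort (u t) x 2 := by
      rw [hvort]
      have : circ (u t) x * (σ * (2 * kqS m₁ m₂ q β τ En a w cc t (sg x))) =
          2 * (σ * circ (u t) x) * kqS m₁ m₂ q β τ En a w cc t (sg x) := by ring
      rw [this]
      have : 0 < σ * circ (u t) x := lt_of_le_of_lt hk0 hk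
      positivity
    have hrd := hrad t ht x hx hs hc1 hc2 hc3
    have t2 := ineqA' (gb1 β ((En t * sg x + cc t) / τ)) (gb2 β ((En t * sg x + cc t) / τ))
      (k t) (b t) (rad (u t) x) (En t) (sg x) (cc t) (cc' t) τ (gb1_pos hβ y2) (gb2_np hβ hβ1 y2)
      hτ hE0 hs (hcc' t ht) hrd
    have t1 : 0 ≤ fp1 q ((En t * sg x + a t) / w t) *
        (((2 * b t * En t * sg x + a' t) * w t - (En t * sg x + a t) * w' t) / w t ^ 2)
        + 2 * rad (u t) x * (fp1 q ((En t * sg x + a t) / w t) * (En t / w t))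
        - 4 * sg x * (fp2 q ((En t * sg x + a t) / w t) * (En t / w t) * (En t / w t)) := by
      rcases hreg t ht with ⟨hr1, hr2⟩ | ⟨hr1, hr2, hr3, hr4⟩
      · rw [hr1]
        exact ineqA _ _ (k t) (b t) (rad (u t) x) (En t) (sg x) (a t) (a' t) (w t)
          (fp1_pos hq y1) (fp2_np hq hq1.le y1) hw0 hE0 hs hr2 hrd
      · rw [hr1, hr2]
        exact ineqB q (b t) (rad (u t) x) (En t) (sg x) (w t) (w' t) hq hq1.le hw0 hE1 hs
          hr3 (hr4 x hx hs hc1 hc2 hc3)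
    unfold kqT kqS kqSS
    have t1' := mul_nonneg hm₁.le t1
    have t2' := mul_pos hm₂ t2
    nlinarith [t1', t2']

end Pool.Agent.D0H49.AX
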