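import Pool.Agent.D0H49.AX.BarB

/-!
Project IW (helper49): one step of the recursion for the circulation.
-/

set_option autoImplicit false

open MeasureTheory Set Metric Filter Topology
open scoped ContDiff
open H459R3.NS Pool.Agent.W268.NS Pool.Agent.Q67.VD

namespace Pool.Agent.D0H49.AX

open Pool.Agent.Q85.CC Pool.Agent.Q85.CL Pool.Agent.TH305.AX Pool.Agent.Q67.AXI
open Pool.Agent.Q65.AXI (tailI tailI_nonneg tailI_anti tailI_deriv sliceU cyCompact)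

/-- The data near a point of the axis. -/
structure Loc (T E₀ c R H r h T₁ KW C₀ : ℝ) (u : ℝ → V → V) (p : ℝ → V → ℝ) (k b : ℝ → ℝ) :
    Prop where
  sol : AxL T E₀ c R H u p
  hr : 0 < r
  hrR : r < R
  hr1 : r ≤ 1
  hh : 0 < h
  hhH : h < H
  hT₁ : 0 < T₁
  hT₁T : T₁ < T
  hKW : 0 < KW
  hC₀ : 0 < C₀
  hKC : 3 * KW ≤ C₀
  lat : ∀ t ∈ Ico T₁ T, ∀ x ∈ Cy c r h, (sg x = r ^ 2 ∨ |x 2 - c| = h) → |WW (u t) x| ≤ KW
  cb : ∀ t ∈ Ico T₁ T, ∀ x ∈ Cy c r h, |circ (u t) x| ≤ C₀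
  kc : ContinuousOn k (Ioo 0 T)
  ki : IntegrableOn k (Ioo 0 T)
  k0 : ∀ t ∈ Ioo 0 T, 0 ≤ k t
  bc : ContinuousOn b (Ioo 0 T)
  bi : IntegrableOn b (Ioo 0 T)
  b0 : ∀ t ∈ Ioo 0 T, 0 ≤ b t
  bs : tailI b T T₁ ≤ 1 / 4
  infl : ∀ t ∈ Ioo T₁ T, ∀ x ∈ Co c r h, 0 < sg x → KW * sg x < |circ (u t) x| →
    rad (vort (u t)) x = 0 →
    0 < circ (u t) x * vort (u t) x 2 → -(k t + b t * sg x) ≤ rad (u t) x

/-- The factor of the variable `ρ²`. -/
noncomputable def En (b : ℝ → ℝ) (T T₁ t : ℝ) : ℝ := Real.exp (2 * (tailI b T T₁ - tailI b T t))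

/-- The shift. -/
noncomputable def cum (k : ℝ → ℝ) (T t₀ t : ℝ) : ℝ := 4 * (tailI k T t₀ - tailI k T t + (t - t₀))

section

variable {T T₁ : ℝ} {b : ℝ → ℝ}

theorem En_one_le (hbi : IntegrableOn b (Ioo 0 T)) (hT₁ : 0 < T₁) {t : ℝ} (ht : t ∈ Ico T₁ T) :
    1 ≤ En b T T₁ t := by
  unfold En
  rw [Real.one_le_exp_iff]
  have := tailI_anti b T hbi T₁ t hT₁.le ht.1 ht.2.le
  linarith

theorem En_le_two (hbs : tailI b T T₁ ≤ 1 / 4) {t : ℝ} (ht : t ∈ Ico T₁ T) :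
    En b T T₁ t ≤ 2 := by
  unfold En
  have h1 := tailI_nonneg b T t ht.2.le
  have h2 : 2 * (tailI b T T₁ - tailI b T t) ≤ 1 / 2 := by linarith
  have h3 : Real.exp (1 / 2 : ℝ) ≤ 2 := by
    have h4 := Real.exp_one_lt_d9
    have h5 : Real.exp (1 / 2 : ℝ) * Real.exp (1 / 2 : ℝ) = Real.exp 1 := by
      rw [← Real.exp_add]
      norm_num
    have h6 := Real.exp_pos (1 / 2 : ℝ)
    nlinarith
  exact (Real.exp_le_exp.2 h2).trans h3

theorem En_deriv (hbi : IntegrableOn b (Ioo 0 T)) (hbc : ContinuousOn b (Ioo 0 T))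
    (hb0 : ∀ t ∈ Ioo 0 T, 0 ≤ b t) {t : ℝ} (ht : t ∈ Ioo 0 T) :
    HasDerivAt (En b T T₁) (2 * b t * En b T T₁ t) t := by
  have h1 := tailI_deriv b T hbi hbc t ht
  rw [abs_of_nonneg (hb0 t ht)] at h1
  have h2 := ((h1.const_sub (tailI b T T₁)).const_mul 2).exp
  refine h2.congr_deriv ?_
  unfold En
  ring

theorem cum_deriv {k : ℝ → ℝ} (hki : IntegrableOn k (Ioo 0 T)) (hkc : ContinuousOn k (Ioo 0 T))
    (t₀ : ℝ) {t : ℝ} (ht : t ∈ Ioo 0 T) :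
    HasDerivAt (cum k T t₀) (4 * (|k t| + 1)) t := by
  have h1 := tailI_deriv k T hki hkc t ht
  have h2 : HasDerivAt (fun s : ℝ => s - t₀) 1 t := (hasDerivAt_id t).sub_const t₀
  have h3 := ((h1.const_sub (tailI k T t₀)).add h2).const_mul 4
  refine h3.congr_deriv ?_
  ring

theorem cum_nn {k : ℝ → ℝ} (hki : IntegrableOn k (Ioo 0 T)) {t₀ t : ℝ} (h0 : 0 ≤ t₀)
    (ht : t ∈ Ico t₀ T) : 0 ≤ cum k T t₀ t := by
  unfold cum
  have h1 := tailI_anti k T hki t₀ t h0 ht.1 ht.2.le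
  have h2 := ht.1
  linarith

theorem cum_self (k : ℝ → ℝ) (t₀ : ℝ) : cum k T t₀ t₀ = 0 := by
  unfold cum
  ring

theorem cum_le {k : ℝ → ℝ} {K τ t₀ t : ℝ} (hg : tailI k T t₀ ≤ K * τ)
    (ht : t ∈ Ico t₀ T) (hτ : T - t₀ ≤ τ) : cum k T t₀ t ≤ 4 * (K + 1) * τ := by
  unfold cum
  have h1 := tailI_nonneg k T t ht.2.le
  have h2 := ht.2
  nlinarith

end

/-- The lower bound of the barrier at the lateral boundary. -/
theorem lat_low {q β KW m τ y : ℝ} (hq : 0 < q) (hq1 : q < 1) (hβ : 0 < β) (hβ1 : β ≤ 1)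
    (hKW : 0 < KW) (hτ : 0 < τ) (hτ1 : τ ≤ 1) (hm : 4 * KW / fp q 1 * τ ^ β ≤ m) (hy : 0 < y)
    (hyτ : τ * y ≤ 2) : KW * (τ * y) ≤ m * fp q (y / 3) + m * gb β y := by
  have hφ : 0 < fp q 1 := fp_pos one_pos
  have hφ1 : fp q 1 < 1 := fp_lt_one hq zero_le_one
  have hτβ : 0 < τ ^ β := Real.rpow_pos_of_pos hτ _
  have hm0 : 0 < m := lt_of_lt_of_le (by positivity) hm
  have hmφ : 4 * KW * τ ^ β ≤ m * fp q 1 := by
    have := mul_le_mul_of_nonneg_right hm hφ.le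
    have e : 4 * KW / fp q 1 * τ ^ β * fp q 1 = 4 * KW * τ ^ β := by field_simp
    linarith
  have hττ : τ ≤ τ ^ β := Real.self_le_rpow_of_le_one hτ.le hτ1 hβ1
  rcases le_total y 3 with h3 | h3
  · have h1 : y / 3 / 1 * fp q 1 ≤ fp q (y / 3) :=
      fp_low hq hq1.le (by positivity) one_pos (by linarith)
    rw [div_one] at h1
    have h2 : 0 ≤ m * gb β y := mul_nonneg hm0.le (gb_nn hβ.le hy.le)
    have h4 : m * (y / 3 * fp q 1) ≤ m * fp q (y / 3) := mul_le_mul_of_nonneg_left h1 hm0.le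
    have h5 : 4 * KW * τ ^ β * (y / 3) ≤ m * fp q 1 * (y / 3) :=
      mul_le_mul_of_nonneg_right hmφ (by positivity)
    have h6 : 4 * KW * τ * (y / 3) ≤ 4 * KW * τ ^ β * (y / 3) := by
      apply mul_le_mul_of_nonneg_right _ (by positivity)
      exact mul_le_mul_of_nonneg_left hττ (by positivity)
    have h7 : 0 < KW * τ * y := by positivity
    nlinarith
  · have h1 : fp q 1 ≤ fp q (y / 3) := fp_mono hq.le zero_le_one (by linarith)
    obtain ⟨X, hX⟩ : ∃ X : ℝ, X = (1 + y) ^ β := ⟨_, rfl⟩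
    have hX1 : 1 ≤ X := by rw [hX]; exact Real.one_le_rpow (by linarith) hβ.le
    have hXy : y ^ β ≤ X := by rw [hX]; exact Real.rpow_le_rpow hy.le (by linarith) hβ.le
    have hg : gb β y = X - 1 := by unfold gb; rw [hX]
    have h2 : m * (fp q 1 * X) ≤ m * fp q (y / 3) + m * gb β y := by
      rw [hg, ← mul_add]
      apply mul_le_mul_of_nonneg_left _ hm0.le
      nlinarith
    have h4 : 4 * KW * (τ * y) ^ β ≤ m * (fp q 1 * X) := by
      rw [Real.mul_rpow hτ.le hy.le]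
      have h5 : 4 * KW * τ ^ β * y ^ β ≤ m * fp q 1 * X :=
        mul_le_mul hmφ hXy (Real.rpow_nonneg hy.le _) (by positivity)
      linarith
    obtain ⟨z, hz⟩ : ∃ z : ℝ, z = τ * y := ⟨_, rfl⟩
    rw [← hz] at h4 hyτ ⊢
    have hz0 : 0 < z := by rw [hz]; positivity
    have h5 : z / 2 ≤ z ^ β := by
      rcases le_total z 1 with h6 | h6
      · have := Real.self_le_rpow_of_le_one hz0.le h6 hβ1
        linarith
      · have := Real.one_le_rpow h6 hβ.le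
        linarith
    have h6 : 4 * KW * (z / 2) ≤ 4 * KW * z ^ β := mul_le_mul_of_nonneg_left h5 (by positivity)
    have h7 : 0 < KW * z := by positivity
    linarith

/-- The initial domination. -/
theorem ini_dom {q β m δ W₀ τ Y w₀ s σ G : ℝ} (hq : 0 < q) (hq1 : q < 1) (hm : 0 < m)
    (hδ : 0 < δ) (hβ : 0 < β) (hτ : 0 < τ) (hW₀ : 0 < W₀) (hY : 0 < Y) (hYδ : 1 / (1 + δ) < fp q Y)
    (hw₀ : 0 < w₀) (hw₁ : w₀ ≤ m / (W₀ * Y)) (hs : 0 < s) (hsσ : s ≤ σ) (hG1 : G ≤ W₀ * s)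
    (hG2 : G ≤ m * (1 + σ / τ) ^ β) :
    G ≤ m * (1 + δ) * fp q (σ / w₀) + m * gb β (σ / τ) := by
  have hσ : 0 < σ := hs.trans_le hsσ
  have hYδ' : 1 < (1 + δ) * fp q Y := by
    rw [div_lt_iff₀ (by positivity)] at hYδ
    linarith
  rcases le_total (w₀ * Y) σ with h1 | h1
  · have h2 : Y ≤ σ / w₀ := by
      rw [le_div_iff₀ hw₀]
      linarith
    have h3 := fp_mono (q := q) hq.le hY.le h2
    have h4 : 1 ≤ (1 + δ) * fp q (σ / w₀) := by nlinarith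
    have h5 : m ≤ m * (1 + δ) * fp q (σ / w₀) := by nlinarith
    unfold gb
    linarith
  · have h2 : σ / w₀ / Y * fp q Y ≤ fp q (σ / w₀) :=
      fp_low hq hq1.le (by positivity) hY (by rw [div_le_iff₀ hw₀]; linarith)
    have h3 : 0 ≤ m * gb β (σ / τ) := mul_nonneg hm.le (gb_nn hβ.le (by positivity))
    have h4 : σ / w₀ / Y * 1 ≤ σ / w₀ / Y * ((1 + δ) * fp q Y) :=
      mul_le_mul_of_nonneg_left hYδ'.le (by positivity)
    have h5 : m * (1 + δ) * (σ / w₀ / Y * fp q Y) ≤ m * (1 + δ) * fp q (σ / w₀) :=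
      mul_le_mul_of_nonneg_left h2 (by positivity)
    have h6 : W₀ * σ ≤ m * (σ / w₀ / Y) := by
      rw [le_div_iff₀ (by positivity)] at hw₁
      rw [div_div, ← mul_div_assoc, le_div_iff₀ (by positivity)]
      nlinarith
    have h7 : W₀ * s ≤ W₀ * σ := mul_le_mul_of_nonneg_left hsσ hW₀.le
    nlinarith

/-- Good scales. -/
def Good (T K l q d c r h M : ℝ) (u : ℝ → V → V) (k b : ℝ → ℝ) (τ : ℝ) : Prop :=
  tailI k T (T - τ) ≤ K * τ ∧ ∀ t ∈ Ioo (T - τ) (T - (1 - d) * τ), ∀ x ∈ Co c r h, 0 < sg x →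
    M * sg x < |circ (u t) x| → rad (vort (u t)) x = 0 → 0 < circ (u t) x * vort (u t) x 2 →
    -((2 - 2 * q) + (l / τ + b t) * sg x) ≤ rad (u t) x

section

variable {T E₀ c R H r h T₁ KW C₀ : ℝ} {u : ℝ → V → V} {p : ℝ → V → ℝ} {k b : ℝ → ℝ}

theorem Loc.circW (hAlg : StmAlg) (L : Loc T E₀ c R H r h T₁ KW C₀ u p k b) {t : ℝ}
    (ht : t ∈ Ioo 0 T) (x : V) : circ (u t) x = sg x * WW (u t) x :=
  ((hAlg (u t) (sliceU L.sol.smooth_u ht) (L.sol.axi t ht)).2.2.2 x).2.2.2.2.2.2.2.2.1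

theorem Loc.mem (L : Loc T E₀ c R H r h T₁ KW C₀ u p k b) {t : ℝ} (ht : t ∈ Ico T₁ T) :
    t ∈ Ioo 0 T := ⟨L.hT₁.trans_le ht.1, ht.2⟩

theorem Loc.latc (hAlg : StmAlg) (L : Loc T E₀ c R H r h T₁ KW C₀ u p k b) {t : ℝ}
    (ht : t ∈ Ico T₁ T) {x : V} (hx : x ∈ Cy c r h) (hs : 0 < sg x)
    (hb : sg x = r ^ 2 ∨ |x 2 - c| = h) : |circ (u t) x| ≤ KW * sg x := by
  rw [L.circW hAlg (L.mem ht) x, abs_mul, abs_of_pos hs, mul_comm]
  exact mul_le_mul_of_nonneg_right (L.lat t ht x hx hb) hs.le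

theorem Loc.inic (hAlg : StmAlg) (L : Loc T E₀ c R H r h T₁ KW C₀ u p k b) {t : ℝ}
    (ht : t ∈ Ico T₁ T) : ∃ W₀ : ℝ, 0 < W₀ ∧ ∀ x ∈ Cy c r h, 0 < sg x →
      |circ (u t) x| ≤ W₀ * sg x := by
  have hsm1 := sliceU L.sol.smooth_u (L.mem ht)
  have hWc : Continuous (WW (u t)) :=
    ((hAlg (u t) hsm1 (L.sol.axi t (L.mem ht))).1.2.1).continuous
  obtain ⟨K₁, hK₁⟩ := (cyCompact c r h).exists_bound_of_continuousOn (f := WW (u t)) hWc.continuousOn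
  refine ⟨|K₁| + 1, by positivity, fun x hx hs => ?_⟩
  rw [L.circW hAlg (L.mem ht) x, abs_mul, abs_of_pos hs, mul_comm]
  apply mul_le_mul_of_nonneg_right _ hs.le
  have h1 := hK₁ x hx
  rw [Real.norm_eq_abs] at h1
  have := le_abs_self K₁
  linarith

theorem Loc.sg_le (L : Loc T E₀ c R H r h T₁ KW C₀ u p k b) {x : V} (hx : x ∈ Cy c r h) :
    sg x ≤ 1 := by
  have h1 : sg x ≤ r ^ 2 := hx.1
  have h2 : r ^ 2 ≤ 1 := pow_le_one₀ L.hr.le L.hr1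
  linarith

/-- One step of the recursion. -/
theorem step (hAlg : StmAlg) (hBar : StmBar) (L : Loc T E₀ c R H r h T₁ KW C₀ u p k b)
    {K l q d β δ Θ : ℝ} (hK : 0 ≤ K) (hl : 0 ≤ l) (hq : 0 < q) (hq1 : q < 1) (hd : 0 < d)
    (hd2 : d ≤ 1 / 2) (hβ : 0 < β) (hβ1 : β ≤ 1) (hδ : 0 < δ)
    (hΘ : ∀ y : ℝ, 0 ≤ y → (1 + δ) * fp q ((y + 4 * (K + 1)) / (2 * q * (d / (4 * (l + 1)))))
      + gb β (y + 4 * (K + 1)) ≤ Θ * (1 + 2 * y) ^ β)
    {τ m : ℝ} (hτ : 0 < τ) (hτ1 : τ ≤ 1) (hτT : T₁ ≤ T - τ)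
    (hgood : Good T K l q d c r h KW u k b τ)
    (hm : 4 * KW / fp q 1 * τ ^ β ≤ m)
    (hH : ∀ x ∈ Cy c r h, 0 < sg x →
      |circ (u (T - τ)) x| ≤ m * (1 + En b T T₁ (T - τ) * sg x / τ) ^ β) :
    ∀ t ∈ Ico (T - τ / 2) T, ∀ x ∈ Cy c r h, 0 < sg x →
      |circ (u t) x| ≤ Θ * m * (1 + 2 * (En b T T₁ t * sg x / τ)) ^ β := by
  have hφ : 0 < fp q 1 := fp_pos one_pos
  have hKW := L.hKW
  have hτβ : 0 < τ ^ β := Real.rpow_pos_of_pos hτ _
  have hm0 : 0 < m := lt_of_lt_of_le (by positivity) hm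
  have hT₁ := L.hT₁
  -- times
  obtain ⟨t0, ht0⟩ : ∃ t0 : ℝ, t0 = T - τ := ⟨_, rfl⟩
  obtain ⟨t1, ht1⟩ : ∃ t1 : ℝ, t1 = T - (1 - d) * τ := ⟨_, rfl⟩
  obtain ⟨tm, htm⟩ : ∃ tm : ℝ, tm = T - (1 - d / 2) * τ := ⟨_, rfl⟩
  have hdτ : 0 < d * τ := by positivity
  have h01 : t0 < t1 := by rw [ht0, ht1]; nlinarith
  have h0m : t0 < tm := by rw [ht0, htm]; nlinarith
  have hm1 : tm < t1 := by rw [ht1, htm]; nlinarith
  have h1T : t1 < T := by rw [ht1]; nlinarith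
  have hmT : tm < T := hm1.trans h1T
  have h0T : t0 < T := h0m.trans hmT
  have hm2 : tm ≤ T - τ / 2 := by rw [htm]; nlinarith
  rw [← ht0] at hτT hH
  have ht0p : 0 < t0 := hT₁.trans_le hτT
  have hI0 : ∀ t ∈ Ico t0 T, t ∈ Ico T₁ T := fun t ht => ⟨hτT.trans ht.1, ht.2⟩
  have hIo : ∀ t ∈ Ico t0 T, t ∈ Ioo 0 T := fun t ht => L.mem (hI0 t ht)
  have hg1 : tailI k T t0 ≤ K * τ := by rw [ht0]; exact hgood.1
  have hg2 := hgood.2
  rw [← ht0, ← ht1] at hg2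
  obtain ⟨sl, hsl⟩ : ∃ sl : ℝ, sl = q / (l + 1) := ⟨_, rfl⟩
  have hsl0 : 0 < sl := by rw [hsl]; positivity
  have hslq : sl ≤ q := by
    rw [hsl, div_le_iff₀ (by positivity)]
    nlinarith
  -- data
  obtain ⟨W₀, hW₀, hini⟩ := L.inic hAlg (hI0 t0 ⟨le_rfl, h0T⟩)
  obtain ⟨Y, hY, hYδ⟩ := fp_large (q := q) (ε := 1 / (1 + δ)) (by
    rw [div_lt_one (by positivity)]; linarith)
  obtain ⟨w₀, hw₀⟩ : ∃ w₀ : ℝ, w₀ = min (sl * τ / 2) (m / (W₀ * Y)) := ⟨_, rfl⟩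
  have hw0 : 0 < w₀ := by rw [hw₀]; exact lt_min (by positivity) (by positivity)
  have hw1 : w₀ ≤ sl * τ / 2 := by rw [hw₀]; exact min_le_left _ _
  have hw2 : w₀ ≤ m / (W₀ * Y) := by rw [hw₀]; exact min_le_right _ _
  have hE1 : ∀ t ∈ Ico t0 T, 1 ≤ En b T T₁ t := fun t ht => En_one_le L.bi hT₁ (hI0 t ht)
  have hE2 : ∀ t ∈ Ico t0 T, En b T T₁ t ≤ 2 := fun t ht => En_le_two L.bs (hI0 t ht)
  have hEd : ∀ t ∈ Ico t0 T, HasDerivAt (En b T T₁) (2 * b t * En b T T₁ t) t := fun t ht =>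
    En_deriv L.bi L.bc L.b0 (hIo t ht)
  have hcd : ∀ s₀ : ℝ, ∀ t ∈ Ico t0 T, HasDerivAt (cum k T s₀) (4 * (|k t| + 1)) t :=
    fun s₀ t ht => cum_deriv L.ki L.kc s₀ (hIo t ht)
  have hkE : ∀ t ∈ Ico t0 T, 2 * k t * En b T T₁ t < 4 * (|k t| + 1) := by
    intro t ht
    have h1 := L.k0 t (hIo t ht)
    rw [abs_of_nonneg h1]
    have h2 := hE2 t ht
    nlinarith
  have hrad : ∀ t ∈ Ioo t0 T, ∀ x ∈ Co c r h, 0 < sg x → KW * sg x < |circ (u t) x| →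
      rad (vort (u t)) x = 0 →
      0 < circ (u t) x * vort (u t) x 2 → -(k t + b t * sg x) ≤ rad (u t) x :=
    fun t ht => L.infl t ⟨hτT.trans_lt ht.1, ht.2⟩
  have hr21 : r ^ 2 ≤ 1 := pow_le_one₀ L.hr.le L.hr1
  have hlow0 : ∀ t ∈ Ico t0 T, ∀ s : ℝ, 0 < s → s ≤ 1 →
      ∀ A w C : ℝ, 0 ≤ A → 0 < w → w ≤ 3 * τ → 0 ≤ C →
      KW * s ≤ m * (1 + δ) * fp q ((En b T T₁ t * s + A) / w)
        + m * gb β ((En b T T₁ t * s + C) / τ) := by
    intro t ht s hs h2 A w C hA hw hw3 hC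
    have e1 := hE1 t ht
    have e2 := hE2 t ht
    obtain ⟨y, hy⟩ : ∃ y : ℝ, y = En b T T₁ t * s / τ := ⟨_, rfl⟩
    have hEs : 0 < En b T T₁ t * s := mul_pos (by linarith) hs
    have hy0 : 0 < y := by rw [hy]; positivity
    have hyτ : τ * y = En b T T₁ t * s := by rw [hy]; field_simp
    have h3 : τ * y ≤ 2 := by
      rw [hyτ]
      nlinarith
    have h4 := lat_low hq hq1 hβ hβ1 hKW hτ hτ1 hm hy0 h3
    have h5 : fp q (y / 3) ≤ fp q ((En b T T₁ t * s + A) / w) := by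
      apply fp_mono hq.le (by positivity)
      rw [← hyτ, le_div_iff₀ hw]
      have : y / 3 * w ≤ y / 3 * (3 * τ) := mul_le_mul_of_nonneg_left hw3 (by positivity)
      linarith
    have h6 : gb β y ≤ gb β ((En b T T₁ t * s + C) / τ) := by
      apply gb_mono hβ.le hy0.le
      rw [hy]
      apply div_le_div_of_nonneg_right _ hτ.le
      linarith
    have h7 : 0 ≤ fp q ((En b T T₁ t * s + A) / w) := fp_nn (by positivity)
    have h8 : m * fp q (y / 3) ≤ m * (1 + δ) * fp q ((En b T T₁ t * s + A) / w) := by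
      have := mul_le_mul_of_nonneg_left h5 hm0.le
      have h9 : 0 ≤ m * δ * fp q ((En b T T₁ t * s + A) / w) := by positivity
      linarith
    have h9 := mul_le_mul_of_nonneg_left h6 hm0.le
    have h10 : KW * s ≤ KW * (τ * y) := by
      rw [hyτ]
      apply mul_le_mul_of_nonneg_left _ hKW.le
      nlinarith
    linarith
  have hlow : ∀ t ∈ Ico t0 T, ∀ x ∈ Cy c r h, 0 < sg x → (sg x = r ^ 2 ∨ |x 2 - c| = h) →
      ∀ A w C : ℝ, 0 ≤ A → 0 < w → w ≤ 3 * τ → 0 ≤ C →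
      |circ (u t) x| ≤ m * (1 + δ) * fp q ((En b T T₁ t * sg x + A) / w)
        + m * gb β ((En b T T₁ t * sg x + C) / τ) :=
    fun t ht x hx hs hb A w C hA hw hw3 hC =>
      (L.latc hAlg (hI0 t ht) hx hs hb).trans (hlow0 t ht (sg x) hs (L.sg_le hx) A w C hA hw hw3 hC)
  have hwle : ∀ t ∈ Ico t0 t1, 0 < w₀ + sl * (t - t0) ∧ w₀ + sl * (t - t0) ≤ sl * τ := by
    intro t ht
    have h0 : 0 ≤ sl * (t - t0) := mul_nonneg (by positivity) (by linarith [ht.1])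
    have h1 : t - t0 ≤ d * τ := by
      have := ht.2
      rw [ht1] at this
      rw [ht0]
      linarith
    have h2 : sl * (t - t0) ≤ sl * (d * τ) := mul_le_mul_of_nonneg_left h1 (by positivity)
    have h3 : sl * (d * τ) ≤ sl * (1 / 2 * τ) := by gcongr
    exact ⟨by linarith, by linarith⟩
  have hslτ : sl * τ ≤ 3 * τ := by nlinarith
  -- the first stage
  have S1 := stage hAlg hBar T E₀ c R H r h t0 t1 u p L.sol L.hr L.hrR L.hh L.hhH ht0p h01 h1T.le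
    (m * (1 + δ)) m q β τ (3 * τ) KW k b (En b T T₁) (fun _ => 0) (fun _ => 0)
    (fun t => w₀ + sl * (t - t0)) (fun _ => sl) (cum k T t0) (fun t => 4 * (|k t| + 1))
    hq hq1 hβ hβ1 (by positivity) hm0 hτ (fun t ht => hE1 t ⟨ht.1, ht.2.trans h1T⟩)
    (fun t ht => le_rfl) (fun t ht => cum_nn L.ki ht0p.le ⟨ht.1, ht.2.trans h1T⟩)
    (fun t ht => (hwle t ht).1) (fun t ht => (hwle t ht).2.trans hslτ)
    (fun t ht => (hEd t ⟨ht.1, ht.2.trans h1T⟩).continuousAt.continuousWithinAt)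
    continuousOn_const (by fun_prop)
    (fun t ht => (hcd t0 t ⟨ht.1, ht.2.trans h1T⟩).continuousAt.continuousWithinAt)
    (fun t ht => hEd t ⟨ht.1.le, ht.2.trans h1T⟩)
    (fun t ht => hasDerivAt_const _ _)
    (by
      intro t ht
      have h1 : HasDerivAt (fun s : ℝ => s - t0) 1 t := (hasDerivAt_id t).sub_const t0
      have h2 := (h1.const_mul sl).const_add w₀
      refine h2.congr_deriv ?_
      ring)
    (fun t ht => hcd t0 t ⟨ht.1.le, ht.2.trans h1T⟩)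
    (fun t ht => hkE t ⟨ht.1.le, ht.2.trans h1T⟩)
    (fun t ht => Or.inr ⟨rfl, rfl, by linarith, fun x hx hs i1 i2 i3 => by
      have h1 := hg2 t ht x hx hs i1 i2 i3
      obtain ⟨hwp, hwl⟩ := hwle t ⟨ht.1.le, ht.2⟩
      have h2 : l / τ ≤ q / (w₀ + sl * (t - t0)) := by
        rw [div_le_div_iff₀ hτ hwp]
        have h3 : l * (w₀ + sl * (t - t0)) ≤ l * (sl * τ) := mul_le_mul_of_nonneg_left hwl hl
        have h4 : l * sl ≤ q := by
          rw [hsl, ← mul_div_assoc, div_le_iff₀ (by positivity)]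
          nlinarith
        nlinarith
      have h3 := mul_le_mul_of_nonneg_right h2 hs.le
      show -((2 - 2 * q) + (q / (w₀ + sl * (t - t0)) + b t) * sg x) ≤ rad (u t) x
      linarith⟩)
    (by
      intro t ht s hs
      have ht' : t ∈ Ico t0 T := ⟨ht.1.le, ht.2.trans h1T⟩
      exact hlow0 t ht' s hs.1 (hs.2.le.trans hr21) 0 (w₀ + sl * (t - t0)) (cum k T t0 t) le_rfl
        (hwle t ⟨ht.1.le, ht.2⟩).1 ((hwle t ⟨ht.1.le, ht.2⟩).2.trans hslτ)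
        (cum_nn L.ki ht0p.le ht'))
    (fun t ht => hrad t ⟨ht.1, ht.2.trans h1T⟩)
    (by
      intro t ht x hx hs hb
      have ht' : t ∈ Ico t0 T := ⟨ht.1, ht.2.trans h1T⟩
      exact hlow t ht' x hx hs hb 0 (w₀ + sl * (t - t0)) (cum k T t0 t) le_rfl
        (hwle t ht).1 ((hwle t ht).2.trans hslτ) (cum_nn L.ki ht0p.le ht'))
    (by
      intro x hx hs
      have e1 := hE1 t0 ⟨le_rfl, h0T⟩
      have h1 := ini_dom (G := |circ (u t0) x|) hq hq1 hm0 hδ hβ hτ hW₀ hY hYδ hw0 hw2 hs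
        (show sg x ≤ En b T T₁ t0 * sg x by nlinarith) (hini x hx hs) (hH x hx hs)
      unfold kq
      simp only [cum_self, sub_self, mul_zero, add_zero]
      exact h1)
  -- the second stage
  have hmI : tm ∈ Ico t0 t1 := ⟨h0m.le, hm1⟩
  have htmp : 0 < tm := ht0p.trans h0m
  obtain ⟨w₁, hw₁⟩ : ∃ w₁ : ℝ, w₁ = w₀ + sl * (tm - t0) := ⟨_, rfl⟩
  have hw1a : 2 * q * (d / (4 * (l + 1))) * τ ≤ w₁ := by
    have e1 : 2 * q * (d / (4 * (l + 1))) * τ = sl * (d / 2 * τ) := by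
      rw [hsl]
      field_simp
      ring
    have e2 : tm - t0 = d / 2 * τ := by rw [htm, ht0]; ring
    rw [hw₁, e1, e2]
    linarith
  have hw1p : 0 < w₁ := lt_of_lt_of_le (by positivity) hw1a
  have hw1b : w₁ ≤ 3 * τ := by
    rw [hw₁]
    exact (hwle tm hmI).2.trans hslτ
  have hgm : tailI k T tm ≤ K * τ :=
    (tailI_anti k T L.ki t0 tm ht0p.le h0m.le hmT.le).trans hg1
  have S2 := stage hAlg hBar T E₀ c R H r h tm T u p L.sol L.hr L.hrR L.hh L.hhH htmp hmT le_rfl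
    (m * (1 + δ)) m q β τ w₁ KW k b (En b T T₁) (cum k T tm) (fun t => 4 * (|k t| + 1))
    (fun _ => w₁) (fun _ => 0) (cum k T t0) (fun t => 4 * (|k t| + 1))
    hq hq1 hβ hβ1 (by positivity) hm0 hτ (fun t ht => hE1 t ⟨h0m.le.trans ht.1, ht.2⟩)
    (fun t ht => cum_nn L.ki htmp.le ht)
    (fun t ht => cum_nn L.ki ht0p.le ⟨h0m.le.trans ht.1, ht.2⟩)
    (fun t ht => hw1p) (fun t ht => le_rfl)
    (fun t ht => (hEd t ⟨h0m.le.trans ht.1, ht.2⟩).continuousAt.continuousWithinAt)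
    (fun t ht => (hcd tm t ⟨h0m.le.trans ht.1, ht.2⟩).continuousAt.continuousWithinAt)
    continuousOn_const
    (fun t ht => (hcd t0 t ⟨h0m.le.trans ht.1, ht.2⟩).continuousAt.continuousWithinAt)
    (fun t ht => hEd t ⟨(h0m.trans ht.1).le, ht.2⟩)
    (fun t ht => hcd tm t ⟨(h0m.trans ht.1).le, ht.2⟩)
    (fun t ht => hasDerivAt_const _ _)
    (fun t ht => hcd t0 t ⟨(h0m.trans ht.1).le, ht.2⟩)
    (fun t ht => hkE t ⟨(h0m.trans ht.1).le, ht.2⟩)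
    (fun t ht => Or.inl ⟨rfl, (hkE t ⟨(h0m.trans ht.1).le, ht.2⟩).le⟩)
    (by
      intro t ht s hs
      have ht' : t ∈ Ico t0 T := ⟨(h0m.trans ht.1).le, ht.2⟩
      exact hlow0 t ht' s hs.1 (hs.2.le.trans hr21) (cum k T tm t) w₁ (cum k T t0 t)
        (cum_nn L.ki htmp.le ⟨ht.1.le, ht.2⟩) hw1p hw1b (cum_nn L.ki ht0p.le ht'))
    (fun t ht => hrad t ⟨h0m.trans ht.1, ht.2⟩)
    (by
      intro t ht x hx hs hb
      have ht' : t ∈ Ico t0 T := ⟨h0m.le.trans ht.1, ht.2⟩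
      exact hlow t ht' x hx hs hb (cum k T tm t) w₁ (cum k T t0 t) (cum_nn L.ki htmp.le ht) hw1p
        hw1b (cum_nn L.ki ht0p.le ht'))
    (by
      intro x hx hs
      have h1 := S1 tm hmI x hx hs
      unfold kq at h1 ⊢
      simp only [cum_self]
      rw [hw₁]
      exact h1)
  -- the conclusion
  intro t ht x hx hs
  have htI : t ∈ Ico tm T := ⟨hm2.trans ht.1, ht.2⟩
  have ht' : t ∈ Ico t0 T := ⟨h0m.le.trans htI.1, ht.2⟩
  refine (S2 t htI x hx hs).trans ?_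
  have e1 := hE1 t ht'
  have hEs : 0 < En b T T₁ t * sg x := mul_pos (by linarith) hs
  obtain ⟨y, hy⟩ : ∃ y : ℝ, y = En b T T₁ t * sg x / τ := ⟨_, rfl⟩
  have hy0 : 0 < y := by rw [hy]; positivity
  have hyτ : τ * y = En b T T₁ t * sg x := by rw [hy]; field_simp
  have h1 := hΘ y hy0.le
  rw [← hy]
  have hT0 : T - t0 = τ := by rw [ht0]; ring
  have a1 : cum k T tm t ≤ 4 * (K + 1) * τ := cum_le hgm htI (by linarith)
  have a2 : cum k T t0 t ≤ 4 * (K + 1) * τ := cum_le hg1 ht' (by linarith)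
  have a3 : 0 ≤ cum k T tm t := cum_nn L.ki htmp.le htI
  have a4 : 0 ≤ cum k T t0 t := cum_nn L.ki ht0p.le ht'
  have h2 : fp q ((En b T T₁ t * sg x + cum k T tm t) / w₁)
      ≤ fp q ((y + 4 * (K + 1)) / (2 * q * (d / (4 * (l + 1))))) := by
    apply fp_mono hq.le (by positivity)
    have h3 : (En b T T₁ t * sg x + cum k T tm t) / w₁ ≤
        (En b T T₁ t * sg x + 4 * (K + 1) * τ) / (2 * q * (d / (4 * (l + 1))) * τ) := by
      apply div_le_div₀ (by positivity) (by linarith) (by positivity) hw1a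
    have h4 : (En b T T₁ t * sg x + 4 * (K + 1) * τ) / (2 * q * (d / (4 * (l + 1))) * τ)
        = (y + 4 * (K + 1)) / (2 * q * (d / (4 * (l + 1)))) := by
      rw [← hyτ]
      field_simp
    rw [← h4]
    exact h3
  have h5 : gb β ((En b T T₁ t * sg x + cum k T t0 t) / τ) ≤ gb β (y + 4 * (K + 1)) := by
    apply gb_mono hβ.le (by positivity)
    rw [div_le_iff₀ hτ]
    nlinarith
  unfold kq
  have h6 : m * (1 + δ) * fp q ((En b T T₁ t * sg x + cum k T tm t) / w₁)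
      ≤ m * (1 + δ) * fp q ((y + 4 * (K + 1)) / (2 * q * (d / (4 * (l + 1))))) :=
    mul_le_mul_of_nonneg_left h2 (by positivity)
  have h7 := mul_le_mul_of_nonneg_left h5 hm0.le
  have h8 := mul_le_mul_of_nonneg_left h1 hm0.le
  nlinarith

end

end Pool.Agent.D0H49.AX
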