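import Pool.Agent.D0H49.AX.BarC

/-!
Project IW (helper49): the bounds of the circulation.
-/

set_option autoImplicit false

open MeasureTheory Set Metric Filter Topology
open scoped ContDiff
open H459R3.NS Pool.Agent.W268.NS Pool.Agent.Q67.VD

namespace Pool.Agent.D0H49.AX

open Pool.Agent.Q85.CC Pool.Agent.Q85.CL Pool.Agent.TH305.AX Pool.Agent.Q67.AXI
open Pool.Agent.Q65.AXI (tailI tailI_nonneg tailI_anti tailI_deriv sliceU cyCompact)

/-- The number of `j < n` with `P j`. -/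
noncomputable def cnt (P : ℕ → Prop) (n : ℕ) : ℕ := {j : ℕ | j < n ∧ P j}.ncard

theorem cnt_succ_of {P : ℕ → Prop} {n : ℕ} (h : P n) : cnt P (n + 1) = cnt P n + 1 := by
  unfold cnt
  have hf : {j : ℕ | j < n ∧ P j}.Finite := (finite_lt_nat n).subset (fun j hj => hj.1)
  have e : {j : ℕ | j < n + 1 ∧ P j} = insert n {j : ℕ | j < n ∧ P j} := by
    ext j
    simp only [mem_ofPred_eq, mem_insert_iff]
    constructor
    · rintro ⟨h1, h2⟩
      rcases Nat.lt_succ_iff_lt_or_eq.1 h1 with h3 | h3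
      · exact Or.inr ⟨h3, h2⟩
      · exact Or.inl h3
    · rintro (rfl | ⟨h1, h2⟩)
      · exact ⟨Nat.lt_succ_self _, h⟩
      · exact ⟨h1.trans (Nat.lt_succ_self _), h2⟩
  rw [e, ncard_insert_of_notMem (fun hc => lt_irrefl _ hc.1) hf]

theorem cnt_succ_not {P : ℕ → Prop} {n : ℕ} (h : ¬P n) : cnt P (n + 1) = cnt P n := by
  unfold cnt
  congr 1
  ext j
  simp only [mem_ofPred_eq]
  constructor
  · rintro ⟨h1, h2⟩
    rcases Nat.lt_succ_iff_lt_or_eq.1 h1 with h3 | h3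
    · exact ⟨h3, h2⟩
    · rw [h3] at h2
      exact absurd h2 h
  · rintro ⟨h1, h2⟩
    exact ⟨h1.trans (Nat.lt_succ_self _), h2⟩

/-- The recursion over the scales. -/
theorem recur (hAlg : StmAlg) (hBar : StmBar) {K l q d : ℝ} (hK : 0 ≤ K) (hl : 0 ≤ l)
    (hq : 0 < q) (hq1 : q < 1)
    (hd : 0 < d) (hd2 : d ≤ 1 / 2) : ∃ β Θ : ℝ, 0 < β ∧ β ≤ 1 ∧ 0 < Θ ∧ Θ < 1 ∧
    ∀ {T E₀ c R H r h T₁ KW C₀ : ℝ} {u : ℝ → V → V} {p : ℝ → V → ℝ} {k b : ℝ → ℝ},
    Loc T E₀ c R H r h T₁ KW C₀ u p k b → ∀ (δ₀ : ℝ) (N₀ : ℕ) (P : ℕ → Prop), 0 < δ₀ →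
      δ₀ / 2 ^ N₀ ≤ 1 → T₁ ≤ T - δ₀ / 2 ^ N₀ →
      (∀ j, N₀ ≤ j → P j → Good T K l q d c r h KW u k b (δ₀ / 2 ^ j)) →
      ∃ m₀ : ℝ, 0 < m₀ ∧ ∀ N : ℕ, N₀ ≤ N →
        ∀ t ∈ Ico (T - δ₀ / 2 ^ N) T, ∀ x ∈ Cy c r h, 0 < sg x →
          |circ (u t) x| ≤ m₀ * Θ ^ cnt P N
            * (1 + En b T T₁ t * sg x / (δ₀ / 2 ^ N)) ^ β := by
  obtain ⟨β, δ, Θ, hβ, hβ1, hδ, hΘ0, hΘ1, hΘ2, hΘ⟩ :=
    consts (4 * (K + 1)) q (d / (4 * (l + 1))) (by positivity) hq (by positivity)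
  refine ⟨β, Θ, hβ, hβ1, hΘ0, hΘ1, ?_⟩
  intro T E₀ c R H r h T₁ KW C₀ u p k b L δ₀ N₀ P hδ₀ hτ hT hP
  have hφ : 0 < fp q 1 := fp_pos one_pos
  have hKW := L.hKW
  have hC₀ := L.hC₀
  obtain ⟨M, hM⟩ : ∃ M : ℝ, M = C₀ + 4 * KW / fp q 1 * (δ₀ / 2 ^ N₀) ^ β := ⟨_, rfl⟩
  have hM0 : 0 < M := by rw [hM]; positivity
  have hX : 0 < Θ ^ cnt P N₀ := by positivity
  refine ⟨M / Θ ^ cnt P N₀, by positivity, ?_⟩
  have main : ∀ N : ℕ, N₀ ≤ N →
      4 * KW / fp q 1 * (δ₀ / 2 ^ N) ^ β ≤ M / Θ ^ cnt P N₀ * Θ ^ cnt P N ∧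
      ∀ t ∈ Ico (T - δ₀ / 2 ^ N) T, ∀ x ∈ Cy c r h, 0 < sg x →
          |circ (u t) x| ≤ M / Θ ^ cnt P N₀ * Θ ^ cnt P N
            * (1 + En b T T₁ t * sg x / (δ₀ / 2 ^ N)) ^ β := by
    intro N hN
    induction N, hN using Nat.le_induction with
    | base =>
      rw [div_mul_cancel₀ _ hX.ne']
      refine ⟨by rw [hM]; linarith, fun t ht x hx hs => ?_⟩
      have ht' : t ∈ Ico T₁ T := ⟨hT.trans ht.1, ht.2⟩
      have h1 := L.cb t ht' x hx
      have h2 := En_one_le L.bi L.hT₁ ht'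
      have h3 : 1 ≤ (1 + En b T T₁ t * sg x / (δ₀ / 2 ^ N₀)) ^ β := by
        apply Real.one_le_rpow _ hβ.le
        have : 0 ≤ En b T T₁ t * sg x / (δ₀ / 2 ^ N₀) := by positivity
        linarith
      have h4 : C₀ ≤ M := by
        rw [hM]
        have : 0 ≤ 4 * KW / fp q 1 * (δ₀ / 2 ^ N₀) ^ β := by positivity
        linarith
      nlinarith
    | succ N hN ih =>
      obtain ⟨ih1, ih2⟩ := ih
      obtain ⟨τ, hτN⟩ : ∃ τ : ℝ, τ = δ₀ / 2 ^ N := ⟨_, rfl⟩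
      have hτ0 : 0 < τ := by rw [hτN]; positivity
      have e1 : δ₀ / 2 ^ (N + 1) = τ / 2 := by rw [hτN, pow_succ]; field_simp
      have hle : δ₀ / 2 ^ N ≤ δ₀ / 2 ^ N₀ := by
        apply div_le_div_of_nonneg_left hδ₀.le (by positivity)
        exact pow_le_pow_right₀ one_le_two hN
      have hτ1 : τ ≤ 1 := by rw [hτN]; exact hle.trans hτ
      have hτT : T₁ ≤ T - τ := by rw [hτN]; linarith
      rw [← hτN] at ih1 ih2
      rw [e1]
      obtain ⟨m, hm⟩ : ∃ m : ℝ, m = M / Θ ^ cnt P N₀ * Θ ^ cnt P N := ⟨_, rfl⟩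
      rw [← hm] at ih1 ih2
      have hm0 : 0 < m := by rw [hm]; positivity
      have h5 : 4 * KW / fp q 1 * (τ / 2) ^ β ≤ Θ * m := by
        have h6 : 4 * KW / fp q 1 * (τ / 2) ^ β = 2 ^ (-β) * (4 * KW / fp q 1 * τ ^ β) := by
          rw [Real.div_rpow hτ0.le (by norm_num), Real.rpow_neg (by norm_num)]
          field_simp
        rw [h6]
        exact mul_le_mul hΘ2 ih1 (by positivity) hΘ0.le
      by_cases hg : P N
      · have e2 : M / Θ ^ cnt P N₀ * Θ ^ cnt P (N + 1) = Θ * m := by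
          rw [cnt_succ_of hg, hm, pow_succ]
          ring
        rw [e2]
        refine ⟨h5, ?_⟩
        have hg' : Good T K l q d c r h KW u k b τ := by
          rw [hτN]
          exact hP N hN hg
        intro t ht x hx hs
        have h7 := step hAlg hBar L hK hl hq hq1 hd hd2 hβ hβ1 hδ hΘ hτ0 hτ1 hτT hg' ih1
          (fun x hx hs => ih2 (T - τ) ⟨le_rfl, by linarith⟩ x hx hs) t ht x hx hs
        have e3 : 2 * (En b T T₁ t * sg x / τ) = En b T T₁ t * sg x / (τ / 2) := by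
          field_simp
        rw [e3] at h7
        exact h7
      · have e2 : M / Θ ^ cnt P N₀ * Θ ^ cnt P (N + 1) = m := by
          rw [cnt_succ_not hg, hm]
        rw [e2]
        refine ⟨h5.trans (by nlinarith), ?_⟩
        intro t ht x hx hs
        have ht1 : t ∈ Ico (T - τ) T := ⟨by linarith [ht.1], ht.2⟩
        have ht' : t ∈ Ico T₁ T := ⟨hτT.trans ht1.1, ht.2⟩
        have h2 := En_one_le L.bi L.hT₁ ht'
        refine (ih2 t ht1 x hx hs).trans ?_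
        apply mul_le_mul_of_nonneg_left _ hm0.le
        have h8 : 0 ≤ En b T T₁ t * sg x := by positivity
        apply Real.rpow_le_rpow (by positivity) _ hβ.le
        have h9 : En b T T₁ t * sg x / τ ≤ En b T T₁ t * sg x / (τ / 2) :=
          div_le_div_of_nonneg_left h8 (by positivity) (by linarith)
        linarith
  exact fun N hN => (main N hN).2

/-- The logarithmic bound. -/
theorem logb (hAlg : StmAlg) (hBar : StmBar) {K l q d : ℝ} (hK : 0 ≤ K) (hl : 0 ≤ l)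
    (hq : 0 < q) (hq1 : q < 1)
    (hd : 0 < d) (hd2 : d ≤ 1 / 2) : ∃ A : ℝ, 0 < A ∧
    ∀ {T E₀ c R H r h T₁ KW C₀ : ℝ} {u : ℝ → V → V} {p : ℝ → V → ℝ} {k b : ℝ → ℝ},
    Loc T E₀ c R H r h T₁ KW C₀ u p k b → ∀ (δ₀ : ℝ) (P : ℕ → Prop), 0 < δ₀ →
      (∀ j, T₁ ≤ T - δ₀ / 2 ^ j → P j → Good T K l q d c r h KW u k b (δ₀ / 2 ^ j)) →
      (∀ᶠ n : ℕ in atTop, A * Real.log n ≤ cnt P n) →
      ∃ C' η : ℝ, 0 ≤ C' ∧ 0 < η ∧ η ≤ 1 / 2 ∧ T₁ ≤ T - η ∧
        ∀ t ∈ Ico (T - η) T, ∀ x ∈ Cy c r h, 0 < sg x → sg x ≤ η →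
          |circ (u t) x| ≤ C' * (Real.log (max (T - t) (sg x)) ^ 2)⁻¹ := by
  obtain ⟨β, Θ, hβ, hβ1, hΘ0, hΘ1, hrec⟩ := recur hAlg hBar hK hl hq hq1 hd hd2
  have hlog : Real.log Θ < 0 := Real.log_neg hΘ0 hΘ1
  refine ⟨2 / (-Real.log Θ), div_pos two_pos (by linarith), ?_⟩
  intro T E₀ c R H r h T₁ KW C₀ u p k b L δ₀ P hδ₀ hPG hcnt
  have hlim : Tendsto (fun n : ℕ => δ₀ / 2 ^ n) atTop (𝓝 0) := by
    have h1 := (tendsto_pow_atTop_nhds_zero_of_lt_one (r := (1 / 2 : ℝ)) (by norm_num)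
      (by norm_num)).const_mul δ₀
    rw [mul_zero] at h1
    refine h1.congr (fun n => ?_)
    rw [one_div, inv_pow]
    rfl
  have hT₁T := L.hT₁T
  have hev : ∀ᶠ n : ℕ in atTop, δ₀ / 2 ^ n < min (1 / 2) (T - T₁) :=
    hlim.eventually (gt_mem_nhds (lt_min (by norm_num) (by linarith)))
  obtain ⟨N₀, hN₀⟩ := eventually_atTop.1 (hcnt.and (hev.and (eventually_ge_atTop 1)))
  obtain ⟨hc0, hs0, h10⟩ := hN₀ N₀ le_rfl
  have hsa : δ₀ / 2 ^ N₀ < 1 / 2 := hs0.trans_le (min_le_left _ _)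
  have hsb : δ₀ / 2 ^ N₀ < T - T₁ := hs0.trans_le (min_le_right _ _)
  obtain ⟨m₀, hm₀, hb⟩ := hrec L δ₀ N₀ P hδ₀ (by linarith) (by linarith) (fun j hj => by
    have : δ₀ / 2 ^ j ≤ δ₀ / 2 ^ N₀ := by
      apply div_le_div_of_nonneg_left hδ₀.le (by positivity)
      exact pow_le_pow_right₀ one_le_two hj
    exact hPG j (by linarith))
  obtain ⟨κ, hκ⟩ : ∃ κ : ℝ, κ = 2 * Real.log 2 + |Real.log δ₀| := ⟨_, rfl⟩
  have hl2 : 0 < Real.log 2 := Real.log_pos one_lt_two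
  have hκ0 : 0 < κ := by rw [hκ]; positivity
  refine ⟨3 * m₀ * κ ^ 2, δ₀ / 2 ^ N₀, by positivity, by positivity, hsa.le, by linarith, ?_⟩
  intro t ht x hx hs hsη
  obtain ⟨μ, hμ⟩ : ∃ μ : ℝ, μ = max (T - t) (sg x) := ⟨_, rfl⟩
  rw [← hμ]
  have hμt : T - t ≤ μ := by rw [hμ]; exact le_max_left _ _
  have hμs : sg x ≤ μ := by rw [hμ]; exact le_max_right _ _
  have hμ0 : 0 < μ := hs.trans_le hμs
  have hμη : μ ≤ δ₀ / 2 ^ N₀ := by rw [hμ]; exact max_le (by linarith [ht.1]) hsη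
  -- the scale
  have hex : ∃ n : ℕ, δ₀ / 2 ^ n < μ := (hlim.eventually (gt_mem_nhds hμ0)).exists
  obtain ⟨N, hN, hN1, hN2⟩ : ∃ N : ℕ, N₀ ≤ N ∧ μ ≤ δ₀ / 2 ^ N ∧ δ₀ / 2 ^ (N + 1) < μ := by
    classical
    obtain ⟨n, hn⟩ : ∃ n : ℕ, n = Nat.find hex := ⟨_, rfl⟩
    have h1 : δ₀ / 2 ^ n < μ := by rw [hn]; exact Nat.find_spec hex
    have h2 : N₀ < n := by
      by_contra hc
      push Not at hc
      have : δ₀ / 2 ^ N₀ ≤ δ₀ / 2 ^ n := by
        apply div_le_div_of_nonneg_left hδ₀.le (by positivity)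
        exact pow_le_pow_right₀ one_le_two hc
      linarith
    obtain ⟨N, rfl⟩ : ∃ N : ℕ, n = N + 1 := ⟨n - 1, by omega⟩
    refine ⟨N, by omega, ?_, h1⟩
    have h3 := Nat.find_min hex (m := N) (by omega)
    push Not at h3
    exact h3
  obtain ⟨hcN, hsN, h1N⟩ := hN₀ N hN
  have htN : t ∈ Ico (T - δ₀ / 2 ^ N) T := ⟨by linarith, ht.2⟩
  have ht' : t ∈ Ico T₁ T := ⟨by linarith [ht.1], ht.2⟩
  have h1 := hb N hN t htN x hx hs
  have hNr : (1 : ℝ) ≤ N := by exact_mod_cast h1N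
  have hN0 : (0 : ℝ) < N := by linarith
  -- the power
  have h2 : Θ ^ cnt P N ≤ ((N : ℝ) ^ 2)⁻¹ := by
    rw [← Real.rpow_natCast Θ, ← Real.exp_log (Real.rpow_pos_of_pos hΘ0 _), Real.log_rpow hΘ0,
      ← Real.exp_log (show (0 : ℝ) < ((N : ℝ) ^ 2)⁻¹ by positivity), Real.log_inv, Real.log_pow]
    apply Real.exp_le_exp.2
    have h3 : 2 / (-Real.log Θ) * Real.log N * (-Real.log Θ) = 2 * Real.log N := by
      have : Real.log Θ ≠ 0 := hlog.ne
      field_simp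
    have h4 := mul_le_mul_of_nonneg_right hcN (show 0 ≤ -Real.log Θ by linarith)
    push_cast
    linarith
  -- the base
  have hE2 := En_le_two L.bs ht'
  have hE1 := En_one_le L.bi L.hT₁ ht'
  have h3 : (1 + En b T T₁ t * sg x / (δ₀ / 2 ^ N)) ^ β ≤ 3 := by
    have h4 : En b T T₁ t * sg x / (δ₀ / 2 ^ N) ≤ 2 := by
      rw [div_le_iff₀ (by positivity)]
      have : sg x ≤ δ₀ / 2 ^ N := hμs.trans hN1
      nlinarith
    have h5 : 0 ≤ En b T T₁ t * sg x / (δ₀ / 2 ^ N) := by positivity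
    calc (1 + En b T T₁ t * sg x / (δ₀ / 2 ^ N)) ^ β
        ≤ (1 + En b T T₁ t * sg x / (δ₀ / 2 ^ N)) ^ (1 : ℝ) :=
          Real.rpow_le_rpow_of_exponent_le (by linarith) hβ1
      _ ≤ 3 := by rw [Real.rpow_one]; linarith
  have h3' : 0 ≤ (1 + En b T T₁ t * sg x / (δ₀ / 2 ^ N)) ^ β := by positivity
  -- the logarithm
  have hμ1 : μ < 1 := by linarith
  have hlμ : Real.log μ < 0 := Real.log_neg hμ0 hμ1
  have h4 : -Real.log μ ≤ N * κ := by
    have h5 : Real.log (δ₀ / 2 ^ (N + 1)) ≤ Real.log μ := Real.log_le_log (by positivity) hN2.le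
    rw [Real.log_div hδ₀.ne' (by positivity), Real.log_pow] at h5
    push_cast at h5
    have h6 := neg_abs_le (Real.log δ₀)
    have h7 : |Real.log δ₀| ≤ N * |Real.log δ₀| := by
      have := abs_nonneg (Real.log δ₀)
      nlinarith
    rw [hκ]
    nlinarith
  have h5 : ((N : ℝ) ^ 2)⁻¹ ≤ κ ^ 2 * (Real.log μ ^ 2)⁻¹ := by
    have h6 : Real.log μ ^ 2 ≤ (N * κ) ^ 2 := by nlinarith
    have h7 : 0 < Real.log μ ^ 2 := by nlinarith
    rw [← div_eq_mul_inv, le_div_iff₀ h7, inv_mul_le_iff₀ (by positivity)]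
    rw [mul_pow] at h6
    exact h6
  calc |circ (u t) x| ≤ m₀ * Θ ^ cnt P N * (1 + En b T T₁ t * sg x / (δ₀ / 2 ^ N)) ^ β := h1
    _ ≤ m₀ * (κ ^ 2 * (Real.log μ ^ 2)⁻¹) * 3 := by
        apply mul_le_mul _ h3 h3' (by positivity)
        exact mul_le_mul_of_nonneg_left (h2.trans h5) hm₀.le
    _ = 3 * m₀ * κ ^ 2 * (Real.log μ ^ 2)⁻¹ := by ring

/-- Domination for the Hölder bound. -/
theorem hold_low {q C₀ M G s σ w : ℝ} (hq : 0 < q) (hq1 : q < 1) (hC₀ : 0 < C₀) (hM : 0 < M)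
    (hs : 0 < s) (hsσ : s ≤ σ) (hw : 0 < w) (hMw : M * w ≤ C₀) (hG1 : G ≤ C₀) (hG2 : G ≤ M * s) :
    G ≤ C₀ / fp q 1 * fp q (σ / w) := by
  have hφ : 0 < fp q 1 := fp_pos one_pos
  have hσ : 0 < σ := hs.trans_le hsσ
  rw [div_mul_eq_mul_div, le_div_iff₀ hφ]
  rcases le_total w σ with h1 | h1
  · have h2 : 1 ≤ σ / w := by
      rw [le_div_iff₀ hw]
      linarith
    have h3 := fp_mono (q := q) hq.le zero_le_one h2
    have h4 : C₀ * fp q 1 ≤ C₀ * fp q (σ / w) := mul_le_mul_of_nonneg_left h3 hC₀.le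
    nlinarith
  · have h2 : σ / w / 1 * fp q 1 ≤ fp q (σ / w) :=
      fp_low hq hq1.le (by positivity) one_pos (by rw [div_le_one hw]; exact h1)
    rw [div_one] at h2
    have h3 : C₀ * (σ / w * fp q 1) ≤ C₀ * fp q (σ / w) := mul_le_mul_of_nonneg_left h2 hC₀.le
    have h4 : M * σ ≤ C₀ * (σ / w) := by
      rw [← mul_div_assoc, le_div_iff₀ hw]
      nlinarith
    have h5 : M * s ≤ M * σ := mul_le_mul_of_nonneg_left hsσ hM.le
    have h6 : G * fp q 1 ≤ C₀ * (σ / w) * fp q 1 :=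
      mul_le_mul_of_nonneg_right (by linarith) hφ.le
    nlinarith

/-- The Hölder bound in good windows. -/
theorem hold (hAlg : StmAlg) (hBar : StmBar) {T E₀ c R H r h T₁ KW C₀ : ℝ} {u : ℝ → V → V}
    {p : ℝ → V → ℝ} {k b : ℝ → ℝ} (L : Loc T E₀ c R H r h T₁ KW C₀ u p k b) {K l q d : ℝ}
    (hl : 0 ≤ l) (hq : 0 < q) (hq1 : q < 1) (hd : 0 < d) (hd2 : d ≤ 1 / 2) :
    ∃ C₂ : ℝ, 0 ≤ C₂ ∧ ∀ τ : ℝ, 0 < τ → τ ≤ 1 → T₁ ≤ T - τ →
      Good T K l q d c r h KW u k b τ →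
      ∀ t ∈ Ico (T - (1 - d / 2) * τ) (T - (1 - d) * τ), ∀ x ∈ Cy c r h, 0 < sg x →
        |circ (u t) x| ≤ C₂ * (sg x / τ) ^ q := by
  have hφ : 0 < fp q 1 := fp_pos one_pos
  have hKW := L.hKW
  have hC₀ := L.hC₀
  refine ⟨C₀ / fp q 1 * (4 * (l + 1) / (q * d)) ^ q, by positivity, ?_⟩
  intro τ hτ hτ1 hτT hgood t ht x hx hs
  have hT₁ := L.hT₁
  obtain ⟨t0, ht0⟩ : ∃ t0 : ℝ, t0 = T - τ := ⟨_, rfl⟩
  obtain ⟨t1, ht1⟩ : ∃ t1 : ℝ, t1 = T - (1 - d) * τ := ⟨_, rfl⟩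
  have hdτ : 0 < d * τ := by positivity
  have h01 : t0 < t1 := by rw [ht0, ht1]; nlinarith
  have h1T : t1 < T := by rw [ht1]; nlinarith
  have h0T : t0 < T := h01.trans h1T
  rw [← ht0] at hτT
  have ht0p : 0 < t0 := hT₁.trans_le hτT
  have hI0 : ∀ t ∈ Ico t0 T, t ∈ Ico T₁ T := fun t ht => ⟨hτT.trans ht.1, ht.2⟩
  have hIo : ∀ t ∈ Ico t0 T, t ∈ Ioo 0 T := fun t ht => L.mem (hI0 t ht)
  have hg2 := hgood.2
  rw [← ht0, ← ht1] at hg2
  obtain ⟨sl, hsl⟩ : ∃ sl : ℝ, sl = q / (l + 1) := ⟨_, rfl⟩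
  have hsl0 : 0 < sl := by rw [hsl]; positivity
  have hslq : sl ≤ q := by
    rw [hsl, div_le_iff₀ (by positivity)]
    nlinarith
  obtain ⟨W₀, hW₀, hini⟩ := L.inic hAlg (hI0 t0 ⟨le_rfl, h0T⟩)
  obtain ⟨w₀, hw₀⟩ : ∃ w₀ : ℝ, w₀ = min (sl * τ / 2) (C₀ / W₀) := ⟨_, rfl⟩
  have hw0 : 0 < w₀ := by rw [hw₀]; exact lt_min (by positivity) (by positivity)
  have hw1 : w₀ ≤ sl * τ / 2 := by rw [hw₀]; exact min_le_left _ _
  have hw2 : W₀ * w₀ ≤ C₀ := by
    have : w₀ ≤ C₀ / W₀ := by rw [hw₀]; exact min_le_right _ _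
    rw [le_div_iff₀ hW₀] at this
    linarith
  have hE1 : ∀ t ∈ Ico t0 T, 1 ≤ En b T T₁ t := fun t ht => En_one_le L.bi hT₁ (hI0 t ht)
  have hE2 : ∀ t ∈ Ico t0 T, En b T T₁ t ≤ 2 := fun t ht => En_le_two L.bs (hI0 t ht)
  have hEd : ∀ t ∈ Ico t0 T, HasDerivAt (En b T T₁) (2 * b t * En b T T₁ t) t := fun t ht =>
    En_deriv L.bi L.bc L.b0 (hIo t ht)
  have hcd : ∀ s₀ : ℝ, ∀ t ∈ Ico t0 T, HasDerivAt (cum k T s₀) (4 * (|k t| + 1)) t :=
    fun s₀ t ht => cum_deriv L.ki L.kc s₀ (hIo t ht)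
  have hkE : ∀ t ∈ Ico t0 T, 2 * k t * En b T T₁ t < 4 * (|k t| + 1) := by
    intro t ht
    have h1 := L.k0 t (hIo t ht)
    rw [abs_of_nonneg h1]
    have h2 := hE2 t ht
    nlinarith
  have hwpos : ∀ t ∈ Ico t0 t1, 0 < w₀ + sl * (t - t0) := by
    intro t ht
    have : 0 ≤ sl * (t - t0) := mul_nonneg (by positivity) (by linarith [ht.1])
    linarith
  have hwle' : ∀ t ∈ Ico t0 t1, w₀ + sl * (t - t0) ≤ sl * τ := by
    intro t ht
    have h1 : t - t0 ≤ d * τ := by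
      have := ht.2
      rw [ht1] at this
      rw [ht0]
      linarith
    have h2 : sl * (t - t0) ≤ sl * (d * τ) := mul_le_mul_of_nonneg_left h1 (by positivity)
    have h3 : sl * (d * τ) ≤ sl * (1 / 2 * τ) := by gcongr
    linarith
  have hslτ : sl * τ ≤ 3 * τ := by nlinarith
  have hwle : ∀ t ∈ Ico t0 t1, w₀ + sl * (t - t0) ≤ 3 * τ := fun t ht => (hwle' t ht).trans hslτ
  have hr21 : r ^ 2 ≤ 1 := pow_le_one₀ L.hr.le L.hr1
  have key : ∀ ε : ℝ, 0 < ε → ∀ t ∈ Ico t0 t1, ∀ x ∈ Cy c r h, 0 < sg x →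
      |circ (u t) x| ≤ kq (C₀ / fp q 1) ε q 1 τ (En b T T₁) (fun _ => 0)
        (fun t => w₀ + sl * (t - t0)) (cum k T t0) t (sg x) := by
    intro ε hε
    refine stage hAlg hBar T E₀ c R H r h t0 t1 u p L.sol L.hr L.hrR L.hh L.hhH ht0p h01 h1T.le
      (C₀ / fp q 1) ε q 1 τ (3 * τ) KW k b (En b T T₁) (fun _ => 0) (fun _ => 0)
      (fun t => w₀ + sl * (t - t0)) (fun _ => sl) (cum k T t0) (fun t => 4 * (|k t| + 1))
      hq hq1 one_pos le_rfl (by positivity) hε hτ (fun t ht => hE1 t ⟨ht.1, ht.2.trans h1T⟩)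
      (fun t ht => le_rfl) (fun t ht => cum_nn L.ki ht0p.le ⟨ht.1, ht.2.trans h1T⟩)
      hwpos hwle
      (fun t ht => (hEd t ⟨ht.1, ht.2.trans h1T⟩).continuousAt.continuousWithinAt)
      continuousOn_const (by fun_prop)
      (fun t ht => (hcd t0 t ⟨ht.1, ht.2.trans h1T⟩).continuousAt.continuousWithinAt)
      (fun t ht => hEd t ⟨ht.1.le, ht.2.trans h1T⟩)
      (fun t ht => hasDerivAt_const _ _)
      (by
        intro t ht
        have h1 : HasDerivAt (fun s : ℝ => s - t0) 1 t := (hasDerivAt_id t).sub_const t0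
        have h2 := (h1.const_mul sl).const_add w₀
        refine h2.congr_deriv ?_
        ring)
      (fun t ht => hcd t0 t ⟨ht.1.le, ht.2.trans h1T⟩)
      (fun t ht => hkE t ⟨ht.1.le, ht.2.trans h1T⟩)
      (fun t ht => Or.inr ⟨rfl, rfl, by linarith, fun x hx hs i1 i2 i3 => by
        have h1 := hg2 t ht x hx hs i1 i2 i3
        have hwp := hwpos t ⟨ht.1.le, ht.2⟩
        have hwl := hwle' t ⟨ht.1.le, ht.2⟩
        have h2 : l / τ ≤ q / (w₀ + sl * (t - t0)) := by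
          rw [div_le_div_iff₀ hτ hwp]
          have h3 : l * (w₀ + sl * (t - t0)) ≤ l * (sl * τ) := mul_le_mul_of_nonneg_left hwl hl
          have h4 : l * sl ≤ q := by
            rw [hsl, ← mul_div_assoc, div_le_iff₀ (by positivity)]
            nlinarith
          nlinarith
        have h3 := mul_le_mul_of_nonneg_right h2 hs.le
        show -((2 - 2 * q) + (q / (w₀ + sl * (t - t0)) + b t) * sg x) ≤ rad (u t) x
        linarith⟩)
      (by
        intro t ht s hs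
        have ht' : t ∈ Ico t0 T := ⟨ht.1.le, ht.2.trans h1T⟩
        have e1 := hE1 t ht'
        have hEs : 0 < En b T T₁ t * s := mul_pos (by linarith) hs.1
        have hw' := hwpos t ⟨ht.1.le, ht.2⟩
        have h3 := hwle t ⟨ht.1.le, ht.2⟩
        have hKC := L.hKC
        have h4 := hold_low (G := KW * s) hq hq1 hC₀ hKW hs.1
          (show s ≤ En b T T₁ t * s by nlinarith [hs.1]) hw'
          (by nlinarith) (by nlinarith [hs.2, hr21]) le_rfl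
        have h5 : 0 ≤ ε * gb 1 ((En b T T₁ t * s + cum k T t0 t) / τ) := by
          apply mul_nonneg hε.le
          apply gb_nn zero_le_one
          have := cum_nn L.ki ht0p.le ht'
          positivity
        unfold kq
        simp only [add_zero]
        linarith)
      (fun t ht => L.infl t ⟨hτT.trans_lt ht.1, ht.2.trans h1T⟩) ?_ ?_
    · intro t ht x hx hs hb
      have ht' : t ∈ Ico t0 T := ⟨ht.1, ht.2.trans h1T⟩
      have e1 := hE1 t ht'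
      have hEs : 0 < En b T T₁ t * sg x := mul_pos (by linarith) hs
      have h1 := L.latc hAlg (hI0 t ht') hx hs hb
      have h2 := L.cb t (hI0 t ht') x hx
      have h3 := hwle t ht
      have h4 := hold_low (G := |circ (u t) x|) hq hq1 hC₀ hKW hs
        (show sg x ≤ En b T T₁ t * sg x by nlinarith) (hwpos t ht)
        (by
          have := L.hKC
          nlinarith) h2 h1
      have h5 : 0 ≤ ε * gb 1 ((En b T T₁ t * sg x + cum k T t0 t) / τ) := by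
        apply mul_nonneg hε.le
        apply gb_nn zero_le_one
        have := cum_nn L.ki ht0p.le ht'
        positivity
      unfold kq
      simp only [add_zero]
      linarith
    · intro x hx hs
      have ht' : t0 ∈ Ico t0 T := ⟨le_rfl, h0T⟩
      have e1 := hE1 t0 ht'
      have hEs : 0 < En b T T₁ t0 * sg x := mul_pos (by linarith) hs
      have h2 := L.cb t0 (hI0 t0 ht') x hx
      have h4 := hold_low (G := |circ (u t0) x|) hq hq1 hC₀ hW₀ hs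
        (show sg x ≤ En b T T₁ t0 * sg x by nlinarith) hw0 hw2 h2 (hini x hx hs)
      have h5 : 0 ≤ ε * gb 1 ((En b T T₁ t0 * sg x + cum k T t0 t0) / τ) := by
        apply mul_nonneg hε.le
        apply gb_nn zero_le_one
        have := cum_nn L.ki ht0p.le ht'
        positivity
      unfold kq
      simp only [add_zero, sub_self, mul_zero]
      linarith
  have htm : t ∈ Ico t0 t1 := by
    refine ⟨?_, by rw [ht1]; exact ht.2⟩
    have := ht.1
    rw [ht0]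
    nlinarith
  have ht' : t ∈ Ico t0 T := ⟨htm.1, htm.2.trans h1T⟩
  have e1 := hE1 t ht'
  have e2 := hE2 t ht'
  have hEs : 0 < En b T T₁ t * sg x := mul_pos (by linarith) hs
  have h6 : |circ (u t) x| ≤ C₀ / fp q 1 * fp q (En b T T₁ t * sg x / (w₀ + sl * (t - t0))) := by
    apply le_of_forall_pos_le_add
    intro e he
    obtain ⟨g, hg⟩ : ∃ g : ℝ, g = gb 1 ((En b T T₁ t * sg x + cum k T t0 t) / τ) := ⟨_, rfl⟩
    have hg0 : 0 ≤ g := by
      rw [hg]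
      apply gb_nn zero_le_one
      have := cum_nn L.ki ht0p.le ht'
      positivity
    have h7 := key (e / (g + 1)) (by positivity) t htm x hx hs
    unfold kq at h7
    simp only [add_zero] at h7
    rw [← hg] at h7
    have h8 : e / (g + 1) * g ≤ e := by
      rw [div_mul_eq_mul_div, div_le_iff₀ (by positivity)]
      nlinarith
    linarith
  refine h6.trans ?_
  rw [mul_assoc (C₀ / fp q 1)]
  apply mul_le_mul_of_nonneg_left _ (by positivity)
  have hw := hwpos t htm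
  refine (fp_le hq.le (by positivity)).trans ?_
  rw [← Real.mul_rpow (by positivity) (by positivity)]
  apply Real.rpow_le_rpow (by positivity) _ hq.le
  have h9 : sl * (d / 2 * τ) ≤ w₀ + sl * (t - t0) := by
    have h10 : d / 2 * τ ≤ t - t0 := by
      have := ht.1
      rw [ht0]
      linarith
    have := mul_le_mul_of_nonneg_left h10 hsl0.le
    linarith
  calc En b T T₁ t * sg x / (w₀ + sl * (t - t0)) ≤ 2 * sg x / (sl * (d / 2 * τ)) := by
        apply div_le_div₀ (by positivity) _ (by positivity) h9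
        nlinarith
    _ = 4 * (l + 1) / (q * d) * (sg x / τ) := by
        rw [hsl]
        field_simp
        norm_num

end Pool.Agent.D0H49.AX
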