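import Pool.Agent.D0H49.AX.Stm
import Pool.Agent.Q175.AX.Sm

/-!
Project IW (helper49): package SM (adaptation of `Pool.Agent.Q175.AX.stmSm`).
-/

set_option autoImplicit false

open MeasureTheory Set Metric Filter Topology
open scoped ContDiff
open H459R3.NS Pool.Agent.W268.NS Pool.Agent.Q67.VD

namespace Pool.Agent.D0H49.AX

open Pool.Agent.Q85.CC Pool.Agent.Q85.CL Pool.Agent.TH305.AX Pool.Agent.Q67.AXI
open Pool.Agent.Q175.AX

theorem sm_gen (hAlg : StmAlg) (hBar : StmBar) (T E c R H r h T₁ K c₀ : ℝ) (u : ℝ → V → V)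
    (p : ℝ → V → ℝ) (hu : AxL T E c R H u p) (hr : 0 < r) (hrR : r < R) (hh : 0 < h)
    (hhH : h < H) (hT1 : 0 < T₁)
    (hcb : ∀ t ∈ Ico T₁ T, ∀ x ∈ Cy c r h, |circ (u t) x| ≤ c₀ ∧
      ((sg x = r ^ 2 ∨ |x 2 - c| = h) → |WW (u t) x| ≤ K)) :
    ∃ C : ℝ, 0 ≤ C ∧ ∀ T₂ ∈ Ico T₁ T, ∀ X : ℝ, 1 ≤ X → ∀ τ ∈ Ioc (0 : ℝ) 1, ∀ t' ∈ Ico T₂ T,
      ((∀ x ∈ Cy c r h, |WW (u T₂) x| ≤ X) ∨ T₂ ≤ t' - τ) → ∀ B : ℝ → ℝ,
        ContinuousOn B (Icc T₂ t') →
          (∀ t ∈ Icc T₂ t', ∀ x ∈ Cy c r h, |UU (u t) x| ≤ B t) →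
          ∫ t in (max T₂ (t' - τ))..t', B t ≤ 1 → ∀ x ∈ Cy c r h, |WW (u t') x| ≤ C * X / τ := by
  obtain ⟨k, hk⟩ : ∃ k : ℝ, k = |K| + 1 := ⟨_, rfl⟩
  have hk0 : 0 < k := by rw [hk]; positivity
  obtain ⟨c1, hc1⟩ : ∃ c1 : ℝ, c1 = |c₀| + 1 := ⟨_, rfl⟩
  have hc10 : 0 < c1 := by rw [hc1]; positivity
  have he2 : 0 < Real.exp 2 := Real.exp_pos 2
  obtain ⟨τ0, hτ0⟩ : ∃ τ0 : ℝ, τ0 = min 1 (c1 / (6 * Real.exp 2 * k)) := ⟨_, rfl⟩
  have hτ00 : 0 < τ0 := by rw [hτ0]; exact lt_min one_pos (by positivity)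
  have hτ01 : τ0 ≤ 1 := by rw [hτ0]; exact min_le_left _ _
  have hτ0k : 3 * Real.exp 2 * τ0 * k ≤ c1 / 2 := by
    have h1 : τ0 ≤ c1 / (6 * Real.exp 2 * k) := by rw [hτ0]; exact min_le_right _ _
    rw [le_div_iff₀ (by positivity)] at h1
    linarith
  obtain ⟨C, hC⟩ : ∃ C : ℝ, C = 1 + 2 * c1 * Real.exp 2 / (3 * τ0)
    + 2 * Real.exp 2 * (2 * k + 2) := ⟨_, rfl⟩
  have hCa : 1 ≤ C := by
    rw [hC]
    have : 0 ≤ 2 * c1 * Real.exp 2 / (3 * τ0) := by positivity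
    have : 0 ≤ 2 * Real.exp 2 * (2 * k + 2) := by positivity
    linarith
  have hCb : 2 * c1 * Real.exp 2 / (3 * τ0) ≤ C := by
    rw [hC]
    have : 0 ≤ 2 * Real.exp 2 * (2 * k + 2) := by positivity
    linarith
  have hCc : 2 * Real.exp 2 * (2 * k + 2) ≤ C := by
    rw [hC]
    have : 0 ≤ 2 * c1 * Real.exp 2 / (3 * τ0) := by positivity
    linarith
  have hC0 : 0 ≤ C := by linarith
  refine ⟨C, hC0, ?_⟩
  intro T₂ hT₂ X hX τ hτ t' ht' halt B hB hUB hBi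
  have hCX : 0 ≤ C * X := by positivity
  have hCτ : C * X ≤ C * X / τ := by
    rw [le_div_iff₀ hτ.1]
    exact mul_le_of_le_one_right hCX hτ.2
  have hT2p : 0 < T₂ := hT1.trans_le hT₂.1
  rcases ht'.1.eq_or_lt with heq | hlt
  · intro x hx
    rcases halt with ha | ha
    · rw [← heq]
      have h1 := ha x hx
      have h2 : X ≤ C * X := by nlinarith
      linarith
    · exfalso
      have := hτ.1
      linarith
  have hc0m : (![0, 0, c] : V) ∈ Cy c r h := by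
    refine ⟨?_, ?_⟩
    · show (0 : ℝ) ^ 2 + (0 : ℝ) ^ 2 ≤ r ^ 2
      nlinarith
    · show |c - c| ≤ h
      rw [sub_self, abs_zero]
      exact hh.le
  have hB0 : ∀ t ∈ Icc T₂ t', 0 ≤ B t := fun t ht => (abs_nonneg _).trans (hUB t ht _ hc0m)
  obtain ⟨τ', hτ'⟩ : ∃ τ' : ℝ, τ' = min τ τ0 := ⟨_, rfl⟩
  have hτ'0 : 0 < τ' := by rw [hτ']; exact lt_min hτ.1 hτ00
  have hτ'1 : τ' ≤ τ := by rw [hτ']; exact min_le_left _ _
  have hτ'2 : τ' ≤ τ0 := by rw [hτ']; exact min_le_right _ _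
  have hτ'3 : τ * τ0 ≤ τ' := by
    rw [hτ']
    refine le_min ?_ ?_
    · exact mul_le_of_le_one_right hτ.1.le hτ01
    · exact mul_le_of_le_one_left hτ00.le hτ.2
  obtain ⟨t0, ht0⟩ : ∃ t0 : ℝ, t0 = max T₂ (t' - τ') := ⟨_, rfl⟩
  have h01 : T₂ ≤ t0 := by rw [ht0]; exact le_max_left _ _
  have h02 : t' - τ' ≤ t0 := by rw [ht0]; exact le_max_right _ _
  have h03 : t0 < t' := by rw [ht0]; exact max_lt hlt (by linarith)
  have h04 : max T₂ (t' - τ) ≤ t0 := by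
    rw [ht0]
    exact max_le_max le_rfl (by linarith)
  have hBi' : ∫ t in t0..t', B t ≤ 1 := by
    refine le_trans ?_ hBi
    have hs1 : Icc (max T₂ (t' - τ)) t' ⊆ Icc T₂ t' := Icc_subset_Icc_left (le_max_left _ _)
    have hs2 : Icc t0 t' ⊆ Icc T₂ t' := Icc_subset_Icc_left h01
    have i1 : IntervalIntegrable B volume (max T₂ (t' - τ)) t0 := by
      refine ContinuousOn.intervalIntegrable ?_
      rw [uIcc_of_le h04]
      exact hB.mono ((Icc_subset_Icc_right h03.le).trans hs1)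
    have i2 : IntervalIntegrable B volume t0 t' := by
      refine ContinuousOn.intervalIntegrable ?_
      rw [uIcc_of_le h03.le]
      exact hB.mono hs2
    rw [← intervalIntegral.integral_add_adjacent_intervals i1 i2]
    have : 0 ≤ ∫ t in (max T₂ (t' - τ))..t0, B t :=
      intervalIntegral.integral_nonneg h04 fun s hs =>
        hB0 s ⟨(le_max_left _ _).trans hs.1, hs.2.trans h03.le⟩
    linarith
  have hcb' : ∀ t ∈ Ico t0 t', ∀ x ∈ Cy c r h, |circ (u t) x| ≤ c1 ∧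
      ((sg x = r ^ 2 ∨ |x 2 - c| = h) → |WW (u t) x| ≤ k) := by
    intro t ht x hx
    obtain ⟨b1, b2⟩ := hcb t ⟨(hT₂.1.trans h01).trans ht.1, ht.2.trans ht'.2⟩ x hx
    refine ⟨?_, fun hb => ?_⟩
    · rw [hc1]
      linarith [le_abs_self c₀]
    · rw [hk]
      linarith [le_abs_self K, b2 hb]
  have ht0m : t0 ∈ Ioo 0 T := ⟨hT2p.trans_le h01, h03.trans ht'.2⟩
  have hlen : t' - t0 ≤ τ' := by linarith
  -- the bound at the time `t0`
  obtain ⟨M2, hM20, hM2, hM2'⟩ : ∃ M2 : ℝ, 0 ≤ M2 ∧ (∀ x ∈ Cy c r h, |WW (u t0) x| ≤ M2) ∧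
      (T₂ ≤ t' - τ' ∨ M2 = X) := by
    by_cases hc : T₂ ≤ t' - τ'
    · obtain ⟨⟨-, sW', -, -⟩, -, -, -⟩ := hAlg (u t0) (slice_V hu.smooth_u ht0m) (hu.axi t0 ht0m)
      obtain ⟨M2, hM2⟩ := (Cy_compact (c := c) (h := h) hr.le).exists_bound_of_continuousOn
        sW'.continuous.continuousOn
      exact ⟨|M2|, abs_nonneg _, fun x hx => (hM2 x hx).trans (le_abs_self _), Or.inl hc⟩
    · have e0 : t0 = T₂ := by rw [ht0]; exact max_eq_left (by linarith)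
      rcases halt with ha | ha
      · exact ⟨X, by linarith, fun x hx => by rw [e0]; exact ha x hx, Or.inr rfl⟩
      · exact absurd (ha.trans (by linarith)) hc
  obtain ⟨θ0, hθ0⟩ : ∃ θ0 : ℝ, θ0 = min (c1 / (2 * k)) (c1 / (M2 + 1)) := ⟨_, rfl⟩
  have hθ00 : 0 < θ0 := by rw [hθ0]; exact lt_min (by positivity) (by positivity)
  have hθ0M : θ0 * M2 ≤ c1 := by
    have h1 : θ0 ≤ c1 / (M2 + 1) := by rw [hθ0]; exact min_le_right _ _
    rw [le_div_iff₀ (by positivity)] at h1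
    nlinarith
  have hθ0k : (θ0 + 3 * Real.exp 2 * (t' - t0)) * k ≤ c1 := by
    have h1 : θ0 ≤ c1 / (2 * k) := by rw [hθ0]; exact min_le_left _ _
    rw [le_div_iff₀ (by positivity)] at h1
    have h2 : 3 * Real.exp 2 * (t' - t0) * k ≤ 3 * Real.exp 2 * τ0 * k := by
      have : t' - t0 ≤ τ0 := hlen.trans hτ'2
      gcongr
    nlinarith
  have hs2 : Icc t0 t' ⊆ Icc T₂ t' := Icc_subset_Icc_left h01
  have hmain := sm_core hAlg hBar hu hr hrR hh hhH ht0m.1 h03 ht'.2 hc10 hk0 hcb' hM2 hθ00 hθ0M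
    hθ0k (hB.mono hs2) (fun t ht => hUB t (hs2 ht)) hBi'
  intro x hx
  refine (hmain x hx).trans ?_
  have hlen0 : 0 < t' - t0 := by linarith
  by_cases hc : T₂ ≤ t' - τ'
  · have e1 : t' - t0 = τ' := by
      rw [ht0, max_eq_right hc]
      ring
    rw [e1]
    have h1 : 2 * c1 * Real.exp 2 / (θ0 + 3 * τ') ≤ 2 * c1 * Real.exp 2 / (3 * (τ * τ0)) := by
      refine div_le_div_of_nonneg_left (by positivity) ?_ (by linarith)
      have := hτ.1
      positivity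
    have h2 : 2 * c1 * Real.exp 2 / (3 * (τ * τ0)) = 2 * c1 * Real.exp 2 / (3 * τ0) / τ := by
      have := hτ.1.ne'
      field_simp
    rw [h2] at h1
    refine h1.trans ?_
    apply div_le_div_of_nonneg_right _ hτ.1.le
    have : C ≤ C * X := by nlinarith
    linarith
  · have hMX : M2 = X := by
      rcases hM2' with h1 | h1
      · exact absurd h1 hc
      · exact h1
    have h1 : 2 * c1 * Real.exp 2 / (θ0 + 3 * (t' - t0)) ≤ 2 * c1 * Real.exp 2 / θ0 :=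
      div_le_div_of_nonneg_left (by positivity) hθ00 (by linarith)
    refine h1.trans (le_trans ?_ hCτ)
    rw [div_le_iff₀ hθ00]
    have h2 : c1 ≤ (2 * k + (M2 + 1)) * θ0 := by
      have h3 : θ0 = c1 / (2 * k) ∨ θ0 = c1 / (M2 + 1) := by
        rw [hθ0]
        exact min_choice _ _
      rcases h3 with h3 | h3
      · have h4 : 2 * k * θ0 = c1 := by rw [h3]; field_simp
        nlinarith
      · have h4 : (M2 + 1) * θ0 = c1 := by rw [h3]; field_simp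
        nlinarith
    rw [hMX] at h2
    have h5 : 2 * k + (X + 1) ≤ (2 * k + 2) * X := by nlinarith
    have h6 : c1 ≤ (2 * k + 2) * X * θ0 := h2.trans (mul_le_mul_of_nonneg_right h5 hθ00.le)
    have h7 : 2 * Real.exp 2 * (2 * k + 2) * (X * θ0) ≤ C * (X * θ0) :=
      mul_le_mul_of_nonneg_right hCc (by positivity)
    nlinarith

/-- IW-SM. -/
theorem t_SM (hAlg : StmAlg) (hBar : StmBar) : S_SM := by
  intro T E c R H r h T₁ K c₀ u p hu hr hrR hh hhH hT1 hTT hcb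
  obtain ⟨C, hC, hmain⟩ := sm_gen hAlg hBar T E c R H r h T₁ K c₀ u p hu hr hrR hh hhH hT1 hcb
  refine ⟨C, hC, fun T₂ hT₂ M2 hM2 => ⟨fun hW τ hτ t' ht' B hB hUB hBi => ?_,
    fun τ hτ t' ht' hTt B hB hUB hBi => ?_⟩⟩
  · exact hmain T₂ hT₂ (1 + M2) (by linarith) τ hτ t' ht'
      (Or.inl fun x hx => (hW x hx).trans (by linarith)) B hB hUB hBi
  · have h1 := hmain T₂ hT₂ 1 le_rfl τ hτ t' ht' (Or.inr hTt) B hB hUB
      (by rw [max_eq_right hTt]; exact hBi)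
    rw [mul_one] at h1
    exact h1

end Pool.Agent.D0H49.AX
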