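import Pool.Agent.D0H49.AX.Stm
import Pool.Agent.Q95.AXP.Yd
import Pool.Agent.Q153.AXI.T2P

/-!
Project IW (helper49): packages YB and YG (adaptation of `Pool.Agent.Q95.AXP.yd`).
-/

set_option autoImplicit false

open MeasureTheory Set Metric Filter Topology
open scoped ContDiff
open H459R3.NS Pool.Agent.W268.NS Pool.Agent.Q67.VD

namespace Pool.Agent.D0H49.AX

open Pool.Agent.Q85.CC Pool.Agent.Q85.CL Pool.Agent.TH305.AX Pool.Agent.Q67.AXI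
open Pool.Agent.W583.MD (sm_pd pd_mul')
open Pool.Agent.Q111.AXI
open Pool.Agent.Q95.AXP (cy_compact en_gen rem_le SS_sm wt alg)
open Pool.Agent.Q153.AXI (axNull smSgT hardyGD csW)

/-- The common part. -/
theorem yd_core (hAlg : StmAlg) (hEqJ : StmEqJ) (hEqO : StmEqO) (hJnt : StmJnt) (hDt : StmDt)
    (hEn : Pool.Agent.Q67.AXI.StmEn) {T E c R H K r h r1 h1 T₁ C' C₀ : ℝ} {u : ℝ → V → V}
    {p : ℝ → V → ℝ} {φ : V → ℝ} (G : Geo T E c R H K r h r1 h1 T₁ C' C₀ u p φ) {t : ℝ}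
    (ht : t ∈ Ico T₁ T) :
    ∃ D1 D2 : ℝ, HasDerivAt (fun s => ∫ x, φ x ^ 2 * JJ (u s) x ^ 2) D1 t ∧
      HasDerivAt (fun s => ∫ x, φ x ^ 2 * OO (u s) x ^ 2) D2 t ∧
      D1 ≤ -2 * GD (fun x => φ x * JJ (u t) x)
        + 2 * |∫ x, φ x ^ 2 * JJ (u t) x * SS (u t) x|
        + volume.real (Cy c r h) * (K ^ 2 * (12 * K ^ 2 + 4 * K)) ∧
      D2 ≤ -2 * GD (fun x => φ x * OO (u t) x)
        + 2 * (2 * |∫ x, φ x ^ 2 * OO (u t) x * (WW (u t) x * JJ (u t) x)|)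
        + volume.real (Cy c r h) * (K ^ 2 * (12 * K ^ 2 + 4 * K)) ∧
      0 ≤ ∫ x in Co c r h, W221.NS.nsq (u t) x ∧ ∫ x in Co c r h, W221.NS.nsq (u t) x ≤ E ∧
      ∫ x in Co c r h, (W221.NS.gsq (u t) x + W221.NS.nsq (u t) x)
        = (∫ x in Co c r h, W221.NS.gsq (u t) x) + ∫ x in Co c r h, W221.NS.nsq (u t) x ∧
      DFO (Co c r h) (u t) := by
  have hsol := G.sol
  have hK := G.hK
  have hcut := G.cut
  have hout := G.out
  have hr : 0 < r := G.hr1.trans G.hr1r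
  have hrR := G.hrR
  have hhH := G.hhH
  have hsub : Co c r h ⊆ Co c R H := by
    rintro x ⟨hx1, hx2⟩
    refine ⟨hx1.trans ?_, hx2.trans hhH⟩
    nlinarith
  have hnn : ∀ (v : V → V) y, 0 ≤ W221.NS.nsq v y := fun v y =>
    Finset.sum_nonneg fun i _ => sq_nonneg _
  have ht0 : t ∈ Ioo 0 T := ⟨G.hT₁.trans_le ht.1, ht.2⟩
  have hu := sm_slice hsol.smooth_u ht0
  have hax := hsol.axi t ht0
  obtain ⟨⟨hUs, hWs, hJs, hOs⟩, -⟩ := hAlg (u t) hu hax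
  obtain ⟨-, -, hJJ, hJO⟩ := hJnt T u hsol.smooth_u
  obtain ⟨-, hDJ⟩ := hDt T (fun t => JJ (u t)) φ hJJ hcut.sm hcut.cs
  obtain ⟨-, hDO⟩ := hDt T (fun t => OO (u t)) φ hJO hcut.sm hcut.cs
  have hsupp : tsupport φ ⊆ Co c R H := hcut.supp.trans hsub
  have hcl : DFO (Co c r h) (u t) := fun x hx => hsol.divfree t ht0 x (hsub hx)
  have d1 := en_gen hEn hsol.openO hcut.sm hcut.cs hsupp (f := fun s => JJ (u s)) (τ := t)
    (v := u t) (S := SS (u t)) hu (hsol.divfree t ht0) hJs (SS_sm hUs hWs)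
    (fun x hx hx0 => (hEqJ T E c R H u p hsol t ht0 x hx hx0).deriv)
  have hSO : ContDiff ℝ ∞ (fun x => -2 * WW (u t) x * JJ (u t) x) :=
    (contDiff_const.mul hWs).mul hJs
  have d2 := en_gen hEn hsol.openO hcut.sm hcut.cs hsupp (f := fun s => OO (u s)) (τ := t)
    (v := u t) (S := fun x => -2 * WW (u t) x * JJ (u t) x) hu (hsol.divfree t ht0) hOs hSO
    (fun x hx hx0 => by
      rw [(hEqO T E c R H u p hsol t ht0 x hx hx0).deriv]
      ring)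
  have r1' := rem_le (v := u t) (f := JJ (u t)) hcut hK hr
    (fun x hx => ⟨(hout t ht x hx).2.2.2.1, (hout t ht x hx).1⟩)
  have r2' := rem_le (v := u t) (f := OO (u t)) hcut hK hr
    (fun x hx => ⟨(hout t ht x hx).2.2.2.2.1, (hout t ht x hx).1⟩)
  have hint : ∀ x, φ x ^ 2 * OO (u t) x * (-2 * WW (u t) x * JJ (u t) x) =
      -2 * (φ x ^ 2 * OO (u t) x * (WW (u t) x * JJ (u t) x)) := fun x => by ring
  simp only [hint, integral_const_mul] at d2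
  have hcc : IsCompact (Cy c r h) := cy_compact c hr
  have hcy : Co c r h ⊆ Cy c r h := fun x hx => ⟨hx.1.le, hx.2.le⟩
  have hgc : Continuous (W221.NS.gsq (u t)) := by
    have hi : ∀ i, ContDiff ℝ ∞ (fun y => u t y i) := fun i => contDiff_pi.1 hu i
    unfold W221.NS.gsq
    exact continuous_finsetSum _ fun i _ => continuous_finsetSum _ fun j _ =>
      (sm_pd (hi i) j).continuous.pow 2
  have hgi : IntegrableOn (W221.NS.gsq (u t)) (Co c r h) :=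
    (hgc.continuousOn.integrableOn_compact hcc).mono_set hcy
  have hni : IntegrableOn (W221.NS.nsq (u t)) (Co c r h) :=
    ((nsq_cont hu).continuousOn.integrableOn_compact hcc).mono_set hcy
  have hNE : ∫ x in Co c r h, W221.NS.nsq (u t) x ≤ E :=
    (setIntegral_mono_set (hsol.en_int t ht0) (ae_of_all _ fun y => hnn _ y)
      (LE.le.eventuallyLE hsub)).trans (hsol.en t ht0)
  refine ⟨_, _, hDJ t ht0, hDO t ht0, ?_, ?_, integral_nonneg fun x => hnn _ x, hNE,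
    integral_add hgi hni, hcl⟩
  · refine d1.trans ?_
    have := le_abs_self (∫ x, φ x ^ 2 * JJ (u t) x * SS (u t) x)
    linarith
  · refine d2.trans ?_
    have := neg_abs_le (∫ x, φ x ^ 2 * OO (u t) x * (WW (u t) x * JJ (u t) x))
    linarith

theorem Geo.E_nn {T E c R H K r h r1 h1 T₁ C' C₀ : ℝ} {u : ℝ → V → V}
    {p : ℝ → V → ℝ} {φ : V → ℝ} (G : Geo T E c R H K r h r1 h1 T₁ C' C₀ u p φ) : 0 ≤ E := by
  have hTT : (T₁ + T) / 2 ∈ Ioo 0 T := by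
    have h1 := G.hT₁
    have h2 := G.hT₁T
    exact ⟨by linarith, by linarith⟩
  exact (integral_nonneg (fun _ => Finset.sum_nonneg fun _ _ => sq_nonneg _)).trans
    (G.sol.en _ hTT)

theorem gsq_int_nn (v : V → V) (S : Set V) : 0 ≤ ∫ x in S, W221.NS.gsq v x :=
  integral_nonneg fun _ => Finset.sum_nonneg fun _ _ => Finset.sum_nonneg fun _ _ => sq_nonneg _

theorem GD_nn (f : V → ℝ) : 0 ≤ GD f := integral_nonneg fun x => gr2_nonneg _ x

/-- IW-YB. -/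
theorem t_YB (hAlg : StmAlg) (hEqJ : StmEqJ) (hEqO : StmEqO) (hJnt : StmJnt) (hDt : StmDt)
    (hEn : Pool.Agent.Q67.AXI.StmEn) (hT1 : StmT1P) (hT2 : StmT2P) : S_YB := by
  intro T E c R H K r h r1 h1 T₁ C' C₀' u p φ G
  have hr : 0 < r := G.hr1.trans G.hr1r
  obtain ⟨C₁, hC₁, hT1⟩ := hT1 K c r h r1 h1 C' C₀' 2 G.hK G.hr1 G.hr1r G.hr2 G.hh1 G.hh1h G.hh
    G.hC' G.hC₀ (by norm_num) le_rfl
  obtain ⟨C₂, hC₂, hT2⟩ := hT2 K c r h r1 h1 C' C₀' 2 G.hK G.hr1 G.hr1r G.hr2 G.hh1 G.hh1h G.hh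
    G.hC' G.hC₀ (by norm_num) le_rfl
  obtain ⟨C₀, hC₀⟩ : ∃ C₀ : ℝ, C₀ = max 1 (max C₁ C₂) := ⟨_, rfl⟩
  have k1 : 1 ≤ C₀ := by rw [hC₀]; exact le_max_left _ _
  have k2 : C₁ ≤ C₀ := by rw [hC₀]; exact (le_max_left _ _).trans (le_max_right _ _)
  have k3 : C₂ ≤ C₀ := by rw [hC₀]; exact (le_max_right _ _).trans (le_max_right _ _)
  obtain ⟨M₀, hM₀3, hM₀⟩ := wt (α' := 2) (ε₀ := 1 / 16) k1 (by norm_num) (by norm_num)
  obtain ⟨Rm, hRm⟩ : ∃ Rm : ℝ, Rm = volume.real (Cy c r h) * (K ^ 2 * (12 * K ^ 2 + 4 * K)) :=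
    ⟨_, rfl⟩
  have hK := G.hK
  have hRm0 : 0 ≤ Rm := by rw [hRm]; positivity
  have hE := G.E_nn
  refine ⟨2 * C₀ + C₀ * E + 2 * Rm, M₀, by positivity, hM₀3, fun M hM => ?_⟩
  obtain ⟨w1, w2, w3⟩ := hM₀ M hM
  have hM3 : 3 ≤ M := hM₀3.trans hM
  have hM0 : 0 < M := by linarith
  have hlog : 0 < Real.log M := Real.log_pos (by linarith)
  obtain ⟨l, hl⟩ : ∃ l : ℝ, l = 8 * C₀ * Real.log M ^ (2 - 2 * 2 : ℝ) := ⟨_, rfl⟩
  rw [← hl] at w1 w2 w3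
  have hl0 : 0 < l := (Real.rpow_pos_of_pos hM0 _).trans_le w1
  refine ⟨l, w1, w2, fun t ht hcirc hWM => ?_⟩
  obtain ⟨D1, D2, hd1, hd2, e1, e2, hn0, hNE, hsum, hcl⟩ :=
    yd_core hAlg hEqJ hEqO hJnt hDt hEn G ht
  have ht0 : t ∈ Ioo 0 T := ⟨G.hT₁.trans_le ht.1, ht.2⟩
  have hu := sm_slice G.sol.smooth_u ht0
  have hax := G.sol.axi t ht0
  have hPM : PM M 1 = 0 := by
    unfold PM
    rw [if_neg]
    push Not
    exact Real.rpow_le_one_of_one_le_of_nonpos (by linarith) (by norm_num)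
  have x1 := hT1 M 1 (u t) φ hM3 one_pos hu hax hcl G.cut (G.out t ht)
    (fun x hx => (hcirc x hx).1) (fun x hx h1 _ => (hcirc x hx).2 h1)
  have x2 := hT2 M 1 (u t) φ hM3 one_pos hu hax G.cut
    (fun x hx => (hcirc x hx).1) (fun x hx h1 _ => (hcirc x hx).2 h1) hWM
  rw [hPM] at x1 x2
  rw [hsum] at x1
  rw [← hRm] at e1 e2
  have hMp : 1 ≤ M ^ (3 / 8 : ℝ) := Real.one_le_rpow (by linarith) (by norm_num)
  refine ⟨_, hd1.add (hd2.const_mul l), ?_⟩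
  have key := alg (A := GD (fun x => φ x * JJ (u t) x)) (B := GD (fun x => φ x * OO (u t) x))
    (C₁ := C₁) (C₂ := C₂) (C₀ := C₀) (L1 := Real.log M ^ (2 - 2 * 2 : ℝ))
    (L2 := Real.log M ^ (2 - 2 : ℝ)) (Mp := M ^ (3 / 8 : ℝ))
    (G := ∫ x in Co c r h, W221.NS.gsq (u t) x) (N := ∫ x in Co c r h, W221.NS.nsq (u t) x)
    (E := E) (J2 := ∫ x, φ x ^ 2 * JJ (u t) x ^ 2) (O2 := ∫ x, φ x ^ 2 * OO (u t) x ^ 2)
    (R := Rm) (PMv := 0) (l := l) (D1 := D1) (D2 := D2)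
    (X1 := |∫ x, φ x ^ 2 * JJ (u t) x * SS (u t) x|)
    (X2 := 2 * |∫ x, φ x ^ 2 * OO (u t) x * (WW (u t) x * JJ (u t) x)|)
    (GD_nn _) (GD_nn _) (gsq_int_nn _ _) k1 k2 k3 hMp
    hn0 hNE (integral_nonneg fun x => by positivity)
    (integral_nonneg fun x => by positivity) hRm0 le_rfl (by positivity) (by positivity) hl w2 hl0 w3
    x1 (by linarith) e1 e2
  linarith

/-- The second term without a bound of `WW`. -/
theorem t2g (hAlg : StmAlg) (hHar : StmHar) {c r h r1 h1 K C' C₀ P : ℝ} (hr2 : r ^ 2 ≤ Real.exp (-2))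
    (hC' : 0 ≤ C') (hC₀ : 0 ≤ C₀) (hP : 0 < P) {v : V → V} {φ : V → ℝ} (hv : ContDiff ℝ ∞ v)
    (hax : Axi v) (hcut : Cut c r h r1 h1 K φ) (hcb : ∀ x ∈ Co c r h, |circ v x| ≤ C₀ ∧
      (sg x ≠ 0 → sg x ≤ P → |circ v x| ≤ C' * |Real.log (sg x)| ^ (-2 : ℝ))) :
    4 * |∫ x, φ x ^ 2 * OO v x * (WW v x * JJ v x)|
      ≤ 4 * C' * √(GD (fun x => φ x * JJ v x) * GD (fun x => φ x * OO v x))
        + 4 * C₀ * P⁻¹ * ((∫ x, φ x ^ 2 * JJ v x ^ 2) + ∫ x, φ x ^ 2 * OO v x ^ 2) := by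
  obtain ⟨⟨sU, sW, sJ, sO⟩, -, -, hid⟩ := hAlg v hv hax
  have sf : ContDiff ℝ ∞ (fun x => φ x * JJ v x) := hcut.sm.mul sJ
  have sg' : ContDiff ℝ ∞ (fun x => φ x * OO v x) := hcut.sm.mul sO
  have cf : HasCompactSupport (fun x => φ x * JJ v x) := hcut.cs.mul_right
  have cg : HasCompactSupport (fun x => φ x * OO v x) := hcut.cs.mul_right
  have hco : ∀ x, φ x ≠ 0 → x ∈ Co c r h := fun x hx => hcut.supp (subset_tsupport _ hx)
  have hsgle : ∀ x ∈ Co c r h, sg x ≤ Real.exp (-2) := fun x hx => hx.1.le.trans hr2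
  have hf := hHar (fun x => φ x * JJ v x) (sf.of_le (by norm_cast)) cf
    (fun x hx => hsgle x (hco x (left_ne_zero_of_mul hx)))
  have hg := hHar (fun x => φ x * OO v x) (sg'.of_le (by norm_cast)) cg
    (fun x hx => hsgle x (hco x (left_ne_zero_of_mul hx)))
  have hfG := hf.2.trans (hardyGD sf cf)
  have hgG := hg.2.trans (hardyGD sg' cg)
  obtain ⟨w, hw⟩ : ∃ w : V → ℝ, w = fun x => (sg x * Real.log (sg x) ^ 2)⁻¹ := ⟨_, rfl⟩
  have hsg0 : ∀ x : V, 0 ≤ sg x := fun x => by unfold sg; positivity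
  have hw0 : ∀ x, 0 ≤ w x := fun x => by
    rw [hw]
    exact inv_nonneg.mpr (mul_nonneg (hsg0 x) (sq_nonneg _))
  have hfw : Integrable fun x => (φ x * JJ v x) ^ 2 * w x := by
    rw [hw]
    exact hf.1
  have hgw : Integrable fun x => (φ x * OO v x) ^ 2 * w x := by
    rw [hw]
    exact hg.1
  have hfG' : ∫ x, (φ x * JJ v x) ^ 2 * w x ≤ GD (fun x => φ x * JJ v x) := by
    rw [hw]
    exact hfG
  have hgG' : ∫ x, (φ x * OO v x) ^ 2 * w x ≤ GD (fun x => φ x * OO v x) := by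
    rw [hw]
    exact hgG
  have hwm : Measurable w := by
    have m1 : Measurable (sg : V → ℝ) := smSgT.continuous.measurable
    rw [hw]
    exact (m1.mul ((Real.measurable_log.comp m1).pow_const 2)).inv
  have hfgw : Integrable fun x => |φ x * JJ v x| * |φ x * OO v x| * w x := by
    apply (hfw.add hgw).mono
    · exact (((sf.continuous.abs.measurable).mul (sg'.continuous.abs.measurable)).mul
        hwm).aestronglyMeasurable
    · refine Filter.Eventually.of_forall fun x => ?_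
      rw [Real.norm_eq_abs, Real.norm_eq_abs]
      have k0 := hw0 x
      have a1 := sq_abs (φ x * JJ v x)
      have a2 := sq_abs (φ x * OO v x)
      have a3 := abs_nonneg (φ x * JJ v x)
      have a4 := abs_nonneg (φ x * OO v x)
      have b1 : 0 ≤ |φ x * JJ v x| * |φ x * OO v x| * w x := mul_nonneg (mul_nonneg a3 a4) k0
      have b2 : 0 ≤ (φ x * JJ v x) ^ 2 * w x + (φ x * OO v x) ^ 2 * w x :=
        add_nonneg (mul_nonneg (sq_nonneg _) k0) (mul_nonneg (sq_nonneg _) k0)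
      rw [abs_of_nonneg b1]
      show _ ≤ |(φ x * JJ v x) ^ 2 * w x + (φ x * OO v x) ^ 2 * w x|
      rw [abs_of_nonneg b2, ← add_mul]
      refine mul_le_mul_of_nonneg_right ?_ k0
      rw [← a1, ← a2]
      nlinarith [sq_nonneg (|φ x * JJ v x| - |φ x * OO v x|)]
  have hcs := csW hw0 hfw hgw hfgw
  have iJ : Integrable fun x => φ x ^ 2 * JJ v x ^ 2 := by
    refine Continuous.integrable_of_hasCompactSupport
      ((hcut.sm.continuous.pow 2).mul (sJ.continuous.pow 2)) ?_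
    have e : (fun x => φ x ^ 2 * JJ v x ^ 2) = fun x => φ x * (φ x * JJ v x ^ 2) := by
      funext x; ring
    rw [e]
    exact hcut.cs.mul_right
  have iO : Integrable fun x => φ x ^ 2 * OO v x ^ 2 := by
    refine Continuous.integrable_of_hasCompactSupport
      ((hcut.sm.continuous.pow 2).mul (sO.continuous.pow 2)) ?_
    have e : (fun x => φ x ^ 2 * OO v x ^ 2) = fun x => φ x * (φ x * OO v x ^ 2) := by
      funext x; ring
    rw [e]
    exact hcut.cs.mul_right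
  have iS : Integrable fun x => φ x ^ 2 * JJ v x ^ 2 + φ x ^ 2 * OO v x ^ 2 := iJ.add iO
  have hpt : ∀ᵐ x : V, ‖φ x ^ 2 * OO v x * (WW v x * JJ v x)‖ ≤
      C' * (|φ x * JJ v x| * |φ x * OO v x| * w x) +
      C₀ * P⁻¹ * (φ x ^ 2 * JJ v x ^ 2 + φ x ^ 2 * OO v x ^ 2) := by
    have hnull : ∀ᵐ x : V, sg x ≠ 0 := by
      rw [ae_iff]
      simp only [not_not]
      exact axNull
    filter_upwards [hnull] with x hx
    have hsx : 0 < sg x := lt_of_le_of_ne (hsg0 x) (Ne.symm hx)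
    by_cases hφ : φ x = 0
    · rw [hφ]
      simp
    have hxC := hco x hφ
    have hW : |circ v x| = sg x * |WW v x| := by
      rw [(hid x).2.2.2.2.2.2.2.2.1, abs_mul, abs_of_pos hsx]
    obtain ⟨hb1, hb2⟩ := hcb x hxC
    rw [hW] at hb1 hb2
    have hno : ‖φ x ^ 2 * OO v x * (WW v x * JJ v x)‖ =
        |WW v x| * (|φ x * JJ v x| * |φ x * OO v x|) := by
      rw [Real.norm_eq_abs, ← abs_mul, ← abs_mul]
      congr 1
      ring
    rw [hno]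
    have q1 : 0 ≤ |φ x * JJ v x| * |φ x * OO v x| := by positivity
    have q2 : 0 ≤ C' * (|φ x * JJ v x| * |φ x * OO v x| * w x) :=
      mul_nonneg hC' (mul_nonneg q1 (hw0 x))
    have q3 : 0 ≤ C₀ * P⁻¹ * (φ x ^ 2 * JJ v x ^ 2 + φ x ^ 2 * OO v x ^ 2) := by positivity
    rcases le_or_gt (sg x) P with hc1 | hc1
    · have hb := hb2 hx hc1
      have hlog : Real.log (sg x) < 0 := Real.log_neg hsx ((hsgle x hxC).trans_lt (by
        rw [Real.exp_lt_one_iff]; norm_num))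
      have habs : 0 < |Real.log (sg x)| := abs_pos.2 hlog.ne
      have e3 : |Real.log (sg x)| ^ (-2 : ℝ) = (Real.log (sg x) ^ 2)⁻¹ := by
        rw [Real.rpow_neg habs.le, ← sq_abs]
        norm_cast
      rw [e3] at hb
      have h3 : |WW v x| ≤ C' * w x := by
        rw [hw]
        show |WW v x| ≤ C' * (sg x * Real.log (sg x) ^ 2)⁻¹
        rw [mul_inv, ← mul_assoc, mul_comm C' (sg x)⁻¹, mul_assoc, ← div_eq_inv_mul,
          le_div_iff₀ hsx, mul_comm]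
        exact hb
      have h4 : |WW v x| * (|φ x * JJ v x| * |φ x * OO v x|) ≤
          C' * w x * (|φ x * JJ v x| * |φ x * OO v x|) := mul_le_mul_of_nonneg_right h3 q1
      linarith
    · have h3 : |WW v x| ≤ C₀ * P⁻¹ := by
        rw [← div_eq_mul_inv, le_div_iff₀ hP]
        have := abs_nonneg (WW v x)
        nlinarith
      have h4 : |WW v x| * (|φ x * JJ v x| * |φ x * OO v x|) ≤
          C₀ * P⁻¹ * (|φ x * JJ v x| * |φ x * OO v x|) := mul_le_mul_of_nonneg_right h3 q1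
      have h5 : |φ x * JJ v x| * |φ x * OO v x| ≤ φ x ^ 2 * JJ v x ^ 2 + φ x ^ 2 * OO v x ^ 2 := by
        have a1 := sq_abs (φ x * JJ v x)
        have a2 := sq_abs (φ x * OO v x)
        nlinarith [sq_nonneg (|φ x * JJ v x| - |φ x * OO v x|), sq_nonneg (φ x * JJ v x),
          sq_nonneg (φ x * OO v x)]
      have h6 : C₀ * P⁻¹ * (|φ x * JJ v x| * |φ x * OO v x|) ≤
          C₀ * P⁻¹ * (φ x ^ 2 * JJ v x ^ 2 + φ x ^ 2 * OO v x ^ 2) :=
        mul_le_mul_of_nonneg_left h5 (by positivity)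
      linarith
  have hI : ‖∫ x, φ x ^ 2 * OO v x * (WW v x * JJ v x)‖ ≤
      ∫ x, (C' * (|φ x * JJ v x| * |φ x * OO v x| * w x) +
      C₀ * P⁻¹ * (φ x ^ 2 * JJ v x ^ 2 + φ x ^ 2 * OO v x ^ 2)) :=
    norm_integral_le_of_norm_le ((hfgw.const_mul C').add (iS.const_mul (C₀ * P⁻¹))) hpt
  rw [integral_add (hfgw.const_mul C') (iS.const_mul (C₀ * P⁻¹)), integral_const_mul,
    integral_const_mul, integral_add iJ iO, Real.norm_eq_abs] at hI
  have hsq : √((∫ x, (φ x * JJ v x) ^ 2 * w x) * ∫ x, (φ x * OO v x) ^ 2 * w x) ≤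
      √(GD (fun x => φ x * JJ v x) * GD (fun x => φ x * OO v x)) := by
    apply Real.sqrt_le_sqrt
    apply mul_le_mul hfG' hgG'
      (integral_nonneg fun x => mul_nonneg (sq_nonneg _) (hw0 x)) (GD_nn _)
  have h7 := mul_le_mul_of_nonneg_left (hcs.trans hsq) hC'
  linarith

/-- IW-YG. -/
theorem t_YG (hAlg : StmAlg) (hHar : StmHar) (hEqJ : StmEqJ) (hEqO : StmEqO) (hJnt : StmJnt)
    (hDt : StmDt) (hEn : Pool.Agent.Q67.AXI.StmEn) (hT1 : StmT1P) : S_YG := by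
  intro T E c R H K r h r1 h1 T₁ C' C₀' u p φ G
  have hr : 0 < r := G.hr1.trans G.hr1r
  obtain ⟨C₁, hC₁, hT1⟩ := hT1 K c r h r1 h1 C' C₀' 2 G.hK G.hr1 G.hr1r G.hr2 G.hh1 G.hh1h G.hh
    G.hC' G.hC₀ (by norm_num) le_rfl
  obtain ⟨C₂, hC₂e⟩ : ∃ C₂ : ℝ, C₂ = 4 * C' + 4 * C₀' := ⟨_, rfl⟩
  have hC' := G.hC'
  have hC₀' := G.hC₀
  have hC₂ : 0 ≤ C₂ := by rw [hC₂e]; positivity
  obtain ⟨C₀, hC₀⟩ : ∃ C₀ : ℝ, C₀ = max 1 (max C₁ C₂) := ⟨_, rfl⟩
  have k1 : 1 ≤ C₀ := by rw [hC₀]; exact le_max_left _ _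
  have k2 : C₁ ≤ C₀ := by rw [hC₀]; exact (le_max_left _ _).trans (le_max_right _ _)
  have k3 : C₂ ≤ C₀ := by rw [hC₀]; exact (le_max_right _ _).trans (le_max_right _ _)
  obtain ⟨M, hM3, hM₀⟩ := wt (α' := 2) (ε₀ := 1 / 16) k1 (by norm_num) (by norm_num)
  obtain ⟨w1, w2, w3⟩ := hM₀ M le_rfl
  obtain ⟨Rm, hRm⟩ : ∃ Rm : ℝ, Rm = volume.real (Cy c r h) * (K ^ 2 * (12 * K ^ 2 + 4 * K)) :=
    ⟨_, rfl⟩
  have hK := G.hK
  have hRm0 : 0 ≤ Rm := by rw [hRm]; positivity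
  have hE := G.E_nn
  have hM0 : 0 < M := by linarith
  have hlog : 0 < Real.log M := Real.log_pos (by linarith)
  obtain ⟨l, hl⟩ : ∃ l : ℝ, l = 8 * C₀ * Real.log M ^ (2 - 2 * 2 : ℝ) := ⟨_, rfl⟩
  rw [← hl] at w1 w2 w3
  have hl0 : 0 < l := (Real.rpow_pos_of_pos hM0 _).trans_le w1
  have hMp : 1 ≤ M ^ (3 / 8 : ℝ) := Real.one_le_rpow (by linarith) (by norm_num)
  obtain ⟨Q, hQ⟩ : ∃ Q : ℝ, Q = (2 * C₀ + C₀ * E + 2 * Rm) * M ^ (3 / 8 : ℝ) + 2 * C₀ / l :=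
    ⟨_, rfl⟩
  have hQ1 : (2 * C₀ + C₀ * E + 2 * Rm) * M ^ (3 / 8 : ℝ) ≤ Q := by
    rw [hQ]
    have : 0 ≤ 2 * C₀ / l := by positivity
    linarith
  have hQ2 : 2 * C₀ / l ≤ Q := by
    rw [hQ]
    have : 0 ≤ (2 * C₀ + C₀ * E + 2 * Rm) * M ^ (3 / 8 : ℝ) := by positivity
    linarith
  have hQ0 : 0 ≤ Q := le_trans (by positivity) hQ1
  refine ⟨Q, l, hQ0, hl0, w2, ?_⟩
  intro P hP hP1 t ht hcirc
  obtain ⟨D1, D2, hd1, hd2, e1, e2, hn0, hNE, hsum, hcl⟩ :=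
    yd_core hAlg hEqJ hEqO hJnt hDt hEn G ht
  have ht0 : t ∈ Ioo 0 T := ⟨G.hT₁.trans_le ht.1, ht.2⟩
  have hu := sm_slice G.sol.smooth_u ht0
  have hax := G.sol.axi t ht0
  have hPM : PM M P ≤ P⁻¹ := by
    unfold PM
    split_ifs
    · exact le_rfl
    · positivity
  have x1 := hT1 M P (u t) φ hM3 hP hu hax hcl G.cut (G.out t ht)
    (fun x hx => (hcirc x hx).1) (fun x hx => (hcirc x hx).2)
  have x2 := t2g hAlg hHar G.hr2 hC' hC₀' hP hu hax G.cut hcirc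
  rw [hsum] at x1
  rw [← hRm] at e1 e2
  obtain ⟨J2, hJ2⟩ : ∃ J2 : ℝ, J2 = ∫ x, φ x ^ 2 * JJ (u t) x ^ 2 := ⟨_, rfl⟩
  obtain ⟨O2, hO2⟩ : ∃ O2 : ℝ, O2 = ∫ x, φ x ^ 2 * OO (u t) x ^ 2 := ⟨_, rfl⟩
  obtain ⟨Gq, hGq⟩ : ∃ Gq : ℝ, Gq = ∫ x in Co c r h, W221.NS.gsq (u t) x := ⟨_, rfl⟩
  have hJ20 : 0 ≤ J2 := by rw [hJ2]; exact integral_nonneg fun x => by positivity
  have hO20 : 0 ≤ O2 := by rw [hO2]; exact integral_nonneg fun x => by positivity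
  have hGq0 : 0 ≤ Gq := by rw [hGq]; exact gsq_int_nn _ _
  rw [← hO2] at x1 x2
  rw [← hJ2] at x2
  rw [← hGq] at x1
  rw [← hJ2, ← hO2, ← hGq]
  have hPi : 0 < P⁻¹ := by positivity
  refine ⟨_, hd1.add (hd2.const_mul l), ?_⟩
  have e0 : Real.log M ^ (2 - 2 : ℝ) = 1 := by
    rw [sub_self, Real.rpow_zero]
  have key := alg (A := GD (fun x => φ x * JJ (u t) x)) (B := GD (fun x => φ x * OO (u t) x))
    (C₁ := C₁) (C₂ := C₂) (C₀ := C₀) (L1 := Real.log M ^ (2 - 2 * 2 : ℝ))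
    (L2 := Real.log M ^ (2 - 2 : ℝ)) (Mp := M ^ (3 / 8 : ℝ))
    (G := Gq) (N := ∫ x in Co c r h, W221.NS.nsq (u t) x)
    (E := E) (J2 := J2) (O2 := O2)
    (R := Rm) (PMv := P⁻¹) (l := l) (D1 := D1) (D2 := D2)
    (X1 := |∫ x, φ x ^ 2 * JJ (u t) x * SS (u t) x|)
    (X2 := 2 * |∫ x, φ x ^ 2 * OO (u t) x * (WW (u t) x * JJ (u t) x)|)
    (GD_nn _) (GD_nn _) hGq0 k1 k2 k3 hMp
    hn0 hNE hJ20 hO20 hRm0 hPi.le (by positivity) (by positivity) hl w2 hl0 w3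
    (by
      refine x1.trans ?_
      have : C₁ * PM M P * (1 + O2) ≤ C₁ * P⁻¹ * (1 + O2) := by gcongr
      linarith)
    (by
      rw [e0]
      have g1 : 0 ≤ √(GD (fun x => φ x * JJ (u t) x) * GD (fun x => φ x * OO (u t) x)) :=
        Real.sqrt_nonneg _
      have g2 : 0 ≤ P⁻¹ * (J2 + O2) := by positivity
      have g3 : 0 ≤ C₂ * M ^ (3 / 8 : ℝ) * Gq := by positivity
      have g4 : 4 * C' ≤ C₂ := by rw [hC₂e]; linarith
      have g5 : 4 * C₀' ≤ C₂ := by rw [hC₂e]; linarith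
      have g6 := mul_le_mul_of_nonneg_right g4 g1
      have g7 := mul_le_mul_of_nonneg_right g5 g2
      nlinarith) e1 e2
  refine key.trans ?_
  have f1 : (2 * C₀ + C₀ * E + 2 * Rm) * M ^ (3 / 8 : ℝ) * (1 + Gq) ≤ Q * (1 + Gq) :=
    mul_le_mul_of_nonneg_right hQ1 (by positivity)
  have f2 : 2 * C₀ * P⁻¹ * (1 + (J2 + l * O2) / l) ≤ Q / P * (1 + (J2 + l * O2)) := by
    have f3 : 1 + (J2 + l * O2) / l ≤ 1 / l * (1 + (J2 + l * O2)) := by
      have : 1 ≤ 1 / l := by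
        rw [le_div_iff₀ hl0]
        linarith
      have h5 : (J2 + l * O2) / l = 1 / l * (J2 + l * O2) := by ring
      rw [h5]
      linarith
    calc 2 * C₀ * P⁻¹ * (1 + (J2 + l * O2) / l) ≤ 2 * C₀ * P⁻¹ * (1 / l * (1 + (J2 + l * O2))) :=
          mul_le_mul_of_nonneg_left f3 (by positivity)
      _ = 2 * C₀ / l * (P⁻¹ * (1 + (J2 + l * O2))) := by ring
      _ ≤ Q * (P⁻¹ * (1 + (J2 + l * O2))) := mul_le_mul_of_nonneg_right hQ2 (by positivity)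
      _ = Q / P * (1 + (J2 + l * O2)) := by ring
  linarith

end Pool.Agent.D0H49.AX
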