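import Pool.Agent.D0H49.AX.Stm
import Pool.Agent.Q285.AXI.Yi
import Pool.Agent.D0H49.AX.Yd

/-!
Project IW (helper49): smoothing in a good window.
-/

set_option autoImplicit false

open MeasureTheory Set Metric Filter Topology
open scoped ContDiff
open H459R3.NS Pool.Agent.W268.NS Pool.Agent.Q67.VD

namespace Pool.Agent.D0H49.AX

open Pool.Agent.Q85.CC Pool.Agent.Q85.CL Pool.Agent.TH305.AX Pool.Agent.Q67.AXI
open Pool.Agent.Q285.AXI (slice co_mono gsq_nn dis_int)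

theorem smooth_good (hJnt : StmJnt) (hDt : StmDt) (hU : StmU) (hYG : S_YG) (hINT : S_INT)
    (hODE : S_ODE) (hSM : S_SM) {T E c R H K r h r1 h1 T₁ C' C₀ : ℝ} {u : ℝ → V → V}
    {p : ℝ → V → ℝ} {φ : V → ℝ} (G₀ : Geo T E c R H K r h r1 h1 T₁ C' C₀ u p φ)
    (hcb : ∀ t ∈ Ico T₁ T, ∀ x ∈ Cy c r h, |circ (u t) x| ≤ C₀) :
    ∃ C₄ : ℝ, 1 ≤ C₄ ∧ ∀ P s₀ s₁ : ℝ, 0 < P → P ≤ 1 → T₁ ≤ s₀ → s₁ = s₀ + P → s₁ < T →
      (∀ t ∈ Icc s₀ s₁, ∀ x ∈ Co c r h, sg x ≠ 0 → sg x ≤ P →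
        |circ (u t) x| ≤ C' * |Real.log (sg x)| ^ (-2 : ℝ)) →
      (∫ x, φ x ^ 2 * JJ (u s₁) x ^ 2) + (∫ x, φ x ^ 2 * OO (u s₁) x ^ 2) ≤ C₄ / P ^ 3 ∧
      ∀ x ∈ Cy c r h, |WW (u s₁) x| ≤ C₄ / P ^ 3 := by
  have hA := G₀.sol
  have hr1 := G₀.hr1
  have hr1r := G₀.hr1r
  have hrR := G₀.hrR
  have hh1 := G₀.hh1
  have hh1h := G₀.hh1h
  have hhH := G₀.hhH
  have hT₁ := G₀.hT₁
  have hT₁T := G₀.hT₁T
  have hK := G₀.hK
  have hcut := G₀.cut
  have hr0 : 0 < r := hr1.trans hr1r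
  have hh0 : 0 < h := hh1.trans hh1h
  have hr1' : r ≤ 1 := by
    by_contra hcon
    push Not at hcon
    have h2 := G₀.hr2
    have : Real.exp (-2) < 1 := by
      rw [Real.exp_lt_one_iff]
      norm_num
    nlinarith
  obtain ⟨Q, l, hQ, hl0, hl1, hYG'⟩ := hYG T E c R H K r h r1 h1 T₁ C' C₀ u p φ G₀
  obtain ⟨CU, hCU, hU'⟩ := hU K c r h r1 h1 hK hr1 hr1r hr1' hh1 hh1h G₀.hh
  have hin : ∀ x ∈ Cy c r1 h1, x ∈ Co c r h := by
    intro x hx
    refine ⟨hx.1.trans_lt ?_, hx.2.trans_lt hh1h⟩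
    exact pow_lt_pow_left₀ hr1r hr1.le (by norm_num)
  obtain ⟨CS, hCS, hSm'⟩ := hSM T E c R H r1 h1 T₁ K C₀ u p hA hr1 (hr1r.trans hrR) hh1
    (hh1h.trans hhH) hT₁ hT₁T (by
      intro t ht x hx
      have hx' := hin x hx
      refine ⟨hcb t ht x ⟨hx'.1.le, hx'.2.le⟩, ?_⟩
      intro hb
      refine (G₀.out t ht x ⟨⟨hx'.1.le, hx'.2.le⟩, ?_⟩).2.2.1
      rcases hb with hb | hb
      · left; exact hb.ge
      · right; exact hb.ge)
  have hsub : Co c r h ⊆ Co c R H := co_mono hr0 hrR hhH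
  obtain ⟨G, hG⟩ : ∃ G : ℝ → ℝ, G = fun t => ∫ x in Co c r h, W221.NS.gsq (u t) x := ⟨_, rfl⟩
  have hGint : IntegrableOn G (Ioo 0 T) := by rw [hG]; exact dis_int hsub hA.dis
  have hGnn : ∀ t, 0 ≤ G t := by
    intro t
    rw [hG]
    exact integral_nonneg fun x => gsq_nn _ x
  obtain ⟨D, hD⟩ : ∃ D : ℝ, D = ∫ s in Ioo 0 T, G s := ⟨_, rfl⟩
  have hD0 : 0 ≤ D := by rw [hD]; exact integral_nonneg fun x => hGnn x
  obtain ⟨C₅, hC₅⟩ : ∃ C₅ : ℝ, C₅ = Real.exp Q * (1 + 128 * (1 + Q) * (1 + D) ^ 2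
      + Q * (1 + D)) := ⟨_, rfl⟩
  have hC50 : 0 < C₅ := by rw [hC₅]; positivity
  obtain ⟨C₆, hC₆⟩ : ∃ C₆ : ℝ, C₆ = C₅ / l := ⟨_, rfl⟩
  have hC60 : 0 < C₆ := by rw [hC₆]; positivity
  have hJJ0 : ∀ s, 0 ≤ ∫ x, φ x ^ 2 * JJ (u s) x ^ 2 := fun s => integral_nonneg fun x => by positivity
  have hOO0 : ∀ s, 0 ≤ ∫ x, φ x ^ 2 * OO (u s) x ^ 2 := fun s => integral_nonneg fun x => by positivity
  refine ⟨C₅ + C₆ + K + CS * (2 * (CU + 1) * (1 + C₆)) + 1, by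
    have : 0 ≤ CS * (2 * (CU + 1) * (1 + C₆)) := by positivity
    linarith, ?_⟩
  intro P s₀ s₁ hP hP1 hs₀ hs₁ hs₁T hlog
  have hs01 : s₀ < s₁ := by linarith
  have hIc : ∀ t ∈ Icc s₀ s₁, t ∈ Ico T₁ T := fun t ht => ⟨hs₀.trans ht.1, ht.2.trans_lt hs₁T⟩
  have hIo : ∀ t ∈ Icc s₀ s₁, t ∈ Ioo 0 T := fun t ht =>
    ⟨hT₁.trans_le (hs₀.trans ht.1), ht.2.trans_lt hs₁T⟩
  obtain ⟨Y, hY⟩ : ∃ Y : ℝ → ℝ, Y = fun s => (∫ x, φ x ^ 2 * JJ (u s) x ^ 2)
      + l * ∫ x, φ x ^ 2 * OO (u s) x ^ 2 := ⟨_, rfl⟩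
  have hYnn : ∀ s, 0 ≤ Y s := by
    intro s
    rw [hY]
    exact add_nonneg (hJJ0 s) (mul_nonneg hl0.le (hOO0 s))
  have hder : ∀ s ∈ Icc s₀ s₁, ∃ D' : ℝ, HasDerivAt Y D' s ∧
      D' ≤ -(GD (fun x => φ x * JJ (u s) x) + l * GD (fun x => φ x * OO (u s) x))
        + Q * (1 + G s) + Q / P * (1 + Y s) := by
    intro s hs
    obtain ⟨D', hD1, hD2⟩ := hYG' P hP hP1 s (hIc s hs) (fun x hx =>
      ⟨hcb s (hIc s hs) x ⟨hx.1.le, hx.2.le⟩, hlog s hs x hx⟩)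
    refine ⟨D', by rw [hY]; exact hD1, ?_⟩
    rw [hY, hG]
    exact hD2
  choose! Y' hY1 hY2 using hder
  have hBJ : ContinuousOn (fun s => GD (fun x => φ x * JJ (u s) x)) (Ioo 0 T) :=
    (hDt T (fun s => JJ (u s)) φ (hJnt T u hA.smooth_u).2.2.1 hcut.sm hcut.cs).1
  have hBO : ContinuousOn (fun s => GD (fun x => φ x * OO (u s) x)) (Ioo 0 T) :=
    (hDt T (fun s => OO (u s)) φ (hJnt T u hA.smooth_u).2.2.2 hcut.sm hcut.cs).1
  have hsubI : Icc s₀ s₁ ⊆ Ioo 0 T := fun s hs => hIo s hs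
  have hGD : ∫ s in s₀..s₁, G s ≤ D := by
    rw [intervalIntegral.integral_of_le hs01.le, hD]
    refine setIntegral_mono_set hGint ?_ ?_
    · exact Eventually.of_forall fun s => hGnn s
    · exact (Ioc_subset_Icc_self.trans hsubI).eventuallyLE
  obtain ⟨t₀, ht₀, hbd⟩ := hODE s₀ s₁ D Q P l Y (fun s => GD (fun x => φ x * JJ (u s) x))
    (fun s => GD (fun x => φ x * OO (u s) x)) G Y' hs01 (by linarith) hP1 hQ hD0 hl0 hl1
    (fun s _ => hYnn s) hY1 (fun s _ => GD_nn _) (fun s _ => GD_nn _) (hBJ.mono hsubI)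
    (hBO.mono hsubI) hGnn (hGint.mono_set hsubI) hGD hY2 (by
      intro s hs
      obtain ⟨i1, i2⟩ := hINT c r h r1 h1 K (u s) φ hr0 (slice hA.smooth_u (hIo s hs))
        (hA.axi s (hIo s hs)) hcut
      have g0 : ∫ x in Co c r h, W221.NS.gsq (u s) x = G s := by rw [hG]
      rw [g0] at i1 i2
      have e1 := hJJ0 s
      have e2 := hOO0 s
      have e3 := GD_nn (fun x => φ x * JJ (u s) x)
      have e4 := GD_nn (fun x => φ x * OO (u s) x)
      have e5 := hGnn s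
      have e6 : Y s = (∫ x, φ x ^ 2 * JJ (u s) x ^ 2) + l * ∫ x, φ x ^ 2 * OO (u s) x ^ 2 := by
        rw [hY]
      rw [e6]
      obtain ⟨J2, hJ2⟩ : ∃ J2 : ℝ, J2 = ∫ x, φ x ^ 2 * JJ (u s) x ^ 2 := ⟨_, rfl⟩
      obtain ⟨O2, hO2⟩ : ∃ O2 : ℝ, O2 = ∫ x, φ x ^ 2 * OO (u s) x ^ 2 := ⟨_, rfl⟩
      obtain ⟨A, hAd⟩ : ∃ A : ℝ, A = GD (fun x => φ x * JJ (u s) x) := ⟨_, rfl⟩
      obtain ⟨B, hBd⟩ : ∃ B : ℝ, B = GD (fun x => φ x * OO (u s) x) := ⟨_, rfl⟩
      rw [← hJ2] at i1 e1 ⊢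
      rw [← hO2] at i2 e2 ⊢
      show (J2 + l * O2) ^ 2 ≤ 4 * (1 + G s) * (GD (fun x => φ x * JJ (u s) x)
        + l * GD (fun x => φ x * OO (u s) x))
      rw [← hAd] at i1 e3 ⊢
      rw [← hBd] at i2 e4 ⊢
      have f1 : (J2 + l * O2) ^ 2 ≤ 2 * J2 ^ 2 + 2 * l ^ 2 * O2 ^ 2 := by
        nlinarith [sq_nonneg (J2 - l * O2)]
      have f2 : l ^ 2 * O2 ^ 2 ≤ l * (2 * G s * B) := by
        have f3 : l ^ 2 * O2 ^ 2 ≤ l * O2 ^ 2 := by
          apply mul_le_mul_of_nonneg_right _ (sq_nonneg _)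
          nlinarith
        exact f3.trans (mul_le_mul_of_nonneg_left i2 hl0.le)
      have f4 : 0 ≤ A + l * B := by positivity
      nlinarith)
  have htm := ht₀.2
  have ht01 : t₀ ≤ s₁ := by linarith
  have ht01' : s₁ - t₀ ≥ P / 2 := by linarith
  have hP3 : 0 < P ^ 3 := by positivity
  have hP31 : P ^ 3 ≤ 1 := pow_le_one₀ hP.le hP1
  obtain ⟨X, hX⟩ : ∃ X : ℝ, X = 1 / P ^ 3 := ⟨_, rfl⟩
  have hX1 : 1 ≤ X := by rw [hX, le_div_iff₀ hP3]; linarith
  have hXP : 1 / P ≤ X := by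
    rw [hX]
    apply one_div_le_one_div_of_le hP3
    have : P ^ 2 ≤ 1 := pow_le_one₀ hP.le hP1
    nlinarith
  have hmax : Real.exp Q * (1 + 32 * (1 + Q) * (1 + D) ^ 2 / (P * ((s₁ - s₀) / 2) ^ 2)
      + Q * (1 + D)) ≤ C₅ * X := by
    have e1 : s₁ - s₀ = P := by linarith
    have e2 : 32 * (1 + Q) * (1 + D) ^ 2 / (P * (P / 2) ^ 2) = 128 * (1 + Q) * (1 + D) ^ 2 * X := by
      rw [hX]
      field_simp
      ring
    rw [e1, e2, hC₅, mul_assoc (Real.exp Q)]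
    apply mul_le_mul_of_nonneg_left _ (Real.exp_pos Q).le
    have e3 : Q * (1 + D) ≤ Q * (1 + D) * X := by
      have : 0 ≤ Q * (1 + D) := by positivity
      nlinarith
    linarith
  have hend := (hbd s₁ ⟨ht01, le_rfl⟩).trans hmax
  have hIB0 : 0 ≤ ∫ s in t₀..s₁, GD (fun x => φ x * OO (u s) x) :=
    intervalIntegral.integral_nonneg ht01 (fun s _ => GD_nn _)
  have hYend : Y s₁ ≤ C₅ * X := by
    have := mul_nonneg hl0.le hIB0
    linarith
  have hIB : ∫ s in t₀..s₁, GD (fun x => φ x * OO (u s) x) ≤ C₆ * X := by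
    rw [hC₆, div_mul_eq_mul_div, le_div_iff₀ hl0]
    have := hYnn s₁
    linarith
  have hYe : Y s₁ = (∫ x, φ x ^ 2 * JJ (u s₁) x ^ 2) + l * ∫ x, φ x ^ 2 * OO (u s₁) x ^ 2 := by
    rw [hY]
  have hJend : ∫ x, φ x ^ 2 * JJ (u s₁) x ^ 2 ≤ C₅ * X := by
    have := mul_nonneg hl0.le (hOO0 s₁)
    linarith
  have hOend : ∫ x, φ x ^ 2 * OO (u s₁) x ^ 2 ≤ C₆ * X := by
    rw [hC₆, div_mul_eq_mul_div, le_div_iff₀ hl0]
    have := hJJ0 s₁
    linarith
  obtain ⟨Λ, hΛ⟩ : ∃ Λ : ℝ, Λ = 2 * (CU + 1) * (1 + C₆) * X := ⟨_, rfl⟩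
  have hΛ2 : 2 * X ≤ Λ := by
    rw [hΛ]
    apply mul_le_mul_of_nonneg_right _ (by linarith)
    nlinarith
  have hΛ1 : 1 ≤ Λ := by linarith
  have hΛ0 : 0 < Λ := by linarith
  have hΛP : 1 / Λ ≤ P / 2 := by
    rw [div_le_iff₀ hΛ0]
    have h2 : 1 ≤ P * X := by
      rw [div_le_iff₀ hP] at hXP
      linarith
    nlinarith
  have hfac : C₅ + C₆ + K + CS * (2 * (CU + 1) * (1 + C₆)) + 1 ≥ 0 := by positivity
  have eX : ∀ C : ℝ, C / P ^ 3 = C * X := fun C => by rw [hX]; ring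
  refine ⟨?_, fun x hx => ?_⟩
  · rw [eX]
    have : 0 ≤ CS * (2 * (CU + 1) * (1 + C₆)) := by positivity
    nlinarith
  · rw [eX]
    have hs₁I : s₁ ∈ Ico T₁ T := hIc s₁ ⟨hs01.le, le_rfl⟩
    have q0 : 0 ≤ CS * (2 * (CU + 1) * (1 + C₆)) := by positivity
    by_cases hxo : r1 ^ 2 ≤ sg x ∨ h1 ≤ |x 2 - c|
    · have h5 := (G₀.out s₁ hs₁I x ⟨hx, hxo⟩).2.2.1
      have : K ≤ K * X := by nlinarith
      nlinarith
    · push Not at hxo
      have hsub' : Icc t₀ s₁ ⊆ Ioo 0 T := fun s hs => hIo s ⟨ht₀.1.trans hs.1, hs.2⟩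
      obtain ⟨g, hg⟩ : ∃ g : ℝ → ℝ, g = fun s => √(CU * (1 + GD (fun x => φ x * OO (u s) x))) :=
        ⟨_, rfl⟩
      have hgc : ContinuousOn g (Icc t₀ s₁) := by
        rw [hg]
        apply ContinuousOn.sqrt
        apply continuousOn_const.mul
        apply continuousOn_const.add
        exact hBO.mono hsub'
      have ht₀I : t₀ ∈ Ico T₁ T := hIc t₀ ⟨ht₀.1, ht01⟩
      have h5 := (hSm' t₀ ht₀I 0 le_rfl).2 (1 / Λ) ⟨by positivity, by rw [div_le_one hΛ0]; exact hΛ1⟩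
        s₁ ⟨ht01, hs₁T⟩ (by linarith) g hgc (by
        intro s hs y hy
        have hs' : s ∈ Ioo 0 T := hsub' hs
        obtain ⟨-, -, u3, -⟩ := hU' (u s) φ (slice hA.smooth_u hs') (hA.axi s hs')
          (fun x hx => hA.divfree s hs' x (hsub hx)) hcut
          (G₀.out s (hIc s ⟨ht₀.1.trans hs.1, hs.2⟩))
        have h6 := u3 y
        rw [hcut.one y hy, one_mul] at h6
        rw [hg]
        exact Real.abs_le_sqrt h6) (by
        obtain ⟨t₂, ht₂⟩ : ∃ t₂ : ℝ, t₂ = s₁ - 1 / Λ := ⟨_, rfl⟩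
        rw [← ht₂]
        have hΛi : 0 < 1 / Λ := by positivity
        have ht₂1 : t₀ ≤ t₂ := by rw [ht₂]; linarith
        have ht₂3 : t₂ ≤ s₁ := by rw [ht₂]; linarith
        have hBcc : ContinuousOn (fun s => GD (fun x => φ x * OO (u s) x)) (Icc t₀ s₁) :=
          hBO.mono hsub'
        have hIcc : Icc t₂ s₁ ⊆ Icc t₀ s₁ := Icc_subset_Icc_left ht₂1
        have i1 : IntervalIntegrable g volume t₂ s₁ :=
          ((hgc.mono hIcc).intervalIntegrable_of_Icc ht₂3)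
        have i2 : IntervalIntegrable (fun s => GD (fun x => φ x * OO (u s) x)) volume t₂ s₁ :=
          ((hBcc.mono hIcc).intervalIntegrable_of_Icc ht₂3)
        have i3 : IntervalIntegrable (fun s => GD (fun x => φ x * OO (u s) x)) volume t₀ t₂ :=
          ((hBcc.mono (Icc_subset_Icc_right ht₂3)).intervalIntegrable_of_Icc ht₂1)
        have hpt : ∀ s ∈ Icc t₂ s₁, g s ≤
            Λ / 2 + CU / (2 * Λ) * (1 + GD (fun x => φ x * OO (u s) x)) := by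
          intro s _
          rw [hg]
          simp only
          have hX' : 0 ≤ CU * (1 + GD (fun x => φ x * OO (u s) x)) :=
            mul_nonneg hCU (by linarith [GD_nn (fun x => φ x * OO (u s) x)])
          have h7 := Real.sq_sqrt hX'
          have h8 : √(CU * (1 + GD (fun x => φ x * OO (u s) x))) ≤
              Λ / 2 + (CU * (1 + GD (fun x => φ x * OO (u s) x))) / (2 * Λ) := by
            rw [← h7, Real.sqrt_sq (Real.sqrt_nonneg _)]
            have h9 : Λ / 2 + √(CU * (1 + GD (fun x => φ x * OO (u s) x))) ^ 2 / (2 * Λ)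
                - √(CU * (1 + GD (fun x => φ x * OO (u s) x))) =
                (Λ - √(CU * (1 + GD (fun x => φ x * OO (u s) x)))) ^ 2 / (2 * Λ) := by
              field_simp
              ring
            have h10 : 0 ≤ (Λ - √(CU * (1 + GD (fun x => φ x * OO (u s) x)))) ^ 2 / (2 * Λ) := by
              positivity
            linarith
          refine h8.trans (le_of_eq ?_)
          ring
        have hint := intervalIntegral.integral_mono_on ht₂3 i1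
          ((intervalIntegrable_const (c := Λ / 2)).add
            (((intervalIntegrable_const (c := (1 : ℝ))).add i2).const_mul (CU / (2 * Λ)))) hpt
        refine hint.trans ?_
        rw [intervalIntegral.integral_add intervalIntegrable_const
            (((intervalIntegrable_const (c := (1 : ℝ))).add i2).const_mul (CU / (2 * Λ))),
          intervalIntegral.integral_const_mul,
          intervalIntegral.integral_add intervalIntegrable_const i2,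
          intervalIntegral.integral_const, intervalIntegral.integral_const, smul_eq_mul,
          smul_eq_mul, mul_one]
        have hlen : s₁ - t₂ = 1 / Λ := by rw [ht₂]; ring
        have hlen1 : 1 / Λ ≤ 1 := by rw [div_le_one hΛ0]; exact hΛ1
        have hIB' : ∫ s in t₂..s₁, GD (fun x => φ x * OO (u s) x) ≤ C₆ * X := by
          have h11 := hIB
          rw [← intervalIntegral.integral_add_adjacent_intervals i3 i2] at h11
          have h12 : 0 ≤ ∫ s in t₀..t₂, GD (fun x => φ x * OO (u s) x) :=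
            intervalIntegral.integral_nonneg ht₂1 (fun s _ => GD_nn _)
          linarith
        rw [hlen]
        have h13 : 1 / Λ * (Λ / 2) = 1 / 2 := by field_simp
        have h14 : CU / (2 * Λ) * (1 / Λ + ∫ s in t₂..s₁, GD (fun x => φ x * OO (u s) x))
            ≤ 1 / 2 := by
          have h15 : 1 / Λ + ∫ s in t₂..s₁, GD (fun x => φ x * OO (u s) x) ≤ (1 + C₆) * X := by
            nlinarith
          have h16 : CU / (2 * Λ) * ((1 + C₆) * X) ≤ 1 / 2 := by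
            rw [div_mul_eq_mul_div, div_le_iff₀ (by positivity), hΛ]
            have : 0 ≤ (1 + C₆) * X := by positivity
            nlinarith
          exact (mul_le_mul_of_nonneg_left h15 (by positivity)).trans h16
        linarith) x ⟨hxo.1.le, hxo.2.le⟩
      refine h5.trans ?_
      have e9 : CS / (1 / Λ) = CS * (2 * (CU + 1) * (1 + C₆)) * X := by
        rw [hΛ]
        field_simp
      rw [e9]
      apply mul_le_mul_of_nonneg_right _ (by linarith)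
      linarith

end Pool.Agent.D0H49.AX
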