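import Pool.Agent.Q67.AXI.All
import Pool.Agent.D0H49.AX.BarD
import Pool.Agent.D0H49.AX.Smg
import Pool.Agent.D0H49.AX.Sm

/-!
Project IW (helper49): the local theorem, viscosity one.
-/

set_option autoImplicit false

open MeasureTheory Set Metric Filter Topology
open scoped ContDiff
open H459R3.NS Pool.Agent.W268.NS Pool.Agent.Q67.VD

namespace Pool.Agent.D0H49.AX

open Pool.Agent.Q85.CC Pool.Agent.Q85.CL Pool.Agent.TH305.AX Pool.Agent.Q67.AXI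
open Pool.Agent.Q151.AXI (bdA_mono cut_mono slice inner)
open Pool.Agent.Q65.AXI (tailI tailI_nonneg tailI_anti tailI_deriv tailI_ii)

/-- The tail of an integral is small. -/
theorem tail_small {b : ℝ → ℝ} {T ε : ℝ} (hT : 0 < T) (hb : IntegrableOn b (Ioo 0 T))
    (hε : 0 < ε) : ∃ Tb : ℝ, 0 < Tb ∧ Tb < T ∧ ∀ t ∈ Ico Tb T, tailI b T t ≤ ε := by
  have hb' : IntegrableOn (fun τ => |b τ|) (uIcc 0 T) := by
    rw [uIcc_of_le hT.le, integrableOn_Icc_iff_integrableOn_Ioo]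
    exact hb.abs
  have h1 := intervalIntegral.continuousOn_primitive_interval_left hb'
  rw [uIcc_of_le hT.le] at h1
  have h2 : ContinuousWithinAt (fun x => ∫ t in x..T, |b t|) (Icc 0 T) T := h1 T ⟨hT.le, le_rfl⟩
  have h3 : Tendsto (fun x => ∫ t in x..T, |b t|) (𝓝[Icc 0 T] T) (𝓝 0) := by
    have h4 := h2.tendsto
    rw [intervalIntegral.integral_same] at h4
    exact h4
  have h5 : ∀ᶠ x in 𝓝[Icc 0 T] T, (∫ t in x..T, |b t|) < ε := h3.eventually (gt_mem_nhds hε)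
  rw [eventually_nhdsWithin_iff, Metric.eventually_nhds_iff] at h5
  obtain ⟨δ, hδ, h6⟩ := h5
  refine ⟨max (T / 2) (T - δ / 2), lt_of_lt_of_le (by linarith) (le_max_left _ _),
    max_lt (by linarith) (by linarith), ?_⟩
  intro t ht
  have h7 := (le_max_left _ _).trans ht.1
  have h8 := (le_max_right _ _).trans ht.1
  refine (h6 ?_ ⟨by linarith, ht.2.le⟩).le
  rw [Real.dist_eq, abs_lt]
  constructor <;> linarith [ht.2]

/-- There are small good scales. -/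
theorem cnt_ex {P : ℕ → Prop} {A : ℝ} (hA : 0 < A)
    (h : ∀ᶠ n : ℕ in atTop, A * Real.log n ≤ cnt P n) (N : ℕ) : ∃ j : ℕ, N ≤ j ∧ P j := by
  by_contra hc
  push Not at hc
  have h1 : ∀ n : ℕ, (cnt P n : ℝ) ≤ N := by
    intro n
    have h2 : {j : ℕ | j < n ∧ P j} ⊆ {j : ℕ | j < N} := by
      intro j hj
      by_contra hj2
      exact hc j (not_lt.1 hj2) hj.2
    have h3 : {j : ℕ | j < N}.ncard = N := by
      have h0 : {j : ℕ | j < N} = ((Finset.range N : Finset ℕ) : Set ℕ) := by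
        ext j
        simp
      rw [h0, Set.ncard_coe_finset, Finset.card_range]
    have h4 := ncard_le_ncard h2 (finite_lt_nat N)
    rw [h3] at h4
    unfold cnt
    exact_mod_cast h4
  have h5 : Tendsto (fun n : ℕ => A * Real.log n) atTop atTop :=
    (Real.tendsto_log_atTop.comp tendsto_natCast_atTop_atTop).const_mul_atTop hA
  obtain ⟨n, hn1, hn2⟩ := (h.and (h5.eventually (eventually_gt_atTop (N : ℝ)))).exists
  linarith [h1 n]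

theorem rpow_m2 {y : ℝ} (hy : 0 < |y|) : |y| ^ (-2 : ℝ) = (y ^ 2)⁻¹ := by
  rw [Real.rpow_neg hy.le, ← sq_abs y]
  norm_cast

/-- A power is smaller than a power of the logarithm. -/
theorem pow_log {q s : ℝ} (hq : 0 < q) (hs : 0 < s) (hs1 : s < 1) :
    s ^ (q / 2) ≤ 16 / q ^ 2 * (Real.log s ^ 2)⁻¹ := by
  have hlog : Real.log s < 0 := Real.log_neg hs hs1
  have h1 : Real.log s⁻¹ ≤ s⁻¹ ^ (q / 4) / (q / 4) :=
    Real.log_le_rpow_div (inv_nonneg.2 hs.le) (by positivity)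
  rw [Real.log_inv, le_div_iff₀ (by positivity)] at h1
  have h2 : 0 < s⁻¹ ^ (q / 4) := Real.rpow_pos_of_pos (inv_pos.2 hs) _
  have h3 : s⁻¹ ^ (q / 4) * s⁻¹ ^ (q / 4) = (s ^ (q / 2))⁻¹ := by
    rw [← Real.rpow_add (inv_pos.2 hs), Real.inv_rpow hs.le]
    congr 2
    ring
  have h4 : 0 < s ^ (q / 2) := Real.rpow_pos_of_pos hs _
  have h5 : 0 < Real.log s ^ 2 := by nlinarith
  rw [← div_eq_mul_inv, le_div_iff₀ h5]
  have h6 : (-Real.log s * (q / 4)) * (-Real.log s * (q / 4)) ≤ (s ^ (q / 2))⁻¹ := by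
    rw [← h3]
    apply mul_le_mul h1 h1 _ h2.le
    have : 0 < -Real.log s := by linarith
    positivity
  have h7 : s ^ (q / 2) * ((-Real.log s * (q / 4)) * (-Real.log s * (q / 4))) ≤ 1 := by
    calc s ^ (q / 2) * ((-Real.log s * (q / 4)) * (-Real.log s * (q / 4)))
        ≤ s ^ (q / 2) * (s ^ (q / 2))⁻¹ := mul_le_mul_of_nonneg_left h6 h4.le
      _ = 1 := mul_inv_cancel₀ h4.ne'
  rw [le_div_iff₀ (by positivity)]
  nlinarith

/-- The conversion of the logarithmic bound. -/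
theorem log_conv {C' C₀ η τ s tt G : ℝ} (hC' : 0 ≤ C') (hC₀ : 0 ≤ C₀) (hη : 0 < η)
    (hη2 : η ≤ 1 / 2) (hτ0 : 0 < τ) (hτ1 : τ < 1) (hs : 0 < s) (hs1 : s < 1) (hsx : τ ^ 50 ≤ s)
    (httτ : tt ≤ τ) (hG0 : G ≤ C₀)
    (hG1 : s ≤ η → G ≤ C' * (Real.log (max tt s) ^ 2)⁻¹) :
    G ≤ (2500 * C' + C₀ * Real.log η ^ 2) * |Real.log s| ^ (-2 : ℝ) := by
  have hlog : Real.log s < 0 := Real.log_neg hs hs1
  rw [rpow_m2 (abs_pos.2 hlog.ne)]
  have hl2 : 0 < Real.log s ^ 2 := by nlinarith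
  have hlη : Real.log η < 0 := Real.log_neg hη (by linarith)
  rcases le_or_gt s η with hc | hc
  · refine (hG1 hc).trans ?_
    obtain ⟨μ, hμ⟩ : ∃ μ : ℝ, μ = max tt s := ⟨_, rfl⟩
    rw [← hμ]
    have hμs : s ≤ μ := by rw [hμ]; exact le_max_right _ _
    have hμ0 : 0 < μ := hs.trans_le hμs
    have hμ1 : μ < 1 := by
      rw [hμ]
      exact max_lt (by linarith) hs1
    have hlμ : Real.log μ < 0 := Real.log_neg hμ0 hμ1
    have hkey : -Real.log s ≤ 50 * -Real.log μ := by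
      rcases le_total tt s with h7 | h7
      · have : μ = s := by rw [hμ]; exact max_eq_right h7
        rw [this]
        linarith
      · have h8 : μ ≤ τ := by
          rw [hμ, max_eq_left h7]
          exact httτ
        have h9 := Real.log_le_log hμ0 h8
        have h10 := Real.log_le_log (by positivity) hsx
        rw [Real.log_pow] at h10
        push_cast at h10
        linarith
    have h11 : (Real.log μ ^ 2)⁻¹ ≤ 2500 * (Real.log s ^ 2)⁻¹ := by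
      have h12 : 0 < Real.log μ ^ 2 := by nlinarith
      rw [← div_eq_mul_inv, le_div_iff₀ hl2, inv_mul_le_iff₀ h12]
      nlinarith
    have h12 := mul_le_mul_of_nonneg_left h11 hC'
    have h13 : 0 ≤ C₀ * Real.log η ^ 2 * (Real.log s ^ 2)⁻¹ := by positivity
    linarith
  · have h7 : 1 ≤ Real.log η ^ 2 * (Real.log s ^ 2)⁻¹ := by
      rw [← div_eq_mul_inv, le_div_iff₀ hl2]
      have := Real.log_le_log hη hc.le
      nlinarith
    have h8 : C₀ ≤ C₀ * (Real.log η ^ 2 * (Real.log s ^ 2)⁻¹) := by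
      nlinarith
    have h9 : 0 ≤ 2500 * C' * (Real.log s ^ 2)⁻¹ := by positivity
    linarith

/-- The Hölder bound implies the logarithmic bound. -/
theorem hold_conv {C₂ q τ s G : ℝ} (hC₂ : 0 ≤ C₂) (hq : 0 < q) (hτ0 : 0 < τ) (hs : 0 < s)
    (hs1 : s < 1) (hsP : s ≤ τ ^ 2) (hG : G ≤ C₂ * (s / τ) ^ q) :
    G ≤ C₂ * (16 / q ^ 2) * |Real.log s| ^ (-2 : ℝ) := by
  have h3 : (s / τ) ^ q ≤ s ^ (q / 2) := by
    have h4 : s / τ ≤ s ^ (1 / 2 : ℝ) := by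
      rw [← Real.sqrt_eq_rpow, div_le_iff₀ hτ0]
      have h5 : √s ≤ τ := Real.sqrt_le_iff.2 ⟨hτ0.le, hsP⟩
      have h6 := Real.mul_self_sqrt hs.le
      have h7 := Real.sqrt_nonneg s
      nlinarith
    calc (s / τ) ^ q ≤ (s ^ (1 / 2 : ℝ)) ^ q :=
          Real.rpow_le_rpow (by positivity) h4 hq.le
      _ = s ^ (q / 2) := by
          rw [← Real.rpow_mul hs.le]
          congr 1
          ring
  have h4 := pow_log hq hs hs1
  rw [rpow_m2 (abs_pos.2 (Real.log_neg hs hs1).ne)]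
  calc G ≤ C₂ * (s / τ) ^ q := hG
    _ ≤ C₂ * (16 / q ^ 2 * (Real.log s ^ 2)⁻¹) :=
        mul_le_mul_of_nonneg_left (h3.trans h4) hC₂
    _ = C₂ * (16 / q ^ 2) * (Real.log s ^ 2)⁻¹ := by ring

/-- The end of the proof: a bound of `WW` implies regularity. -/
theorem endgame {T E c R H K r h r1 h1 T₂ C' C₀ Mx : ℝ} {u : ℝ → V → V} {p : ℝ → V → ℝ}
    {φ : V → ℝ} (G : Geo T E c R H K r h r1 h1 T₂ C' C₀ u p φ) (hMx0 : 0 ≤ Mx)
    (hcb : ∀ t ∈ Ico T₂ T, ∀ x ∈ Cy c r h, |circ (u t) x| ≤ C₀)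
    (hWb : ∀ t ∈ Ico T₂ T, ∀ x ∈ Co c r h, |WW (u t) x| ≤ Mx) : Rg T u ![0, 0, c] := by
  have hA := G.sol
  have hr1 := G.hr1
  have hr1r := G.hr1r
  have hrR := G.hrR
  have hh1 := G.hh1
  have hh1h := G.hh1h
  have hhH := G.hhH
  have hT₂p := G.hT₁
  have hT₂T := G.hT₁T
  have hT : 0 < T := hT₂p.trans hT₂T
  have hr0 : 0 < r := hr1.trans hr1r
  have hsgl : ∀ x ∈ Co c r h, sg x < 1 := fun x hx => by
    have h1 : sg x < r ^ 2 := hx.1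
    have h2 := G.hr2
    have h3 : Real.exp (-2) < 1 := by
      rw [Real.exp_lt_one_iff]
      norm_num
    linarith
  have hcK : ∀ t ∈ Ico T₂ T, ∀ x ∈ Co c r h, |circ (u t) x| ≤ C₀ ∧ (sg x ≠ 0 →
      sg x ≤ (T - t) ^ (1 / 2 : ℝ) →
      |circ (u t) x| ≤ (4 * Mx) * |Real.log (sg x)| ^ (-(2 : ℝ))) := fun t ht x hx => by
    refine ⟨hcb t ht x ⟨hx.1.le, hx.2.le⟩, fun hsx _ => ?_⟩
    have hs : 0 < sg x := lt_of_le_of_ne (sg_nonneg x) (Ne.symm hsx)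
    have hs1 := hsgl x hx
    have hlog : Real.log (sg x) < 0 := Real.log_neg hs hs1
    have htI : t ∈ Ioo 0 T := ⟨hT₂p.trans_le ht.1, ht.2⟩
    have hcW : circ (u t) x = sg x * WW (u t) x :=
      ((hAlg (u t) (slice hA.smooth_u htI) (hA.axi t htI)).2.2.2 x).2.2.2.2.2.2.2.2.1
    rw [rpow_m2 (abs_pos.2 hlog.ne), hcW, abs_mul, abs_of_pos hs]
    have h2 := hWb t ht x hx
    have h3 := pow_log (q := 2) (by norm_num) hs hs1
    norm_num at h3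
    calc sg x * |WW (u t) x| ≤ 4 * (Real.log (sg x) ^ 2)⁻¹ * Mx :=
          mul_le_mul h3 h2 (abs_nonneg _) (by positivity)
      _ = 4 * Mx * (Real.log (sg x) ^ 2)⁻¹ := by ring
  obtain ⟨C₇, hC₇, hY⟩ := hYiP T E c R H K r h r1 h1 T₂ (4 * Mx) C₀ 2 (1 / 2) Mx u p φ hA
    G.hK hr1 hr1r hrR G.hr2 hh1 hh1h hhH G.hh hT₂p hT₂T (by positivity)
    G.hC₀ (by norm_num) le_rfl (by norm_num) (by norm_num) G.cut G.out hcK hWb
  have hen : ∀ t ∈ Ico T₂ T, (∀ x ∈ Cy c (r1 / 2) (h1 / 2), |WW (u t) x| ≤ Mx + 3 * C₇) ∧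
      ∫ x in Cy c (r1 / 2) (h1 / 2), (UU (u t) x ^ 2 + gr2 (UU (u t)) x + OO (u t) x ^ 2)
        ≤ Mx + 3 * C₇ := by
    intro t ht
    have htI : t ∈ Ioo 0 T := ⟨hT₂p.trans_le ht.1, ht.2⟩
    have hsm := slice hA.smooth_u htI
    obtain ⟨⟨hU, -, -, hO⟩, -⟩ := hAlg (u t) hsm (hA.axi t htI)
    refine ⟨fun x hx => ?_, ?_⟩
    · have hx' : x ∈ Co c r h := by
        refine ⟨hx.1.trans_lt ?_, hx.2.trans_lt (by linarith)⟩
        exact pow_lt_pow_left₀ (by linarith) (by positivity) (by norm_num)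
      have := hWb t ht x hx'
      linarith
    · have h2 := inner hr1 hh1 G.cut hU hO
      obtain ⟨y1, y2, y3⟩ := hY t ht
      linarith
  have hKK : 0 ≤ Mx + 3 * C₇ := by positivity
  obtain ⟨K₃, hK₃, hmo⟩ := hMo T E c R H (r1 / 2) (h1 / 2) T₂ (Mx + 3 * C₇) u p hA
    (by positivity) (by linarith) (by positivity) (by linarith) hT₂p hT₂T hKK hen
  obtain ⟨ε, hε, hreg⟩ := hReg K₃ hK₃
  have hqt := hFin T E c R H (r1 / 2) (h1 / 2) T₂ (Mx + 3 * C₇) u p hA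
    (by positivity) (by linarith) (by positivity) (by linarith) hT₂p hT₂T hKK hen ε hε
  refine hreg T E (Co c R H) u p hT hA.toLSl ![0, 0, c] ?_ hmo hqt
  have hR : 0 < R := hr0.trans hrR
  refine ⟨?_, ?_⟩
  · have : sg (![0, 0, c] : V) = 0 := by
      unfold sg
      simp
    rw [this]
    positivity
  · show |c - c| < H
    rw [sub_self, abs_zero]
    linarith

theorem Geo.later {T E c R H K r h r1 h1 T₁ C' C₀ : ℝ} {u : ℝ → V → V} {p : ℝ → V → ℝ}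
    {φ : V → ℝ} (G : Geo T E c R H K r h r1 h1 T₁ C' C₀ u p φ) {T₂ : ℝ} (h1' : T₁ ≤ T₂)
    (h2 : T₂ < T) : Geo T E c R H K r h r1 h1 T₂ C' C₀ u p φ :=
  { sol := G.sol, hK := G.hK, hr1 := G.hr1, hr1r := G.hr1r, hrR := G.hrR, hr2 := G.hr2,
    hh1 := G.hh1, hh1h := G.hh1h, hhH := G.hhH, hh := G.hh, hT₁ := G.hT₁.trans_le h1',
    hT₁T := h2, hC' := G.hC', hC₀ := G.hC₀, cut := G.cut,
    out := fun t ht => G.out t ⟨h1'.trans ht.1, ht.2⟩ }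

theorem Geo.const {T E c R H K r h r1 h1 T₁ C' C₀ : ℝ} {u : ℝ → V → V} {p : ℝ → V → ℝ}
    {φ : V → ℝ} (G : Geo T E c R H K r h r1 h1 T₁ C' C₀ u p φ) {C'' : ℝ} (hC'' : 0 ≤ C'') :
    Geo T E c R H K r h r1 h1 T₁ C'' C₀ u p φ :=
  { sol := G.sol, hK := G.hK, hr1 := G.hr1, hr1r := G.hr1r, hrR := G.hrR, hr2 := G.hr2,
    hh1 := G.hh1, hh1h := G.hh1h, hhH := G.hhH, hh := G.hh, hT₁ := G.hT₁,
    hT₁T := G.hT₁T, hC' := hC'', hC₀ := G.hC₀, cut := G.cut, out := G.out }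

/-- From the data near the point to regularity. -/
theorem loc_reg (hODE : S_ODE) (hINT : S_INT) (hBOOT : S_BOOT) {K l q d A : ℝ}
    (hl : 0 ≤ l) (hq : 0 < q) (hq1 : q < 1) (hd : 0 < d) (hd2 : d ≤ 1 / 2) (hA0 : 0 < A)
    {T E c R H K₀ r h r1 h1 T₁ KW C₀ C' η : ℝ} {u : ℝ → V → V} {p : ℝ → V → ℝ} {k b : ℝ → ℝ}
    {φ : V → ℝ} (L : Loc T E c R H r h T₁ KW C₀ u p k b)
    (G : Geo T E c R H K₀ r h r1 h1 T₁ 0 C₀ u p φ) {δ₀ : ℝ} {P : ℕ → Prop} (hδ₀ : 0 < δ₀)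
    (hPG : ∀ j, T₁ ≤ T - δ₀ / 2 ^ j → P j → Good T K l q d c r h KW u k b (δ₀ / 2 ^ j))
    (hcnt : ∀ᶠ n : ℕ in atTop, A * Real.log n ≤ cnt P n)
    (hC' : 0 ≤ C') (hη : 0 < η) (hη2 : η ≤ 1 / 2) (hηT : T₁ ≤ T - η)
    (hlb : ∀ t ∈ Ico (T - η) T, ∀ x ∈ Cy c r h, 0 < sg x → sg x ≤ η →
      |circ (u t) x| ≤ C' * (Real.log (max (T - t) (sg x)) ^ 2)⁻¹) : Rg T u ![0, 0, c] := by
  have hcb := L.cb
  have hT₁p := L.hT₁
  obtain ⟨C₂, hC₂, hhold⟩ := hold (K := K) hAlg hBar L hl hq hq1 hd hd2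
  obtain ⟨C₄, hC₄, hsm⟩ := smooth_good hJnt hDt hU
    (t_YG hAlg hHar hEqJ hEqO hJnt hDt hEn hT1P) hINT hODE (t_SM hAlg hBar)
    (G.const (show 0 ≤ C₂ * (16 / q ^ 2) by positivity)) hcb
  have hC₀0 := L.hC₀
  obtain ⟨CB, hCB, hbt⟩ := hBOOT T E c R H K₀ r h r1 h1 T₁
    (2500 * C' + C₀ * Real.log η ^ 2) C₀ u p φ (G.const (by positivity)) hcb
  -- the good scale
  have hlim : Tendsto (fun n : ℕ => δ₀ / 2 ^ n) atTop (𝓝 0) := by
    have h1 := (tendsto_pow_atTop_nhds_zero_of_lt_one (r := (1 / 2 : ℝ)) (by norm_num)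
      (by norm_num)).const_mul δ₀
    rw [mul_zero] at h1
    refine h1.congr (fun n => ?_)
    rw [one_div, inv_pow]
    rfl
  obtain ⟨m, hm⟩ : ∃ m : ℝ, m = min (min (d / 2) η) (1 / (CB * C₄ ^ 4)) := ⟨_, rfl⟩
  have hm0 : 0 < m := by
    rw [hm]
    exact lt_min (lt_min (by positivity) hη) (by positivity)
  obtain ⟨N, hN⟩ := eventually_atTop.1 (hlim.eventually (gt_mem_nhds hm0))
  obtain ⟨j, hj, hgood⟩ := cnt_ex hA0 hcnt N
  obtain ⟨τ, hτ⟩ : ∃ τ : ℝ, τ = δ₀ / 2 ^ j := ⟨_, rfl⟩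
  have hτ0 : 0 < τ := by rw [hτ]; positivity
  have hτm : τ < m := by rw [hτ]; exact hN j hj
  have hτd : τ < d / 2 := by
    refine hτm.trans_le ?_
    rw [hm]
    exact (min_le_left _ _).trans (min_le_left _ _)
  have hτη : τ < η := by
    refine hτm.trans_le ?_
    rw [hm]
    exact (min_le_left _ _).trans (min_le_right _ _)
  have hτB : CB * C₄ ^ 4 * τ < 1 := by
    have h1 : τ < 1 / (CB * C₄ ^ 4) := by
      refine hτm.trans_le ?_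
      rw [hm]
      exact min_le_right _ _
    rw [lt_div_iff₀ (by positivity)] at h1
    linarith
  have hτ1 : τ < 1 := by linarith
  have hτT : T₁ ≤ T - τ := by linarith
  have hgood' : Good T K l q d c r h KW u k b τ := by
    rw [hτ] at hτT ⊢
    exact hPG j hτT hgood
  clear hlim hm hm0 hN hj hgood hτ hτm hPG hcnt
  -- the window
  obtain ⟨s₀, hs₀⟩ : ∃ s₀ : ℝ, s₀ = T - (1 - d / 2) * τ := ⟨_, rfl⟩
  obtain ⟨T₂, hT₂⟩ : ∃ T₂ : ℝ, T₂ = s₀ + τ ^ 2 := ⟨_, rfl⟩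
  have hs₀T : T - τ ≤ s₀ := by rw [hs₀]; nlinarith
  have hT₂d : T₂ < T - (1 - d) * τ := by rw [hT₂, hs₀]; nlinarith
  have hT₂T : T₂ < T := by nlinarith
  have hT₂s : s₀ < T₂ := by
    rw [hT₂]
    have : 0 < τ ^ 2 := by positivity
    linarith
  have hT₂1 : T₁ ≤ T₂ := by linarith
  have hT₂τ : T - T₂ ≤ τ := by linarith
  have hsgl : ∀ x ∈ Co c r h, sg x < 1 := fun x hx => by
    have h1 : sg x < r ^ 2 := hx.1
    have h2 : r ^ 2 ≤ 1 := pow_le_one₀ L.hr.le L.hr1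
    linarith
  have hsgp : ∀ x : V, sg x ≠ 0 → 0 < sg x := fun x hx =>
    lt_of_le_of_ne (sg_nonneg x) (Ne.symm hx)
  obtain ⟨hen2, hWW2⟩ := hsm (τ ^ 2) s₀ T₂ (by positivity) (pow_le_one₀ hτ0.le hτ1.le)
    (by linarith) hT₂ hT₂T (by
      intro t ht x hx hsx hsP
      have hs := hsgp x hsx
      have ht' : t ∈ Ico (T - (1 - d / 2) * τ) (T - (1 - d) * τ) :=
        ⟨by rw [← hs₀]; exact ht.1, ht.2.trans_lt hT₂d⟩
      exact hold_conv hC₂ hq hτ0 hs (hsgl x hx) hsP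
        (hhold τ hτ0 hτ1.le hτT hgood' t ht' x ⟨hx.1.le, hx.2.le⟩ hs))
  -- the bootstrap
  have eZ : C₄ / (τ ^ 2) ^ 3 = C₄ / τ ^ 6 := by
    rw [← pow_mul]
  rw [eZ] at hen2 hWW2
  have hτ6 : τ ^ 6 ≤ 1 := pow_le_one₀ hτ0.le hτ1.le
  have hτ60 : 0 < τ ^ 6 := by positivity
  have hWb := hbt T₂ (C₄ / τ ^ 6) (1 / τ ^ 25) ⟨hT₂1, hT₂T⟩ (by
      rw [le_div_iff₀ hτ60]
      linarith) (by
      rw [div_pow, lt_div_iff₀ (by positivity)]
      have : CB * (C₄ ^ 4 / (τ ^ 6) ^ 4) * τ ^ 25 = CB * C₄ ^ 4 * τ := by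
        field_simp
      rw [this]
      exact hτB) hen2 hWW2 (by
      intro t ht x hx hsx
      have hMx : ((1 / τ ^ 25) ^ 2)⁻¹ = τ ^ 50 := by
        rw [one_div, inv_pow, inv_inv, ← pow_mul]
      rw [hMx] at hsx
      have hs : 0 < sg x := lt_of_lt_of_le (by positivity) hsx
      have ht1 : t ∈ Ico T₁ T := ⟨hT₂1.trans ht.1, ht.2⟩
      have hxC : x ∈ Cy c r h := ⟨hx.1.le, hx.2.le⟩
      exact log_conv hC' hC₀0.le hη hη2 hτ0 hτ1 hs (hsgl x hx) hsx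
        (by linarith [ht.1]) (hcb t ht1 x hxC)
        (hlb t ⟨by linarith [ht.1], ht.2⟩ x hxC hs))
  exact endgame (G.later hT₂1 hT₂T) (by positivity)
    (fun t ht => hcb t ⟨hT₂1.trans ht.1, ht.2⟩) hWb

/-- The statement of the local theorem, viscosity one. -/
def MainS (K l q d A : ℝ) : Prop :=
  ∀ (T E c R H T₀ M : ℝ) (u : ℝ → V → V) (p : ℝ → V → ℝ) (k b : ℝ → ℝ) (δ₀ : ℝ) (P : ℕ → Prop),
    0 < T → 0 < R → 0 < H → AxL T E c R H u p → T₀ < T → ContinuousOn k (Ioo 0 T) →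
    IntegrableOn k (Ioo 0 T) → (∀ t ∈ Ioo 0 T, 0 ≤ k t) → ContinuousOn b (Ioo 0 T) →
    IntegrableOn b (Ioo 0 T) → (∀ t ∈ Ioo 0 T, 0 ≤ b t) → 0 < δ₀ →
    (∀ j, P j → δ₀ / 2 ^ j < T → tailI k T (T - δ₀ / 2 ^ j) ≤ K * (δ₀ / 2 ^ j)) →
    (∀ᶠ n : ℕ in atTop, A * Real.log n ≤ cnt P n) →
    (∀ t ∈ Ioo 0 T, T₀ < t → ∀ x ∈ Co c R H, 0 < sg x → M * sg x < |circ (u t) x| →
      rad (vort (u t)) x = 0 →
      0 < circ (u t) x * vort (u t) x 2 → -(k t + b t * sg x) ≤ rad (u t) x ∧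
      ∀ j, P j → t ∈ Ioo (T - δ₀ / 2 ^ j) (T - (1 - d) * (δ₀ / 2 ^ j)) →
        -((2 - 2 * q) + (l / (δ₀ / 2 ^ j) + b t) * sg x) ≤ rad (u t) x) →
    Rg T u ![0, 0, c]

/-- The local theorem, viscosity one. -/
theorem main_iw (hODE : S_ODE) (hINT : S_INT) (hBOOT : S_BOOT) {K l q d : ℝ} (hK : 0 ≤ K)
    (hl : 0 ≤ l) (hq : 0 < q) (hq1 : q < 1) (hd : 0 < d) (hd2 : d ≤ 1 / 2) :
    ∃ A : ℝ, 0 < A ∧ MainS K l q d A := by
  obtain ⟨A, hA0, hlogb⟩ := logb hAlg hBar hK hl hq hq1 hd hd2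
  refine ⟨A, hA0, ?_⟩
  intro T E c R H T₀ M u p k b δ₀ P hT hR hH hA hT₀ hkc hki hk0 hbc hbi hb0 hδ₀ hPk hcnt hinf
  -- the geometry
  obtain ⟨r, hr⟩ : ∃ r : ℝ, r = min (min R 1 / 2) (Real.exp (-1)) := ⟨_, rfl⟩
  have hr0 : 0 < r := by rw [hr]; exact lt_min (by positivity) (Real.exp_pos _)
  have hrR : r < R := by
    have h1 : r ≤ min R 1 / 2 := by rw [hr]; exact min_le_left _ _
    have := min_le_left R 1
    linarith
  have hr1 : r < 1 := by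
    have h1 : r ≤ min R 1 / 2 := by rw [hr]; exact min_le_left _ _
    have := min_le_right R 1
    linarith
  have hre : r ^ 2 ≤ Real.exp (-2) := by
    have h2 : r ≤ Real.exp (-1) := by rw [hr]; exact min_le_right _ _
    calc r ^ 2 ≤ Real.exp (-1) ^ 2 := pow_le_pow_left₀ hr0.le h2 2
      _ = Real.exp (-2) := by rw [← Real.exp_nat_mul]; norm_num
  obtain ⟨h₀, hh₀⟩ : ∃ h₀ : ℝ, h₀ = min H 1 / 2 := ⟨_, rfl⟩
  have hh₀0 : 0 < h₀ := by rw [hh₀]; positivity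
  have hh₀H : h₀ < H := by rw [hh₀]; have := min_le_left H 1; linarith
  have hh₀1 : h₀ < 1 := by rw [hh₀]; have := min_le_right H 1; linarith
  obtain ⟨h, h1, hh1, hh1h, hhh₀, hG⟩ := hGd T E c R H u p hT hR hH hA r h₀ hr0 hrR hh₀0 hh₀H
  have hh0 : 0 < h := hh1.trans hh1h
  have hhH : h < H := hhh₀.trans hh₀H
  obtain ⟨KA, TA, hKA, hTA0, hTAT, hbA⟩ := hG r (r / 2) le_rfl (by positivity) (by linarith)
  obtain ⟨KC, φ, hKC, hφ⟩ := hCut c r h (r / 2) h1 (by positivity) (by linarith) hh1 hh1h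
  obtain ⟨K₀, hK₀⟩ : ∃ K₀ : ℝ, K₀ = max KA KC := ⟨_, rfl⟩
  have hKAK : KA ≤ K₀ := by rw [hK₀]; exact le_max_left _ _
  have hKCK : KC ≤ K₀ := by rw [hK₀]; exact le_max_right _ _
  have hK00 : 0 ≤ K₀ := hKA.trans hKAK
  obtain ⟨Tb, hTb0, hTbT, hTb⟩ := tail_small (ε := 1 / 4) hT hbi (by norm_num)
  obtain ⟨T₁, hT₁⟩ : ∃ T₁ : ℝ, T₁ = max (max TA T₀) Tb := ⟨_, rfl⟩
  have hT₁A : TA ≤ T₁ := by rw [hT₁]; exact (le_max_left _ _).trans (le_max_left _ _)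
  have hT₁0 : T₀ ≤ T₁ := by rw [hT₁]; exact (le_max_right _ _).trans (le_max_left _ _)
  have hT₁b : Tb ≤ T₁ := by rw [hT₁]; exact le_max_right _ _
  have hT₁T : T₁ < T := by rw [hT₁]; exact max_lt (max_lt hTAT hT₀) hTbT
  have hT₁p : 0 < T₁ := hTA0.trans_le hT₁A
  have hφ' := cut_mono hKCK hφ
  have hout : ∀ t ∈ Ico T₁ T, ∀ x ∈ Out c r h (r / 2) h1, BdA K₀ (u t) x := fun t ht x hx =>
    bdA_mono hKAK (hbA t ⟨hT₁A.trans ht.1, ht.2⟩ x hx)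
  obtain ⟨KW, hKW⟩ : ∃ KW : ℝ, KW = max (K₀ + 1) M := ⟨_, rfl⟩
  have hKW1 : K₀ + 1 ≤ KW := by rw [hKW]; exact le_max_left _ _
  have hKW2 : M ≤ KW := by rw [hKW]; exact le_max_right _ _
  have hKW0 : 0 < KW := by linarith
  have hlat : ∀ t ∈ Ico T₁ T, ∀ x ∈ Cy c r h, (sg x = r ^ 2 ∨ |x 2 - c| = h) →
      |WW (u t) x| ≤ KW := by
    intro t ht x hx hb
    refine (hout t ht x ⟨hx, ?_⟩).2.2.1.trans (by linarith)
    rcases hb with hb | hb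
    · left
      rw [hb]
      exact pow_le_pow_left₀ (by positivity) (by linarith) 2
    · right
      rw [hb]
      exact hh1h.le
  obtain ⟨C₁, hC₁, hcb₁⟩ := Pool.Agent.Q65.AXI.circ_bd hAlg hBar T E c R H r h T₁ KW u p hA
    hr0 hrR hh0 hhH hT₁p hT₁T hlat
  obtain ⟨C₀, hC₀⟩ : ∃ C₀ : ℝ, C₀ = max C₁ (3 * KW) := ⟨_, rfl⟩
  have hC₀1 : C₁ ≤ C₀ := by rw [hC₀]; exact le_max_left _ _
  have hC₀2 : 3 * KW ≤ C₀ := by rw [hC₀]; exact le_max_right _ _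
  have hC₀p : 0 < C₀ := hC₁.trans_le hC₀1
  have hcb : ∀ t ∈ Ico T₁ T, ∀ x ∈ Cy c r h, |circ (u t) x| ≤ C₀ := fun t ht x hx =>
    (hcb₁ t ht x hx).trans hC₀1
  have hCoC : ∀ x ∈ Co c r h, x ∈ Co c R H := fun x hx =>
    ⟨hx.1.trans (pow_lt_pow_left₀ hrR hr0.le (by norm_num)), hx.2.trans hhH⟩
  have hinf' : ∀ t ∈ Ioo T₁ T, ∀ x ∈ Co c r h, 0 < sg x → KW * sg x < |circ (u t) x| →
      rad (vort (u t)) x = 0 →
      0 < circ (u t) x * vort (u t) x 2 → -(k t + b t * sg x) ≤ rad (u t) x ∧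
      ∀ j, P j → t ∈ Ioo (T - δ₀ / 2 ^ j) (T - (1 - d) * (δ₀ / 2 ^ j)) →
        -((2 - 2 * q) + (l / (δ₀ / 2 ^ j) + b t) * sg x) ≤ rad (u t) x :=
    fun t ht x hx hs hM => hinf t ⟨hT₁p.trans ht.1, ht.2⟩ (hT₁0.trans_lt ht.1) x
      (hCoC x hx) hs (lt_of_le_of_lt (mul_le_mul_of_nonneg_right hKW2 hs.le) hM)
  have L : Loc T E c R H r h T₁ KW C₀ u p k b :=
    { sol := hA, hr := hr0, hrR := hrR, hr1 := hr1.le, hh := hh0, hhH := hhH, hT₁ := hT₁p,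
      hT₁T := hT₁T, hKW := hKW0, hC₀ := hC₀p, hKC := hC₀2, lat := hlat, cb := hcb,
      kc := hkc, ki := hki, k0 := hk0, bc := hbc, bi := hbi, b0 := hb0,
      bs := hTb T₁ ⟨hT₁b, hT₁T⟩,
      infl := fun t ht x hx hs hM i1 i2 => (hinf' t ht x hx hs hM i1 i2).1 }
  have hPG : ∀ j, T₁ ≤ T - δ₀ / 2 ^ j → P j →
      Good T K l q d c r h KW u k b (δ₀ / 2 ^ j) := by
    intro j hj hPj
    have hτ0 : 0 < δ₀ / 2 ^ j := by positivity
    refine ⟨hPk j hPj (by linarith), fun t ht x hx hs hM i1 i2 => ?_⟩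
    have htT : t < T := by
      have h2 : 0 ≤ (1 - d) * (δ₀ / 2 ^ j) := mul_nonneg (by linarith) hτ0.le
      linarith [ht.2]
    exact (hinf' t ⟨hj.trans_lt ht.1, htT⟩ x hx hs hM i1 i2).2 j hPj ht
  have G : Geo T E c R H K₀ r h (r / 2) h1 T₁ 0 C₀ u p φ :=
    { sol := hA, hK := hK00, hr1 := by positivity, hr1r := by linarith, hrR := hrR, hr2 := hre,
      hh1 := hh1, hh1h := hh1h, hhH := hhH, hh := by linarith, hT₁ := hT₁p, hT₁T := hT₁T,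
      hC' := le_rfl, hC₀ := hC₀p.le, cut := hφ', out := hout }
  obtain ⟨C', η, hC', hη, hη2, hηT, hlb⟩ := hlogb L δ₀ P hδ₀ hPG hcnt
  exact loc_reg hODE hINT hBOOT hl hq hq1 hd hd2 hA0 L G hδ₀ hPG hcnt hC' hη hη2 hηT hlb

end Pool.Agent.D0H49.AX
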