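import Pool.Agent.Q67.AXI.Defs3

/-!
Project IW (helper49): axisymmetric Navier-Stokes, intermittent inflow (MP_09540e_an). Statements of
the packages. The definitions and the statements `Stm...` are those of `Pool.Agent.Q67.AXI.Defs`
(viscosity one; all of them are proved in `Pool.Agent.Q67.AXI.All`).
-/

set_option autoImplicit false

open MeasureTheory Set Metric Filter Topology
open scoped ContDiff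
open H459R3.NS Pool.Agent.W268.NS Pool.Agent.Q67.VD

namespace Pool.Agent.D0H49.AX

open Pool.Agent.Q85.CC Pool.Agent.Q85.CL Pool.Agent.TH305.AX Pool.Agent.Q67.AXI

/-- The geometric data of all the packages. -/
structure Geo (T E c R H K r h r1 h1 T₁ C' C₀ : ℝ) (u : ℝ → V → V) (p : ℝ → V → ℝ)
    (φ : V → ℝ) : Prop where
  sol : AxL T E c R H u p
  hK : 0 ≤ K
  hr1 : 0 < r1
  hr1r : r1 < r
  hrR : r < R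
  hr2 : r ^ 2 ≤ Real.exp (-2)
  hh1 : 0 < h1
  hh1h : h1 < h
  hhH : h < H
  hh : h ≤ 1
  hT₁ : 0 < T₁
  hT₁T : T₁ < T
  hC' : 0 ≤ C'
  hC₀ : 0 ≤ C₀
  cut : Cut c r h r1 h1 K φ
  out : ∀ t ∈ Ico T₁ T, ∀ x ∈ Out c r h r1 h1, BdA K (u t) x

/-- IW-YG. The energy inequality at a time with good decay of the circulation at the axis; no
hypothesis on the size of `WW`. Proof: as `Pool.Agent.Q95.AXP.yd`, at a fixed time, with the lemma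
`alg` there (`L2 = 1`, `M = M₁` a constant so large that `l = 8 C (log M₁) ^ (-2)` satisfies
`2 l C ^ 2 ≤ 1 / 8`, `PMv = 1 / P`): `StmT1P` is used with `α' = 2`, `M = M₁` (it has no hypothesis on
`WW`), and instead of `StmT2P` one uses
`4 |∫ φ² OO WW JJ| ≤ C √(GD (φ JJ) GD (φ OO)) + (C / P) (∫ φ² JJ² + ∫ φ² OO²)`:
`|WW| ≤ C' / (sg log² sg)` if `sg ≤ P` and `|WW| ≤ C₀ / P` if `sg > P`, Cauchy-Schwarz and `StmHar`. -/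
def S_YG : Prop := ∀ (T E c R H K r h r1 h1 T₁ C' C₀ : ℝ) (u : ℝ → V → V) (p : ℝ → V → ℝ)
  (φ : V → ℝ), Geo T E c R H K r h r1 h1 T₁ C' C₀ u p φ →
    ∃ Q l : ℝ, 0 ≤ Q ∧ 0 < l ∧ l ≤ 1 ∧ ∀ P : ℝ, 0 < P → P ≤ 1 → ∀ t ∈ Ico T₁ T,
      (∀ x ∈ Co c r h, |circ (u t) x| ≤ C₀ ∧
        (sg x ≠ 0 → sg x ≤ P → |circ (u t) x| ≤ C' * |Real.log (sg x)| ^ (-2 : ℝ))) →
      ∃ D' : ℝ, HasDerivAt (fun s => (∫ x, φ x ^ 2 * JJ (u s) x ^ 2)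
          + l * ∫ x, φ x ^ 2 * OO (u s) x ^ 2) D' t ∧
        D' ≤ -(GD (fun x => φ x * JJ (u t) x) + l * GD (fun x => φ x * OO (u t) x))
          + Q * (1 + ∫ x in Co c r h, W221.NS.gsq (u t) x)
          + Q / P * (1 + ((∫ x, φ x ^ 2 * JJ (u t) x ^ 2) + l * ∫ x, φ x ^ 2 * OO (u t) x ^ 2))

/-- IW-YB. The energy inequality at a time with the logarithmic bound and `|WW| ≤ M`; the constants
do not depend on the time. Proof: `Pool.Agent.Q95.AXP.yd` with the hypothesis on the circulation at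
the time `t` only, `α' = 2`, `P = 1` (so `PM M 1 = 0`), `ε₀ = 1 / 16`. -/
def S_YB : Prop := ∀ (T E c R H K r h r1 h1 T₁ C' C₀ : ℝ) (u : ℝ → V → V) (p : ℝ → V → ℝ)
  (φ : V → ℝ), Geo T E c R H K r h r1 h1 T₁ C' C₀ u p φ →
    ∃ C M₀ : ℝ, 0 ≤ C ∧ 3 ≤ M₀ ∧ ∀ M : ℝ, M₀ ≤ M → ∃ l : ℝ, M ^ (-(1 / 16) : ℝ) ≤ l ∧ l ≤ 1 ∧
      ∀ t ∈ Ico T₁ T,
      (∀ x ∈ Co c r h, |circ (u t) x| ≤ C₀ ∧
        (sg x ≠ 0 → |circ (u t) x| ≤ C' * |Real.log (sg x)| ^ (-2 : ℝ))) →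
      (∀ x ∈ Co c r h, |WW (u t) x| ≤ M) →
      ∃ D' : ℝ, HasDerivAt (fun s => (∫ x, φ x ^ 2 * JJ (u s) x ^ 2)
          + l * ∫ x, φ x ^ 2 * OO (u s) x ^ 2) D' t ∧
        D' ≤ -(GD (fun x => φ x * JJ (u t) x) + l * GD (fun x => φ x * OO (u t) x))
          + C * M ^ (3 / 8 : ℝ) * (1 + ∫ x in Co c r h, W221.NS.gsq (u t) x)

/-- IW-INT. Interpolation. Proof: `∫ F² = -∫ F (x₀ ∂₀F + x₁ ∂₁F)` for `F = φ f` (integrate the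
divergence of `F² (x₀, x₁, 0)`), Cauchy-Schwarz; and `sg x (JJ² + OO²) = ω₀² + ω₁² ≤ 2 |∇ v|²`
(`StmAlg`). -/
def S_INT : Prop := ∀ (c r h r1 h1 K : ℝ) (v : V → V) (φ : V → ℝ), 0 < r → ContDiff ℝ ∞ v → Axi v →
  Cut c r h r1 h1 K φ →
    (∫ x, φ x ^ 2 * JJ v x ^ 2) ^ 2
      ≤ 2 * (∫ x in Co c r h, W221.NS.gsq v x) * GD (fun x => φ x * JJ v x) ∧
    (∫ x, φ x ^ 2 * OO v x ^ 2) ^ 2
      ≤ 2 * (∫ x in Co c r h, W221.NS.gsq v x) * GD (fun x => φ x * OO v x)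

/-- IW-ODE. Smoothing. Proof: let `L = (s₁ - s₀) / 2`, `Z = 32 (1 + Q) (1 + D)² / (P L²)`. If `Y > Z`
on `[s₀, s₀ + L]` then `(1 / Y)' ≥ 1 / (4 (1 + G)) - Q (1 + G) / Z² - 2 Q / (P Z)` there; with
`1 / (1 + G) ≥ 2 θ - θ² (1 + G)`, `θ = L / (L + D)`, one gets
`1 / Z ≥ L² / (4 (L + D)) - Q (L + D) / Z² - 2 Q L / (P Z)`, a contradiction. After the time `t₀` with
`Y t₀ ≤ Z` use that `(1 + Y) exp (-Q (s - t₀) / P)` has derivative at most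
`exp (-Q) (-(A + l B)) + Q (1 + G)`. -/
def S_ODE : Prop := ∀ (s₀ s₁ D Q P l : ℝ) (Y A B G Y' : ℝ → ℝ), s₀ < s₁ → s₁ - s₀ ≤ P → P ≤ 1 →
  0 ≤ Q → 0 ≤ D → 0 < l → l ≤ 1 → (∀ s ∈ Icc s₀ s₁, 0 ≤ Y s) →
  (∀ s ∈ Icc s₀ s₁, HasDerivAt Y (Y' s) s) → (∀ s ∈ Icc s₀ s₁, 0 ≤ A s) →
  (∀ s ∈ Icc s₀ s₁, 0 ≤ B s) → ContinuousOn A (Icc s₀ s₁) → ContinuousOn B (Icc s₀ s₁) →
  (∀ s, 0 ≤ G s) → IntegrableOn G (Icc s₀ s₁) → ∫ s in s₀..s₁, G s ≤ D →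
  (∀ s ∈ Icc s₀ s₁, Y' s ≤ -(A s + l * B s) + Q * (1 + G s) + Q / P * (1 + Y s)) →
  (∀ s ∈ Icc s₀ s₁, Y s ^ 2 ≤ 4 * (1 + G s) * (A s + l * B s)) →
    ∃ t₀ ∈ Icc s₀ ((s₀ + s₁) / 2), ∀ t ∈ Icc t₀ s₁,
      Y t + l * ∫ s in t₀..t, B s ≤ Real.exp Q *
        (1 + 32 * (1 + Q) * (1 + D) ^ 2 / (P * ((s₁ - s₀) / 2) ^ 2) + Q * (1 + D))

/-- IW-SM. Smoothing of `WW` with explicit dependence on the initial time. Proof: `sm_core` in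
`Pool.Agent.Q175.AX.Sm` as in `stmSm` there; in the second part `θ0 → 0`, or simply drop `θ0`. -/
def S_SM : Prop := ∀ (T E c R H r h T₁ K c₀ : ℝ) (u : ℝ → V → V) (p : ℝ → V → ℝ),
  AxL T E c R H u p → 0 < r → r < R → 0 < h → h < H → 0 < T₁ → T₁ < T →
  (∀ t ∈ Ico T₁ T, ∀ x ∈ Cy c r h, |circ (u t) x| ≤ c₀ ∧
    ((sg x = r ^ 2 ∨ |x 2 - c| = h) → |WW (u t) x| ≤ K)) →
    ∃ C : ℝ, 0 ≤ C ∧ ∀ T₂ ∈ Ico T₁ T, ∀ M2 : ℝ, 0 ≤ M2 →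
      ((∀ x ∈ Cy c r h, |WW (u T₂) x| ≤ M2) →
        ∀ τ ∈ Ioc (0 : ℝ) 1, ∀ t' ∈ Ico T₂ T, ∀ B : ℝ → ℝ, ContinuousOn B (Icc T₂ t') →
          (∀ t ∈ Icc T₂ t', ∀ x ∈ Cy c r h, |UU (u t) x| ≤ B t) →
          ∫ t in (max T₂ (t' - τ))..t', B t ≤ 1 → ∀ x ∈ Cy c r h, |WW (u t') x| ≤ C * (1 + M2) / τ) ∧
      (∀ τ ∈ Ioc (0 : ℝ) 1, ∀ t' ∈ Ico T₂ T, T₂ ≤ t' - τ → ∀ B : ℝ → ℝ,
          ContinuousOn B (Icc T₂ t') →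
          (∀ t ∈ Icc T₂ t', ∀ x ∈ Cy c r h, |UU (u t) x| ≤ B t) →
          ∫ t in (t' - τ)..t', B t ≤ 1 → ∀ x ∈ Cy c r h, |WW (u t') x| ≤ C / τ)

/-- IW-BOOT. The bootstrap after a time `T₂` with polynomial bounds. Proof: as `dissip` and `t_BtP` in
`Pool.Agent.Q65.AXI.BtP` (there is no singular coefficient now, so Gronwall is not needed), for
`M₀ ≤ M ≤ Mx` only: at a time with `|WW| ≤ M ≤ Mx` in `Co` one has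
`|circ| = sg |WW| ≤ sg ^ (1 / 2) ≤ (C' + 1) |log sg| ^ (-2)` if `sg < Mx ^ (-2)`
(`s ^ (1 / 2) log² s ≤ 16 e ^ (-2) < 3`, so use `S_YB` with `C' + 3`). With `C₇ = C (1 + Z)`,
`CS = C (1 + Z)` from `S_SM` and `CV = (CU + 1) (1 + C₇)` one gets
`sup |WW| ≤ max K (CS CV M ^ (7 / 16))`, so `sup |WW| ≤ max (max M₀ K) ((CS CV) ^ (16 / 9)) ≤ C Z ^ 4`
as long as it is at most `Mx`; since it is continuous in time and `C Z ^ 4 < Mx`, it stays below. -/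
def S_BOOT : Prop := ∀ (T E c R H K r h r1 h1 T₁ C' C₀ : ℝ) (u : ℝ → V → V) (p : ℝ → V → ℝ)
  (φ : V → ℝ), Geo T E c R H K r h r1 h1 T₁ C' C₀ u p φ →
    (∀ t ∈ Ico T₁ T, ∀ x ∈ Cy c r h, |circ (u t) x| ≤ C₀) →
    ∃ C : ℝ, 1 ≤ C ∧ ∀ T₂ Z Mx : ℝ, T₂ ∈ Ico T₁ T → 1 ≤ Z → C * Z ^ 4 < Mx →
      (∫ x, φ x ^ 2 * JJ (u T₂) x ^ 2) + (∫ x, φ x ^ 2 * OO (u T₂) x ^ 2) ≤ Z →
      (∀ x ∈ Cy c r h, |WW (u T₂) x| ≤ Z) →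
      (∀ t ∈ Ico T₂ T, ∀ x ∈ Co c r h, (Mx ^ 2)⁻¹ ≤ sg x →
        |circ (u t) x| ≤ C' * |Real.log (sg x)| ^ (-2 : ℝ)) →
        ∀ t ∈ Ico T₂ T, ∀ x ∈ Co c r h, |WW (u t) x| ≤ Mx

end Pool.Agent.D0H49.AX
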