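import Pool.Agent.Q67.AXI.Fin
import Pool.Agent.D0H49.AX.Main

/-!
Project IW (helper49): the theorem at the singular points, all viscosities.
-/

set_option autoImplicit false

open MeasureTheory Set Metric Filter Topology
open scoped ContDiff
open H459R3.NS Pool.Agent.W268.NS Pool.Agent.Q67.VD

namespace Pool.Agent.D0H49.AX

open Pool.Agent.Q85.CC Pool.Agent.Q85.CL Pool.Agent.TH305.AX Pool.Agent.Q67.AXI
open Pool.Agent.Q65.AXI (tailI)

/-- The tails of `k` after the change of the time scale. -/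
theorem tail_scale {ν T τ : ℝ} {k : ℝ → ℝ} (hν : 0 < ν) (hτ : 0 < τ) (hτT : τ < T)
    (hk0 : ∀ t ∈ Ioo 0 T, 0 ≤ k t) :
    tailI (fun s => k (s / ν)) (ν * T) (ν * T - ν * τ) = ν * ∫ t in (T - τ)..T, k t := by
  unfold tailI
  have e2 := intervalIntegral.integral_comp_div (a := ν * T - ν * τ) (b := ν * T)
    (fun x => |k x|) hν.ne'
  rw [e2, smul_eq_mul]
  have e3 : (ν * T - ν * τ) / ν = T - τ := by field_simp
  have e4 : ν * T / ν = T := by field_simp
  rw [e3, e4]
  congr 1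
  rw [intervalIntegral.integral_of_le (by linarith), intervalIntegral.integral_of_le (by linarith),
    integral_Ioc_eq_integral_Ioo, integral_Ioc_eq_integral_Ioo]
  refine setIntegral_congr_fun measurableSet_Ioo fun t ht => ?_
  exact abs_of_nonneg (hk0 t ⟨by linarith [ht.1], ht.2⟩)

/-- The local theorem, all viscosities. -/
theorem iw_D {K l μ d q d' A : ℝ} (hM : MainS K l q d' A) (hq : μ = 2 * q) (hd' : d' ≤ d)
    (hTr : StmTra) {ν T E : ℝ} {Ω : Set V}
    {u : ℝ → V → V} {p : ℝ → V → ℝ} (hν : 0 < ν) (h : DSl ν T E Ω u p)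
    (hax : ∀ t ∈ Ioo 0 T, ∀ (θ : ℝ), ∀ x ∈ Ω, rot θ x ∈ Ω → u t (rot θ x) = rot θ (u t x))
    {a : V} (ha : a ∈ Ω) (ha0 : a 0 = 0) (ha1 : a 1 = 0) (hs : Sing T u a)
    (k b : ℝ → ℝ) (δ M T₀ R : ℝ) (G : Set ℕ) (hkc : ContinuousOn k (Ioo 0 T))
    (hki : IntegrableOn k (Ioo 0 T))
    (hk0 : ∀ t ∈ Ioo 0 T, 0 ≤ k t) (hbc : ContinuousOn b (Ioo 0 T))
    (hbi : IntegrableOn b (Ioo 0 T)) (hb0 : ∀ t ∈ Ioo 0 T, 0 ≤ b t) (hδ : 0 < δ) (hT₀ : T₀ < T)
    (hR : 0 < R)
    (hGK : ∀ j ∈ G, δ / 2 ^ j < T → ∫ t in (T - δ / 2 ^ j)..T, k t ≤ K * (δ / 2 ^ j))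
    (hcnt : ∀ᶠ n : ℕ in atTop, A * Real.log n ≤ {j | j < n ∧ j ∈ G}.ncard) :
    ∃ t ∈ Ioo 0 T, T₀ < t ∧ ∃ x : V, ‖x - a‖ ≤ R ∧ 0 < sg x ∧ M * sg x < |circ (u t) x| ∧
      rad (vort (u t)) x = 0 ∧ 0 < circ (u t) x * vort (u t) x 2 ∧
      (rad (u t) x < -(ν * k t) - b t * sg x ∨
        ∃ j ∈ G, t ∈ Ioo (T - δ / 2 ^ j) (T - (1 - d) * (δ / 2 ^ j)) ∧
          rad (u t) x < -(ν * (2 - μ)) - (l / (δ / 2 ^ j) + b t) * sg x) := by
  have hT := hs.pos
  have hae : a = ![0, 0, a 2] := by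
    funext i
    fin_cases i
    · exact ha0
    · exact ha1
    · rfl
  by_contra hcon
  push Not at hcon
  obtain ⟨R', hR', hRR, hsub⟩ := small_ball h.openO ha hR
  rw [hae] at hsub
  obtain ⟨E', v, q', hL, hv⟩ := hTr ν T E Ω u p hν hT h hax (a 2) R' hR' hsub
  have hR2 : 0 < R' / 2 := by positivity
  have hνi : 0 < ν⁻¹ := inv_pos.2 hν
  have hmt : MapsTo (fun s : ℝ => s / ν) (Ioo 0 (ν * T)) (Ioo 0 T) := by
    intro s hs
    exact ⟨div_pos hs.1 hν, by rw [div_lt_iff₀ hν, mul_comm]; exact hs.2⟩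
  have hint : ∀ B : ℝ → ℝ, IntegrableOn B (Ioo 0 T) →
      IntegrableOn (fun s => B (s / ν)) (Ioo 0 (ν * T)) := by
    intro B hBi
    have h1 : Integrable ((Ioo 0 T).indicator B) :=
      (integrable_indicator_iff measurableSet_Ioo).2 hBi
    have h2 := h1.comp_div hν.ne'
    rw [← integrable_indicator_iff measurableSet_Ioo]
    refine h2.congr (Eventually.of_forall fun s => ?_)
    by_cases hs : s ∈ Ioo 0 (ν * T)
    · simp only [indicator_of_mem hs, indicator_of_mem (hmt hs)]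
    · have hs' : s / ν ∉ Ioo 0 T := by
        intro hs'
        apply hs
        refine ⟨by have := mul_pos hs'.1 hν; rwa [div_mul_cancel₀ _ hν.ne'] at this, ?_⟩
        have := (div_lt_iff₀ hν).1 hs'.2
        rwa [mul_comm] at this
      simp only [indicator_of_notMem hs, indicator_of_notMem hs']
  have hreg := hM (ν * T) E' (a 2) (R' / 2) (R' / 2) (ν * T₀) (ν⁻¹ * M) v q'
    (fun s => k (s / ν)) (fun s => ν⁻¹ * b (s / ν)) (ν * δ) (fun j => j ∈ G)
    (mul_pos hν hT) hR2 hR2 hL (mul_lt_mul_of_pos_left hT₀ hν)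
    (hkc.comp (by fun_prop) hmt) (hint k hki) (fun s hs => hk0 _ (hmt hs))
    (continuousOn_const.mul (hbc.comp (by fun_prop) hmt)) ((hint b hbi).const_mul ν⁻¹)
    (fun s hs => mul_nonneg hνi.le (hb0 _ (hmt hs))) (mul_pos hν hδ) (by
      intro j hj hjT
      rw [mul_div_assoc] at hjT ⊢
      have hjT' : δ / 2 ^ j < T := lt_of_mul_lt_mul_left hjT hν.le
      rw [tail_scale hν (by positivity) hjT' hk0]
      have h1 := mul_le_mul_of_nonneg_left (hGK j hj hjT') hν.le
      linarith) hcnt (by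
      intro t' ht' hT0t' x hx hsx hMx hr hcv
      have ht := hmt ht'
      have htν : ν * (t' / ν) = t' := by field_simp
      have hT0 : T₀ < t' / ν := by
        rw [lt_div_iff₀ hν, mul_comm]
        exact hT0t'
      have hvx : v t' x = ν⁻¹ • u (t' / ν) x := by
        rw [← hv _ ht x hx, htν]
      have hev : ∀ᶠ y in 𝓝 x, v t' y = ν⁻¹ • u (t' / ν) y := by
        filter_upwards [(isOpen_Co _ _ _).mem_nhds hx] with y hy
        rw [← hv _ ht y hy, htν]
      have hvo := vort_evD hev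
      rw [circ_cm hvx] at hMx hcv
      rw [rad_cm hvo] at hr
      rw [hvo] at hcv
      have h1 := hcon (t' / ν) ht hT0 x (by
        rw [hae]
        refine (norm_Co hR2.le hx).trans ?_
        rw [max_self]
        linarith) hsx (by
        rw [abs_mul, abs_of_pos hνi, mul_assoc] at hMx
        exact lt_of_mul_lt_mul_left hMx hνi.le) (by
        rcases mul_eq_zero.1 hr with h2 | h2
        · exact absurd h2 hνi.ne'
        · exact h2) (by
        have h2 : ν⁻¹ * circ (u (t' / ν)) x * (ν⁻¹ • vort (u (t' / ν)) x) 2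
            = ν⁻¹ ^ 2 * (circ (u (t' / ν)) x * vort (u (t' / ν)) x 2) := by
          rw [Pi.smul_apply, smul_eq_mul]
          ring
        rw [h2] at hcv
        exact (mul_pos_iff_of_pos_left (by positivity)).1 hcv)
      rw [rad_cm hvx]
      refine ⟨?_, fun j hj hjt => ?_⟩
      · have h3 := mul_le_mul_of_nonneg_left h1.1 hνi.le
        have h4 : ν⁻¹ * (-(ν * k (t' / ν)) - b (t' / ν) * sg x)
            = -(k (t' / ν) + ν⁻¹ * b (t' / ν) * sg x) := by
          field_simp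
          ring
        linarith
      · have hdj : 0 < δ / 2 ^ j := by positivity
        have h2 := h1.2 j hj (by
          rw [mul_div_assoc] at hjt
          constructor
          · rw [lt_div_iff₀ hν]
            have := hjt.1
            linarith
          · rw [div_lt_iff₀ hν]
            have h5 := hjt.2
            have h6 : d' * (δ / 2 ^ j * ν) ≤ d * (δ / 2 ^ j * ν) :=
              mul_le_mul_of_nonneg_right hd' (by positivity)
            linarith)
        have h3 := mul_le_mul_of_nonneg_left h2 hνi.le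
        have h4 : ν⁻¹ * (-(ν * (2 - μ)) - (l / (δ / 2 ^ j) + b (t' / ν)) * sg x)
            = -((2 - 2 * q) + (l / (ν * δ / 2 ^ j) + ν⁻¹ * b (t' / ν)) * sg x) := by
          rw [hq]
          field_simp
          ring
        linarith)
  have hb := backA hν hv (mem_Co_self hR2 hR2) hreg
  rw [← hae] at hb
  exact hs.not_bdd hb

end Pool.Agent.D0H49.AX
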